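import Pool.Agent.W506.PM.Stm

/-!
# The algebra: presentation with four generators and six relations
-/

universe u

namespace Pool.Agent.W506.PM

variable {k : Type u} [Field k]

/-- The matrix `mu`. -/
def mu0 (i0 : k) : Fin 4 → Fin 4 → k :=
  ![![1, 1, -1, i0], ![1, 1, 1, 1], ![-1, 1, 1, -i0], ![-i0, 1, i0, 1]]

/-- The four `mu`-symmetric matrices. -/
def MM0 (κ : k) : Fin 4 → Matrix (Fin 4) (Fin 4) k :=
  ![!![0, 0, 0, 0; 0, 0, 0, 1; 0, 0, 0, 0; 0, 1, 0, 0],
    !![2, 1, 0, 0; 1, 2 * (1 / 2 - κ), 1, 0; 0, 1, 0, 0; 0, 0, 0, 0],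
    !![0, 0, 1, 0; 0, 0, 0, 0; -1, 0, 0, 0; 0, 0, 0, 2],
    !![0, 1, 0, 0; 1, 2 * (1 / 2 + κ), 1, 0; 0, 1, 2, 0; 0, 0, 0, 0]]

/-- The tensor of the six relations. -/
def rr (i0 κ : k) : Fin 6 → Fin 4 → Fin 4 → k :=
  ![![![-1, 1, 0, 0], ![1, 0, 0, 0], ![0, 0, -1, 0], ![0, 0, 0, 0]],
    ![![-1, 0, 0, 0], ![0, 0, 1, 0], ![0, 1, -1, 0], ![0, 0, 0, 0]],
    ![![-(1 / 2 - κ), 0, 0, 0], ![0, 1, 0, 0], ![0, 0, -(1 / 2 + κ), 0], ![0, 0, 0, 0]],
    ![![0, 0, 0, -i0], ![0, 0, 0, 0], ![0, 0, 0, 0], ![1, 0, 0, 0]],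
    ![![0, 0, 0, 0], ![0, 0, 0, 0], ![0, 0, 0, i0], ![0, 0, 1, 0]],
    ![![0, 0, -1, 0], ![0, 0, 0, 0], ![1, 0, 0, 0], ![0, 0, 0, 1]]]

/-- The six relations for four elements of an algebra. -/
structure Rels (i0 κ : k) {E : Type u} [Ring E] [Algebra k E] (a v b t : E) : Prop where
  va : v * a + a * v = a * a + b * b
  vb : v * b + b * v = a * a + b * b
  vv : v * v = (1 / 2 - κ) • (a * a) + (1 / 2 + κ) • (b * b)
  ta : t * a = i0 • (a * t)
  tb : t * b = -(i0 • (b * t))
  tt : t * t = a * b - b * a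

theorem rels_iff (i0 κ : k) {E : Type u} [Ring E] [Algebra k E] (y : Fin 4 → E) :
    (∀ i, ∑ j, ∑ l, rr i0 κ i j l • (y j * y l) = 0) ↔ Rels i0 κ (y 0) (y 1) (y 2) (y 3) := by
  constructor
  · intro h
    have h0 := h 0
    have h1 := h 1
    have h2 := h 2
    have h3 := h 3
    have h4 := h 4
    have h5 := h 5
    simp [Fin.sum_univ_four, rr] at h0 h1 h2 h3 h4 h5
    constructor
    · rw [← sub_eq_zero, ← h0]; abel
    · rw [← sub_eq_zero, ← h1]; abel
    · rw [← sub_eq_zero, ← h2]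
      simp only [sub_smul, add_smul, neg_smul, one_div, neg_add_rev, neg_neg, neg_sub]
      abel
    · rw [← sub_eq_zero, ← h3]; abel
    · rw [← sub_eq_zero, ← h4]; abel
    · rw [← sub_eq_zero, ← h5]; abel
  · intro h i
    fin_cases i
    · have := h.va
      rw [← sub_eq_zero] at this
      simp [Fin.sum_univ_four, rr]
      rw [← this]; abel
    · have := h.vb
      rw [← sub_eq_zero] at this
      simp [Fin.sum_univ_four, rr]
      rw [← this]; abel
    · have := h.vv
      rw [← sub_eq_zero] at this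
      simp [Fin.sum_univ_four, rr]
      rw [← this]
      simp only [sub_smul, add_smul, neg_smul, one_div, neg_add_rev, neg_neg, neg_sub]
      abel
    · have := h.ta
      rw [← sub_eq_zero] at this
      simp [Fin.sum_univ_four, rr]
      rw [← this]; abel
    · have := h.tb
      rw [← sub_eq_zero] at this
      simp [Fin.sum_univ_four, rr]
      rw [← this]; abel
    · have := h.tt
      rw [← sub_eq_zero] at this
      simp [Fin.sum_univ_four, rr]
      rw [← this]; abel

/-- The algebra. -/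
abbrev AA (i0 κ : k) : Type u := GAlg k (mu0 i0) (MM0 κ)

section

variable (i0 κ : k)

/-- generators -/
noncomputable abbrev ea : AA i0 κ := gx k (mu0 i0) (MM0 κ) 0
/-- generators -/
noncomputable abbrev ev : AA i0 κ := gx k (mu0 i0) (MM0 κ) 1
/-- generators -/
noncomputable abbrev eb : AA i0 κ := gx k (mu0 i0) (MM0 κ) 2
/-- generators -/
noncomputable abbrev et : AA i0 κ := gx k (mu0 i0) (MM0 κ) 3

theorem g_rel {n : ℕ} (μ : Fin n → Fin n → k) (M : Fin n → Matrix (Fin n) (Fin n) k)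
    (i j : Fin n) :
    gx k μ M i * gx k μ M j + μ i j • (gx k μ M j * gx k μ M i) = ∑ l, M l i j • gy k μ M l := by
  have h : (Ideal.Quotient.mk (TwoSidedIdeal.span (grel k μ M)).asIdeal
      (FreeAlgebra.ι k (Sum.inl i) * FreeAlgebra.ι k (Sum.inl j)
        + μ i j • (FreeAlgebra.ι k (Sum.inl j) * FreeAlgebra.ι k (Sum.inl i))
        - ∑ l, M l i j • FreeAlgebra.ι k (Sum.inr l))) = 0 :=
    Ideal.Quotient.eq_zero_iff_mem.2 (TwoSidedIdeal.mem_asIdeal.2
      (TwoSidedIdeal.subset_span ⟨i, j, rfl⟩))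
  rw [← Ideal.Quotient.mkₐ_eq_mk k] at h
  simp only [map_sub, map_add, map_mul, map_smul, map_sum] at h
  exact sub_eq_zero.1 h

/-- the relation `(i, j)` with the sum written out -/
theorem g_rel4 (i j : Fin 4) (c m0 m1 m2 m3 : k) (hc : mu0 i0 i j = c)
    (h0 : MM0 κ 0 i j = m0) (h1 : MM0 κ 1 i j = m1) (h2 : MM0 κ 2 i j = m2)
    (h3 : MM0 κ 3 i j = m3) :
    gx k (mu0 i0) (MM0 κ) i * gx k (mu0 i0) (MM0 κ) j
      + c • (gx k (mu0 i0) (MM0 κ) j * gx k (mu0 i0) (MM0 κ) i)
      = m0 • gy k (mu0 i0) (MM0 κ) 0 + m1 • gy k (mu0 i0) (MM0 κ) 1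
        + m2 • gy k (mu0 i0) (MM0 κ) 2 + m3 • gy k (mu0 i0) (MM0 κ) 3 := by
  rw [← hc, ← h0, ← h1, ← h2, ← h3, g_rel, Fin.sum_univ_four]

variable (h2 : (2 : k) ≠ 0) (hi : i0 ^ 2 = -1)

include h2 in
theorem two_inj {E : Type u} [Ring E] [Algebra k E] {x y : E} (h : x + x = (2 : k) • y) :
    x = y := by
  rw [← two_smul k x] at h
  have := congrArg (fun z => (2 : k)⁻¹ • z) h
  simpa only [smul_smul, inv_mul_cancel₀ h2, one_smul] using this

include h2 in
theorem gy1_eq : gy k (mu0 i0) (MM0 κ) 1 = ea i0 κ * ea i0 κ := by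
  have h := g_rel4 i0 κ 0 0 1 0 2 0 0 rfl rfl rfl rfl rfl
  simp only [one_smul, zero_smul, zero_add, add_zero] at h
  exact (two_inj h2 h).symm

include h2 in
theorem gy3_eq : gy k (mu0 i0) (MM0 κ) 3 = eb i0 κ * eb i0 κ := by
  have h := g_rel4 i0 κ 2 2 1 0 0 0 2 rfl rfl rfl rfl rfl
  simp only [one_smul, zero_smul, zero_add, add_zero] at h
  exact (two_inj h2 h).symm

include h2 in
theorem gy2_eq : gy k (mu0 i0) (MM0 κ) 2 = et i0 κ * et i0 κ := by
  have h := g_rel4 i0 κ 3 3 1 0 0 2 0 rfl rfl rfl rfl rfl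
  simp only [one_smul, zero_smul, zero_add, add_zero] at h
  exact (two_inj h2 h).symm

theorem gy0_eq : gy k (mu0 i0) (MM0 κ) 0 = ev i0 κ * et i0 κ + et i0 κ * ev i0 κ := by
  have h := g_rel4 i0 κ 1 3 1 1 0 0 0 rfl rfl rfl rfl rfl
  simp only [one_smul, zero_smul, zero_add, add_zero] at h
  exact h.symm

include h2 in
theorem rels_AA : Rels i0 κ (ea i0 κ) (ev i0 κ) (eb i0 κ) (et i0 κ) := by
  constructor
  · have h := g_rel4 i0 κ 1 0 1 0 1 0 1 rfl rfl rfl rfl rfl
    simp only [one_smul, zero_smul, zero_add, add_zero] at h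
    rw [h, gy1_eq i0 κ h2, gy3_eq i0 κ h2]
  · have h := g_rel4 i0 κ 1 2 1 0 1 0 1 rfl rfl rfl rfl rfl
    simp only [one_smul, zero_smul, zero_add, add_zero] at h
    rw [h, gy1_eq i0 κ h2, gy3_eq i0 κ h2]
  · have h := g_rel4 i0 κ 1 1 1 0 (2 * (1 / 2 - κ)) 0 (2 * (1 / 2 + κ)) rfl rfl rfl rfl rfl
    simp only [one_smul, zero_smul, zero_add, add_zero] at h
    apply two_inj h2
    rw [h, gy1_eq i0 κ h2, gy3_eq i0 κ h2, smul_add, smul_smul, smul_smul]
  · have h := g_rel4 i0 κ 3 0 (-i0) 0 0 0 0 rfl rfl rfl rfl rfl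
    simp only [zero_smul, add_zero] at h
    rw [← sub_eq_zero, ← h, neg_smul]; abel
  · have h := g_rel4 i0 κ 3 2 i0 0 0 0 0 rfl rfl rfl rfl rfl
    simp only [zero_smul, add_zero] at h
    rw [← sub_eq_zero, ← h]; abel
  · have h := g_rel4 i0 κ 0 2 (-1) 0 0 1 0 rfl rfl rfl rfl rfl
    simp only [one_smul, zero_smul, zero_add, add_zero] at h
    rw [← gy2_eq i0 κ h2, ← h, neg_smul, one_smul]; abel

theorem hom_ext_aux {E : Type u} [Ring E] [Algebra k E] (y : Fin 4 ⊕ Fin 4 → E)
    (key : ∀ i j : Fin 4, y (Sum.inl i) * y (Sum.inl j)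
        + mu0 i0 i j • (y (Sum.inl j) * y (Sum.inl i))
        = MM0 κ 0 i j • y (Sum.inr 0) + MM0 κ 1 i j • y (Sum.inr 1)
          + MM0 κ 2 i j • y (Sum.inr 2) + MM0 κ 3 i j • y (Sum.inr 3)) :
    ∃ f : AA i0 κ →ₐ[k] E, ∀ i, f (gx k (mu0 i0) (MM0 κ) i) = y (Sum.inl i) := by
  have hI : ∀ a ∈ (TwoSidedIdeal.span (grel k (mu0 i0) (MM0 κ))).asIdeal,
      FreeAlgebra.lift k y a = 0 := by
    intro a ha
    rw [TwoSidedIdeal.mem_asIdeal] at ha
    have hle : TwoSidedIdeal.span (grel k (mu0 i0) (MM0 κ))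
        ≤ TwoSidedIdeal.ker (FreeAlgebra.lift k y) := by
      rw [TwoSidedIdeal.span_le]
      rintro _ ⟨i, j, rfl⟩
      apply (TwoSidedIdeal.mem_ker _).2
      simp only [map_sub, map_add, map_mul, map_smul, map_sum, FreeAlgebra.lift_ι_apply]
      rw [key, Fin.sum_univ_four, sub_self]
    exact (TwoSidedIdeal.mem_ker _).1 (hle ha)
  refine ⟨Ideal.Quotient.liftₐ _ (FreeAlgebra.lift k y) hI, fun i => ?_⟩
  exact FreeAlgebra.lift_ι_apply y (Sum.inl i)

include h2 hi in
/-- The universal property. -/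
theorem up_AA (E : Type u) [Ring E] [Algebra k E] (a v b t : E) (h : Rels i0 κ a v b t) :
    ∃ f : AA i0 κ →ₐ[k] E, f (ea i0 κ) = a ∧ f (ev i0 κ) = v ∧ f (eb i0 κ) = b ∧
      f (et i0 κ) = t := by
  have hii : i0 * i0 = -1 := by rw [← sq]; exact hi
  obtain ⟨f, hf⟩ := hom_ext_aux i0 κ
    (Sum.elim ![a, v, b, t] ![v * t + t * v, a * a, t * t, b * b]) (by
      have e00 : a * a + (1 : k) • (a * a) = (0 : k) • (v * t + t * v) + (2 : k) • (a * a)
          + (0 : k) • (t * t) + (0 : k) • (b * b) := by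
        simp only [zero_smul, one_smul, add_zero, zero_add, two_smul]
      have e01 : a * v + (1 : k) • (v * a) = (0 : k) • (v * t + t * v) + (1 : k) • (a * a)
          + (0 : k) • (t * t) + (1 : k) • (b * b) := by
        simp only [zero_smul, one_smul, add_zero, zero_add, ← h.va]; abel
      have e02 : a * b + (-1 : k) • (b * a) = (0 : k) • (v * t + t * v) + (0 : k) • (a * a)
          + (1 : k) • (t * t) + (0 : k) • (b * b) := by
        simp only [zero_smul, one_smul, add_zero, zero_add, h.tt, neg_smul]; abel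
      have e03 : a * t + i0 • (t * a) = (0 : k) • (v * t + t * v) + (0 : k) • (a * a)
          + (0 : k) • (t * t) + (0 : k) • (b * b) := by
        simp only [zero_smul, add_zero, h.ta, smul_smul, hii, neg_smul, one_smul]; abel
      have e10 : v * a + (1 : k) • (a * v) = (0 : k) • (v * t + t * v) + (1 : k) • (a * a)
          + (0 : k) • (t * t) + (1 : k) • (b * b) := by
        simp only [zero_smul, one_smul, add_zero, zero_add, ← h.va]
      have e11 : v * v + (1 : k) • (v * v) = (0 : k) • (v * t + t * v)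
          + (2 * (1 / 2 - κ) : k) • (a * a)
          + (0 : k) • (t * t) + (2 * (1 / 2 + κ) : k) • (b * b) := by
        simp only [zero_smul, one_smul, add_zero, zero_add]
        rw [← two_smul k (v * v), h.vv, smul_add, smul_smul, smul_smul]
      have e12 : v * b + (1 : k) • (b * v) = (0 : k) • (v * t + t * v) + (1 : k) • (a * a)
          + (0 : k) • (t * t) + (1 : k) • (b * b) := by
        simp only [zero_smul, one_smul, add_zero, zero_add, ← h.vb]
      have e13 : v * t + (1 : k) • (t * v) = (1 : k) • (v * t + t * v) + (0 : k) • (a * a)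
          + (0 : k) • (t * t) + (0 : k) • (b * b) := by
        simp only [zero_smul, one_smul, add_zero]
      have e20 : b * a + (-1 : k) • (a * b) = (0 : k) • (v * t + t * v) + (0 : k) • (a * a)
          + (-1 : k) • (t * t) + (0 : k) • (b * b) := by
        simp only [zero_smul, one_smul, add_zero, zero_add, h.tt, neg_smul]; abel
      have e21 : b * v + (1 : k) • (v * b) = (0 : k) • (v * t + t * v) + (1 : k) • (a * a)
          + (0 : k) • (t * t) + (1 : k) • (b * b) := by
        simp only [zero_smul, one_smul, add_zero, zero_add, ← h.vb]; abel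
      have e22 : b * b + (1 : k) • (b * b) = (0 : k) • (v * t + t * v) + (0 : k) • (a * a)
          + (0 : k) • (t * t) + (2 : k) • (b * b) := by
        simp only [zero_smul, one_smul, add_zero, zero_add, two_smul]
      have e23 : b * t + (-i0) • (t * b) = (0 : k) • (v * t + t * v) + (0 : k) • (a * a)
          + (0 : k) • (t * t) + (0 : k) • (b * b) := by
        simp only [zero_smul, add_zero, h.tb, smul_neg, smul_smul, neg_smul, neg_mul, hii,
          one_smul, neg_neg]; abel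
      have e30 : t * a + (-i0) • (a * t) = (0 : k) • (v * t + t * v) + (0 : k) • (a * a)
          + (0 : k) • (t * t) + (0 : k) • (b * b) := by
        simp only [zero_smul, add_zero, h.ta, neg_smul]; abel
      have e31 : t * v + (1 : k) • (v * t) = (1 : k) • (v * t + t * v) + (0 : k) • (a * a)
          + (0 : k) • (t * t) + (0 : k) • (b * b) := by
        simp only [zero_smul, one_smul, add_zero]; abel
      have e32 : t * b + i0 • (b * t) = (0 : k) • (v * t + t * v) + (0 : k) • (a * a)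
          + (0 : k) • (t * t) + (0 : k) • (b * b) := by
        simp only [zero_smul, add_zero, h.tb]; abel
      have e33 : t * t + (1 : k) • (t * t) = (0 : k) • (v * t + t * v) + (0 : k) • (a * a)
          + (2 : k) • (t * t) + (0 : k) • (b * b) := by
        simp only [zero_smul, one_smul, add_zero, zero_add, two_smul]
      intro i j
      fin_cases i <;> fin_cases j
      exacts [e00, e01, e02, e03, e10, e11, e12, e13, e20, e21, e22, e23, e30, e31, e32, e33])
  exact ⟨f, hf 0, hf 1, hf 2, hf 3⟩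

end

end Pool.Agent.W506.PM
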