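import Pool.Agent.W506.PM.A1

/-!
# The presentation `IsPres` of the algebra and of its opposite
-/

universe u

namespace Pool.Agent.W506.PM

variable {k : Type u} [Field k]

section Gen

variable {n : ℕ} (μ : Fin n → Fin n → k) (M : Fin n → Matrix (Fin n) (Fin n) k)

theorem galg_adjoin :
    Algebra.adjoin k (Set.range (gx k μ M) ∪ Set.range (gy k μ M)) = ⊤ := by
  rw [eq_top_iff]
  intro z _
  obtain ⟨p, rfl⟩ := Ideal.Quotient.mkₐ_surjective k
    (TwoSidedIdeal.span (grel k μ M)).asIdeal z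
  induction p using FreeAlgebra.induction with
  | grade0 r =>
    rw [AlgHom.commutes]
    exact Subalgebra.algebraMap_mem _ r
  | grade1 x =>
    apply Algebra.subset_adjoin
    rcases x with i | l
    · exact Or.inl ⟨i, rfl⟩
    · exact Or.inr ⟨l, rfl⟩
  | mul a b ha hb =>
    rw [map_mul]
    exact Subalgebra.mul_mem _ (ha trivial) (hb trivial)
  | add a b ha hb =>
    rw [map_add]
    exact Subalgebra.add_mem _ (ha trivial) (hb trivial)

end Gen

variable (i0 κ : k) (h2 : (2 : k) ≠ 0) (hi : i0 ^ 2 = -1)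

include h2 in
theorem adjoin_AA : Algebra.adjoin k (Set.range (gx k (mu0 i0) (MM0 κ))) = ⊤ := by
  rw [eq_top_iff, ← galg_adjoin]
  apply Algebra.adjoin_le
  have hx : ∀ i, gx k (mu0 i0) (MM0 κ) i ∈ Algebra.adjoin k (Set.range (gx k (mu0 i0) (MM0 κ))) :=
    fun i => Algebra.subset_adjoin ⟨i, rfl⟩
  rintro _ (⟨i, rfl⟩ | ⟨l, rfl⟩)
  · exact hx i
  · fin_cases l
    · exact (gy0_eq i0 κ).symm ▸ Subalgebra.add_mem _ (Subalgebra.mul_mem _ (hx 1) (hx 3))
        (Subalgebra.mul_mem _ (hx 3) (hx 1))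
    · exact (gy1_eq i0 κ h2).symm ▸ Subalgebra.mul_mem _ (hx 0) (hx 0)
    · exact (gy2_eq i0 κ h2).symm ▸ Subalgebra.mul_mem _ (hx 3) (hx 3)
    · exact (gy3_eq i0 κ h2).symm ▸ Subalgebra.mul_mem _ (hx 2) (hx 2)

include h2 hi in
theorem isPres_AA : IsPres (gx k (mu0 i0) (MM0 κ)) (rr i0 κ) where
  rel := (rels_iff i0 κ _).2 (rels_AA i0 κ h2)
  gen := adjoin_AA i0 κ h2
  up E _ _ y hy := by
    obtain ⟨f, h0, h1, h2, h3⟩ := up_AA i0 κ h2 hi E _ _ _ _ ((rels_iff i0 κ y).1 hy)
    refine ⟨f, fun j => ?_⟩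
    fin_cases j
    exacts [h0, h1, h2, h3]

/-- The opposite of a quadratic presentation. -/
theorem IsPres.op {A : Type u} [Ring A] [Algebra k A] {n m : ℕ} {x : Fin n → A}
    {r : Fin m → Fin n → Fin n → k} (h : IsPres x r) :
    IsPres (fun j => MulOpposite.op (x j)) (fun i j l => r i l j) where
  rel i := by
    have := h.rel i
    rw [Finset.sum_comm]
    have h1 := congrArg MulOpposite.op this
    simpa only [MulOpposite.op_zero, Finset.op_sum, MulOpposite.op_smul, MulOpposite.op_mul]
      using h1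
  gen := by
    rw [eq_top_iff]
    intro z _
    have hz : z.unop ∈ Algebra.adjoin k (Set.range x) := by rw [h.gen]; trivial
    have key : ∀ y ∈ Algebra.adjoin k (Set.range x),
        MulOpposite.op y ∈ Algebra.adjoin k (Set.range fun j => MulOpposite.op (x j)) := by
      intro y hy
      induction hy using Algebra.adjoin_induction with
      | mem y hy =>
        obtain ⟨j, rfl⟩ := hy
        exact Algebra.subset_adjoin ⟨j, rfl⟩
      | algebraMap c => exact Subalgebra.algebraMap_mem _ c
      | add y z _ _ hy hz => rw [MulOpposite.op_add]; exact Subalgebra.add_mem _ hy hz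
      | mul y z _ _ hy hz => rw [MulOpposite.op_mul]; exact Subalgebra.mul_mem _ hz hy
    exact key _ hz
  up E _ _ y hy := by
    obtain ⟨f, hf⟩ := h.up Eᵐᵒᵖ (fun j => MulOpposite.op (y j)) (by
      intro i
      have h0 := hy i
      rw [Finset.sum_comm] at h0
      have h1 := congrArg MulOpposite.op h0
      simpa only [MulOpposite.op_zero, Finset.op_sum, MulOpposite.op_smul, MulOpposite.op_mul]
        using h1)
    refine ⟨AlgHom.opComm f, fun j => ?_⟩
    have := congrArg MulOpposite.unop (hf j)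
    simpa [AlgHom.opComm] using this

end Pool.Agent.W506.PM
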