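import Pool.Agent.W506.PM.A2

/-!
# The grading of `A(mu; M_1, ..., M_n)`
-/

universe u

namespace Pool.Agent.W506.PM

open DirectSum

section

variable {k : Type u} [Field k] {n : ℕ} (μ : Fin n → Fin n → k)
  (M : Fin n → Matrix (Fin n) (Fin n) k)

theorem GWord.mul {d e : ℕ} {w z : GAlg k μ M} (hw : GWord k μ M d w) (hz : GWord k μ M e z) :
    GWord k μ M (d + e) (w * z) := by
  induction hw with
  | one => rw [one_mul, zero_add]; exact hz
  | x i _ ih =>
    rw [mul_assoc, add_right_comm]; exact GWord.x i ih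
  | y l _ ih =>
    rw [mul_assoc, add_right_comm]; exact GWord.y l ih

instance ggr_gradedMonoid : SetLike.GradedMonoid (ggr k μ M) where
  one_mem := Submodule.subset_span GWord.one
  mul_mem i j a b ha hb := by
    have : a * b ∈ ggr k μ M i * ggr k μ M j := Submodule.mul_mem_mul ha hb
    have h2 : ggr k μ M i * ggr k μ M j ≤ ggr k μ M (i + j) := by
      rw [ggr, ggr, Submodule.span_mul_span]
      apply Submodule.span_le.2
      rintro _ ⟨x, hx, y, hy, rfl⟩
      exact Submodule.subset_span (GWord.mul μ M hx hy)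
    exact h2 this

theorem gx_mem (i : Fin n) : gx k μ M i ∈ ggr k μ M 1 := by
  have := Submodule.subset_span (R := k) (s := {w | GWord k μ M 1 w})
    (GWord.x i (GWord.one (k := k) (μ := μ) (M := M)))
  rw [mul_one] at this
  exact this

theorem gy_mem (i : Fin n) : gy k μ M i ∈ ggr k μ M 2 := by
  have := Submodule.subset_span (R := k) (s := {w | GWord k μ M 2 w})
    (GWord.y i (GWord.one (k := k) (μ := μ) (M := M)))
  rw [mul_one] at this
  exact this

/-- the images of the generators in the direct sum -/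
noncomputable def gdec0 : Fin n ⊕ Fin n → ⨁ d, ggr k μ M d :=
  Sum.elim (fun i => DirectSum.of (fun d => ggr k μ M d) 1 ⟨gx k μ M i, gx_mem μ M i⟩)
    (fun l => DirectSum.of (fun d => ggr k μ M d) 2 ⟨gy k μ M l, gy_mem μ M l⟩)

theorem gdec_rel (a : FreeAlgebra k (Fin n ⊕ Fin n))
    (ha : a ∈ (TwoSidedIdeal.span (grel k μ M)).asIdeal) :
    FreeAlgebra.lift k (gdec0 μ M) a = 0 := by
  rw [TwoSidedIdeal.mem_asIdeal] at ha
  have hle : TwoSidedIdeal.span (grel k μ M)
      ≤ TwoSidedIdeal.ker (FreeAlgebra.lift k (gdec0 μ M)) := by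
    rw [TwoSidedIdeal.span_le]
    rintro _ ⟨i, j, rfl⟩
    apply (TwoSidedIdeal.mem_ker _).2
    simp only [map_sub, map_add, map_mul, map_smul, map_sum, FreeAlgebra.lift_ι_apply, gdec0,
      Sum.elim_inl, Sum.elim_inr, DirectSum.of_mul_of]
    have e1 : ∀ (c : k) (d : ℕ) (z : ggr k μ M d),
        c • DirectSum.of (fun d => ggr k μ M d) d z = DirectSum.of (fun d => ggr k μ M d) d (c • z) :=
      fun c d z => ((DirectSum.lof k ℕ (fun d => ggr k μ M d) d).map_smul c z).symm
    simp only [e1]
    have e2 : (1 : ℕ) + 1 = 2 := rfl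
    rw [← map_add, ← map_sum, ← map_sub]
    have e3 : ∀ z : ggr k μ M 2, z = 0 → DirectSum.of (fun d => ggr k μ M d) 2 z = 0 := by
      rintro _ rfl; exact map_zero _
    apply e3
    apply Subtype.ext
    have := g_rel μ M i j
    rw [← sub_eq_zero] at this
    simpa using this
  exact (TwoSidedIdeal.mem_ker _).1 (hle ha)

/-- the decomposition map -/
noncomputable def gdec : GAlg k μ M →ₐ[k] ⨁ d, ggr k μ M d :=
  Ideal.Quotient.liftₐ _ (FreeAlgebra.lift k (gdec0 μ M)) (gdec_rel μ M)

theorem gdec_gx (i : Fin n) : gdec μ M (gx k μ M i)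
    = DirectSum.of (fun d => ggr k μ M d) 1 ⟨gx k μ M i, gx_mem μ M i⟩ :=
  FreeAlgebra.lift_ι_apply (gdec0 μ M) (Sum.inl i)

theorem gdec_gy (i : Fin n) : gdec μ M (gy k μ M i)
    = DirectSum.of (fun d => ggr k μ M d) 2 ⟨gy k μ M i, gy_mem μ M i⟩ :=
  FreeAlgebra.lift_ι_apply (gdec0 μ M) (Sum.inr i)

theorem gdec_word {d : ℕ} {w : GAlg k μ M} (hw : GWord k μ M d w) :
    gdec μ M w = DirectSum.of (fun d => ggr k μ M d) d ⟨w, Submodule.subset_span hw⟩ := by
  induction hw with
  | one => rw [map_one]; rfl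
  | @x i d w hw ih =>
    rw [map_mul, ih, gdec_gx, DirectSum.of_mul_of]
    apply DirectSum.of_eq_of_gradedMonoid_eq
    apply Sigma.subtype_ext
    · exact add_comm 1 d
    · rfl
  | @y i d w hw ih =>
    rw [map_mul, ih, gdec_gy, DirectSum.of_mul_of]
    apply DirectSum.of_eq_of_gradedMonoid_eq
    apply Sigma.subtype_ext
    · exact add_comm 2 d
    · rfl

noncomputable instance : GradedAlgebra (ggr k μ M) :=
  GradedAlgebra.ofAlgHom (ggr k μ M) (gdec μ M)
    (by
      have key : ∀ u ∈ Algebra.adjoin k (Set.range (gx k μ M) ∪ Set.range (gy k μ M)),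
          (DirectSum.coeAlgHom (ggr k μ M)) (gdec μ M u) = u := by
        intro u hu
        induction hu using Algebra.adjoin_induction with
        | mem y hy =>
          rcases hy with ⟨i, rfl⟩ | ⟨i, rfl⟩
          · rw [gdec_gx]; simp
          · rw [gdec_gy]; simp
        | algebraMap c => rw [AlgHom.commutes, AlgHom.commutes]
        | add y z _ _ hy hz => rw [map_add, map_add, hy, hz]
        | mul y z _ _ hy hz => rw [map_mul, map_mul, hy, hz]
      apply AlgHom.ext
      intro u
      exact key u (by rw [galg_adjoin]; trivial))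
    (by
      rintro d ⟨x, hx⟩
      induction hx using Submodule.span_induction with
      | mem x hx => exact gdec_word μ M hx
      | zero => 
        have : (⟨0, Submodule.zero_mem _⟩ : ggr k μ M d) = 0 := rfl
        rw [this, map_zero]; exact map_zero _
      | add x y hx hy h1 h2 =>
        have : (⟨x + y, Submodule.add_mem _ hx hy⟩ : ggr k μ M d) = ⟨x, hx⟩ + ⟨y, hy⟩ := rfl
        rw [this, map_add, ← h1, ← h2]
        exact map_add _ _ _
      | smul c x hx h1 =>
        have : (⟨c • x, Submodule.smul_mem _ c hx⟩ : ggr k μ M d) = c • ⟨x, hx⟩ := rfl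
        have e1 : ∀ (c : k) (d : ℕ) (z : ggr k μ M d),
          c • DirectSum.of (fun d => ggr k μ M d) d z
            = DirectSum.of (fun d => ggr k μ M d) d (c • z) :=
          fun c d z => ((DirectSum.lof k ℕ (fun d => ggr k μ M d) d).map_smul c z).symm
        rw [this, ← e1, ← h1]
        exact map_smul _ _ _)

end

end Pool.Agent.W506.PM
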