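import Pool.Agent.W506.PM.M5
import Pool.Agent.W506.PM.GR

/-!
# The graded pieces of the algebra
-/

universe u

namespace Pool.Agent.W506.PM

variable {k : Type u} [Field k]

section

variable (i0 κ : k) (h2 : (2 : k) ≠ 0) (hi : i0 ^ 2 = -1)

/-- the grading of our algebra -/
noncomputable abbrev gA : ℕ → Submodule k (AA i0 κ) := ggr k (mu0 i0) (MM0 κ)

/-- total degree -/
def deg4 (i : Fin 4 → ℕ) : ℕ := i 0 + i 1 + i 2 + i 3

theorem gmul {d e : ℕ} {x y : AA i0 κ} (hx : x ∈ gA i0 κ d) (hy : y ∈ gA i0 κ e) :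
    x * y ∈ gA i0 κ (d + e) := SetLike.mul_mem_graded hx hy

theorem wp_mem (n : ℕ) : wp i0 κ n ∈ gA i0 κ n := by
  induction n with
  | zero => exact SetLike.one_mem_graded _
  | succ n ih =>
    rw [wp_succ, add_comm n 1]
    split_ifs
    · exact gmul i0 κ (gx_mem _ _ 1) ih
    · exact gmul i0 κ (gx_mem _ _ 3) ih

theorem wn_mem (n : ℕ) : wn i0 κ n ∈ gA i0 κ n := by
  induction n with
  | zero => exact SetLike.one_mem_graded _
  | succ n ih =>
    rw [wn_succ, add_comm n 1]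
    split_ifs
    · exact gmul i0 κ (gx_mem _ _ 3) ih
    · exact gmul i0 κ (gx_mem _ _ 1) ih

theorem ww_mem_gA (n : ℤ) : ww i0 κ n ∈ gA i0 κ n.natAbs := by
  obtain ⟨m, rfl | rfl⟩ := Int.eq_nat_or_neg n
  · exact wp_mem i0 κ m
  · rw [ww_neg_natCast]
    simpa using wn_mem i0 κ m

theorem om_mem_gA : om i0 κ ∈ gA i0 κ 2 := by
  have h1 : ea i0 κ * eb i0 κ ∈ gA i0 κ (1 + 1) :=
    gmul i0 κ (gx_mem (mu0 i0) (MM0 κ) 0) (gx_mem (mu0 i0) (MM0 κ) 2)
  have h2 : eb i0 κ * ea i0 κ ∈ gA i0 κ (1 + 1) :=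
    gmul i0 κ (gx_mem (mu0 i0) (MM0 κ) 2) (gx_mem (mu0 i0) (MM0 κ) 0)
  unfold om
  exact Submodule.add_mem _ h1 h2

theorem BB_mem_gA (i : Fin 4 → ℕ) : BB i0 κ i ∈ gA i0 κ (deg4 i) := by
  have h1 : ea i0 κ ^ i 0 ∈ gA i0 κ (i 0) := by
    simpa using SetLike.pow_mem_graded (A := gA i0 κ) (i 0) (gx_mem (mu0 i0) (MM0 κ) 0)
  have h2 : eb i0 κ ^ i 1 ∈ gA i0 κ (i 1) := by
    simpa using SetLike.pow_mem_graded (A := gA i0 κ) (i 1) (gx_mem (mu0 i0) (MM0 κ) 2)
  have h3 : om i0 κ ^ min (i 2) (i 3) ∈ gA i0 κ (min (i 2) (i 3) * 2) := by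
    simpa using SetLike.pow_mem_graded (A := gA i0 κ) (min (i 2) (i 3)) (om_mem_gA i0 κ)
  have h4 := ww_mem_gA i0 κ ((i 2 : ℤ) - i 3)
  have h5 := gmul i0 κ (gmul i0 κ (gmul i0 κ h1 h2) h3) h4
  have e : i 0 + i 1 + min (i 2) (i 3) * 2 + ((i 2 : ℤ) - i 3).natAbs = deg4 i := by
    unfold deg4; omega
  rw [e] at h5
  exact h5

theorem proj_BB (e : ℕ) (j : Fin 4 → ℕ) : GradedAlgebra.proj (gA i0 κ) e (BB i0 κ j)
    = if deg4 j = e then BB i0 κ j else 0 := by
  rw [GradedAlgebra.proj_apply]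
  split_ifs with h
  · subst h
    exact DirectSum.decompose_of_mem_same _ (BB_mem_gA i0 κ j)
  · exact DirectSum.decompose_of_mem_ne _ (BB_mem_gA i0 κ j) h

theorem repr_eq_zero {d : ℕ} {x : AA i0 κ} (hx : x ∈ gA i0 κ d) (i : Fin 4 → ℕ)
    (hid : deg4 i ≠ d) : (bas i0 κ h2 hi).repr x i = 0 := by
  have key : ((bas i0 κ h2 hi).coord i).comp (GradedAlgebra.proj (gA i0 κ) d) = 0 := by
    apply (bas i0 κ h2 hi).ext
    intro j
    rw [LinearMap.comp_apply, bas_apply, proj_BB]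
    split_ifs with h
    · rw [← bas_apply i0 κ h2 hi, Module.Basis.coord_apply, Module.Basis.repr_self,
        Finsupp.single_eq_of_ne]
      · rfl
      · rintro rfl; exact hid h
    · rw [map_zero]; rfl
  have h1 := LinearMap.congr_fun key x
  rw [LinearMap.comp_apply, GradedAlgebra.proj_apply, DirectSum.decompose_of_mem_same _ hx] at h1
  exact h1

/-- the standard monomials of degree `d` -/
noncomputable def mon (d : ℕ) : Finset (Fin 4 → ℕ) :=
  ((Finset.univ : Finset (Fin 4)).finsuppAntidiag d).map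
    ⟨fun f : Fin 4 →₀ ℕ => ⇑f, DFunLike.coe_injective⟩

theorem mem_mon (d : ℕ) (i : Fin 4 → ℕ) : i ∈ mon d ↔ deg4 i = d := by
  rw [mon, Finset.mem_map]
  constructor
  · rintro ⟨f, hf, rfl⟩
    rw [Finset.mem_finsuppAntidiag] at hf
    have h := hf.1
    rw [Fin.sum_univ_four] at h
    exact h
  · intro h
    refine ⟨Finsupp.equivFunOnFinite.symm i, ?_, rfl⟩
    rw [Finset.mem_finsuppAntidiag]
    refine ⟨?_, Finset.subset_univ _⟩
    rw [Fin.sum_univ_four]
    exact h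

theorem card_mon (d : ℕ) : (mon d).card = (d + 3).choose 3 := by
  rw [mon, Finset.card_map, Finset.card_finsuppAntidiag_nat_eq_choose, Finset.card_univ,
    Fintype.card_fin]
  have : 4 + d - 1 = d + 3 := by omega
  rw [this, Nat.choose_symm_add]

include h2 hi in
theorem gA_eq_span (d : ℕ) :
    gA i0 κ d = Submodule.span k (Set.range fun i : mon d => BB i0 κ i) := by
  apply le_antisymm
  · intro x hx
    rw [← (bas i0 κ h2 hi).linearCombination_repr x, Finsupp.linearCombination_apply, Finsupp.sum]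
    apply Submodule.sum_mem
    intro i hi'
    apply Submodule.smul_mem
    rw [bas_apply]
    have hid : deg4 i = d := by
      by_contra h
      exact (Finsupp.mem_support_iff.1 hi') (repr_eq_zero i0 κ h2 hi hx i h)
    exact Submodule.subset_span ⟨⟨i, (mem_mon d i).2 hid⟩, rfl⟩
  · rw [Submodule.span_le]
    rintro _ ⟨⟨i, hi'⟩, rfl⟩
    have := BB_mem_gA i0 κ i
    rw [(mem_mon d i).1 hi'] at this
    exact this

include h2 hi in
theorem finrank_gA (d : ℕ) : Module.finrank k (gA i0 κ d) = (d + 3).choose 3 := by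
  rw [gA_eq_span i0 κ h2 hi, finrank_span_eq_card]
  · rw [Fintype.card_coe, card_mon]
  · exact (linearIndependent_BB i0 κ h2 hi).comp _ Subtype.val_injective

include h2 hi in
theorem finite_gA (d : ℕ) : Module.Finite k (gA i0 κ d) := by
  rw [gA_eq_span i0 κ h2 hi]
  exact Module.Finite.span_of_finite k (Set.finite_range _)

include h2 hi in
theorem conn_gA : IsConnectedGraded (gA i0 κ) where
  graded := inferInstance
  internal := DirectSum.Decomposition.isInternal _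
  connected := by rw [finrank_gA i0 κ h2 hi]; rfl
  finite := finite_gA i0 κ h2 hi

end

end Pool.Agent.W506.PM
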