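import Mathlib

/-!
# Graded skew Clifford algebras, Artin-Schelter regularity, point modules: definitions
-/

open CategoryTheory Abelian

universe u

namespace Pool.Agent.W506.PM

/-! ### The algebra `A(mu; M_1, ..., M_n)` -/

section GSCA

variable (k : Type u) [Field k] {n : ℕ} (μ : Fin n → Fin n → k)
  (M : Fin n → Matrix (Fin n) (Fin n) k)

/-- The defining relations
`x_i x_j + mu_ij x_j x_i - sum_l (M_l)_ij y_l` in the free algebra on
`x_1, ..., x_n` (left summand) and `y_1, ..., y_n` (right summand). -/
def grel : Set (FreeAlgebra k (Fin n ⊕ Fin n)) :=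
  {p | ∃ i j : Fin n, p =
    FreeAlgebra.ι k (Sum.inl i) * FreeAlgebra.ι k (Sum.inl j)
      + μ i j • (FreeAlgebra.ι k (Sum.inl j) * FreeAlgebra.ι k (Sum.inl i))
      - ∑ l, M l i j • FreeAlgebra.ι k (Sum.inr l)}

/-- The algebra `A(mu; M_1, ..., M_n)`: the quotient of the free algebra by the two-sided
ideal generated by the defining relations. -/
abbrev GAlg : Type u :=
  FreeAlgebra k (Fin n ⊕ Fin n) ⧸ (TwoSidedIdeal.span (grel k μ M)).asIdeal

/-- The generator `x_i` (degree one). -/
noncomputable def gx (i : Fin n) : GAlg k μ M :=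
  Ideal.Quotient.mk _ (FreeAlgebra.ι k (Sum.inl i))

/-- The generator `y_l` (degree two). -/
noncomputable def gy (l : Fin n) : GAlg k μ M :=
  Ideal.Quotient.mk _ (FreeAlgebra.ι k (Sum.inr l))

/-- `GWord d w`: `w` is a word in the `x_i` (degree one) and `y_l` (degree two) of total
degree `d`. -/
inductive GWord : ℕ → GAlg k μ M → Prop
  | one : GWord 0 1
  | x (i : Fin n) {d : ℕ} {w : GAlg k μ M} : GWord d w → GWord (d + 1) (gx k μ M i * w)
  | y (l : Fin n) {d : ℕ} {w : GAlg k μ M} : GWord d w → GWord (d + 2) (gy k μ M l * w)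

/-- The degree `d` part of `A(mu; M_1, ..., M_n)`: the span of the words of degree `d`. -/
noncomputable def ggr (d : ℕ) : Submodule k (GAlg k μ M) := Submodule.span k {w | GWord k μ M d w}

/-- `r_1, ..., r_m` is a normalizing sequence: for each `i`, the image of `r_i` is a normal
element of the quotient by the two-sided ideal generated by `r_1, ..., r_{i-1}`. -/
def IsNormalizingSeq {A : Type u} [Ring A] {m : ℕ} (r : Fin m → A) : Prop :=
  ∀ i, (∀ a, ∃ b, a * r i - r i * b ∈ TwoSidedIdeal.span (r '' {j | j < i})) ∧
    (∀ a, ∃ b, r i * a - b * r i ∈ TwoSidedIdeal.span (r '' {j | j < i}))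

/-- `A(mu; M_1, ..., M_n)` is a graded skew Clifford algebra: `mu_ij mu_ji = 1`, `mu_ii = 1`,
each `M_l` is mu-symmetric, and there is a normalizing sequence of `n` elements spanning
`k y_1 + ... + k y_n`. -/
structure IsGSCA : Prop where
  mu_ne_zero : ∀ i j, μ i j ≠ 0
  mu_mul : ∀ i j, μ i j * μ j i = 1
  mu_diag : ∀ i, μ i i = 1
  symm : ∀ l i j, M l i j = μ i j * M l j i
  normalizing : ∃ r : Fin n → GAlg k μ M,
    Submodule.span k (Set.range r) = Submodule.span k (Set.range (gy k μ M)) ∧
      IsNormalizingSeq r

end GSCA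

/-! ### Graded algebras: quadratic, Artin-Schelter regular -/

section Graded

variable {k : Type u} [Field k] {A : Type u} [Ring A] [Algebra k A]

/-- `A` with the family `𝒜` is a connected graded algebra with finite-dimensional
components. -/
structure IsConnectedGraded (𝒜 : ℕ → Submodule k A) : Prop where
  graded : SetLike.GradedMonoid 𝒜
  internal : DirectSum.IsInternal 𝒜
  connected : Module.finrank k (𝒜 0) = 1
  finite : ∀ n, Module.Finite k (𝒜 n)

/-- A graded algebra is quadratic: it is generated by finitely many elements of degree one,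
and the ideal of relations between these generators is generated by homogeneous
relations of degree two. -/
def IsQuadratic (𝒜 : ℕ → Submodule k A) : Prop :=
  ∃ (n : ℕ) (x : Fin n → A), (∀ i, x i ∈ 𝒜 1) ∧
    Function.Surjective (FreeAlgebra.lift k x) ∧
    ∀ f : FreeAlgebra k (Fin n), FreeAlgebra.lift k x f = 0 ↔
      f ∈ TwoSidedIdeal.span {r : FreeAlgebra k (Fin n) |
        (∃ c : Fin n → Fin n → k,
          r = ∑ i, ∑ j, c i j • (FreeAlgebra.ι k i * FreeAlgebra.ι k j)) ∧
        FreeAlgebra.lift k x r = 0}

/-- The left ideal `A_+` generated by the homogeneous elements of positive degree. -/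
noncomputable def augIdeal (𝒜 : ℕ → Submodule k A) : Submodule A A :=
  Submodule.span A {a | ∃ n, 1 ≤ n ∧ a ∈ 𝒜 n}

/-- The trivial left module `A / A_+`. -/
noncomputable def trivMod (𝒜 : ℕ → Submodule k A) : ModuleCat.{u} A :=
  ModuleCat.of A (A ⧸ augIdeal 𝒜)

/-- The conditions of Artin-Schelter regularity of dimension `d` on the side of left modules:
every left module has projective dimension at most `d`, the trivial module `k = A / A_+` has
projective dimension exactly `d`, and `Ext^i(k, A)` is zero for `i ≠ d` and one-dimensional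
for `i = d`. -/
structure LeftRegular (𝒜 : ℕ → Submodule k A) (d : ℕ) : Prop where
  gldim_le : ∀ N : ModuleCat.{u} A, HasProjectiveDimensionLE N d
  gldim_ge : ¬ HasProjectiveDimensionLT (trivMod 𝒜) d
  ext_eq_zero : ∀ i, i ≠ d → Subsingleton (Ext (trivMod 𝒜) (ModuleCat.of A A) i)
  ext_top : Module.finrank k (Ext (trivMod 𝒜) (ModuleCat.of A A) d) = 1

/-- The grading of the opposite algebra. -/
noncomputable def opGr (𝒜 : ℕ → Submodule k A) (n : ℕ) : Submodule k Aᵐᵒᵖ :=
  (𝒜 n).map (MulOpposite.opLinearEquiv k).toLinearMap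

/-- Artin-Schelter regular of global dimension `d`: connected graded, of polynomial growth
(finite Gelfand-Kirillov dimension), and satisfying the homological conditions for left
modules and for right modules (left modules over the opposite algebra). -/
structure IsASRegular (𝒜 : ℕ → Submodule k A) (d : ℕ) : Prop where
  conn : IsConnectedGraded 𝒜
  growth : ∃ c : ℕ, ∀ n, Module.finrank k (𝒜 n) ≤ c * (n + 1) ^ c
  left : LeftRegular 𝒜 d
  right : LeftRegular (opGr 𝒜) d

end Graded

/-! ### Point modules -/

section Point

variable {k : Type u} [Field k] {A : Type u} [Ring A] [Algebra k A]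

/-- A point module over the graded algebra `(A, 𝒜)`: a graded right `A`-module
`M = M_0 + M_1 + ...` (right modules are modules over `Aᵐᵒᵖ`), generated by `M_0`, all of
whose components are one-dimensional. -/
structure PointModule (𝒜 : ℕ → Submodule k A) where
  /-- the underlying vector space -/
  carrier : Type u
  [addCommGroup : AddCommGroup carrier]
  [module : Module k carrier]
  [rightModule : Module Aᵐᵒᵖ carrier]
  [tower : IsScalarTower k Aᵐᵒᵖ carrier]
  /-- the homogeneous components -/
  comp : ℕ → Submodule k carrier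
  internal : DirectSum.IsInternal comp
  smul_mem : ∀ i j a m, a ∈ 𝒜 i → m ∈ comp j → MulOpposite.op a • m ∈ comp (j + i)
  finrank_comp : ∀ i, Module.finrank k (comp i) = 1
  cyclic : Submodule.span Aᵐᵒᵖ (comp 0 : Set carrier) = ⊤

attribute [instance] PointModule.addCommGroup PointModule.module PointModule.rightModule
  PointModule.tower

/-- Graded isomorphism of point modules. -/
def PointModule.Iso {𝒜 : ℕ → Submodule k A} (P Q : PointModule 𝒜) : Prop :=
  ∃ e : P.carrier ≃ₗ[Aᵐᵒᵖ] Q.carrier, ∀ i m, m ∈ P.comp i ↔ e m ∈ Q.comp i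

/-- Graded isomorphism is an equivalence relation. -/
def PointModule.setoid (𝒜 : ℕ → Submodule k A) : Setoid (PointModule 𝒜) where
  r := PointModule.Iso
  iseqv :=
    { refl := fun P => ⟨LinearEquiv.refl _ _, fun i m => Iff.rfl⟩
      symm := by
        rintro P Q ⟨e, he⟩
        exact ⟨e.symm, fun i m => by rw [he i (e.symm m), e.apply_symm_apply]⟩
      trans := by
        rintro P Q R ⟨e, he⟩ ⟨f, hf⟩
        exact ⟨e.trans f, fun i m => by rw [he, hf]; rfl⟩ }

/-- The isomorphism classes of point modules. -/
def PointClasses (𝒜 : ℕ → Submodule k A) : Type (u + 1) := Quotient (PointModule.setoid 𝒜)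

end Point

end Pool.Agent.W506.PM
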