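import Pool.Agent.W506.PM.Stm

/-!
# Exactness at the first syzygies from the presentation
-/

universe u

namespace Pool.Agent.W506.PM

variable {k : Type u} [Field k] {A : Type u} [Ring A] [Algebra k A] {n m : ℕ}

/-- The row of left factors of the `i`-th relation. -/
def rowL (x : Fin n → A) (r : Fin m → Fin n → Fin n → k) (i : Fin m) (l : Fin n) : A :=
  ∑ j, r i j l • x j

/-- The module of syzygies. -/
abbrev Syz (x : Fin n → A) (r : Fin m → Fin n → Fin n → k) : Type u :=
  (Fin n → A) ⧸ (Submodule.span A (Set.range (rowL x r)))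

/-- The operators on `k × N`. -/
noncomputable def syzOp (x : Fin n → A) (r : Fin m → Fin n → Fin n → k) (j : Fin n) :
    Module.End k (k × Syz x r) where
  toFun p := (0, p.1 • Submodule.Quotient.mk (Pi.single j (1 : A)) + x j • p.2)
  map_add' p q := by
    simp only [Prod.fst_add, Prod.snd_add, add_smul, smul_add, Prod.mk_add_mk, add_zero]
    congr 1; abel
  map_smul' c p := by
    simp only [Prod.smul_fst, Prod.smul_snd, RingHom.id_apply, Prod.smul_mk, smul_zero, smul_add,
      smul_eq_mul, mul_smul]
    rw [smul_comm (x j) c p.2, mul_zero]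

theorem ex1_of_pres {x : Fin n → A} {r : Fin m → Fin n → Fin n → k} (h : IsPres x r)
    (f : Fin n → A) (hf : ∑ j, f j * x j = 0) :
    ∃ g : Fin m → A, ∀ l, f l = ∑ i, g i * rowL x r i l := by
  obtain ⟨F, hF⟩ := h.up (Module.End k (k × Syz x r)) (syzOp x r) (by
    intro i
    apply LinearMap.ext
    rintro ⟨c, p⟩
    have e1 : ∀ j l, (r i j l • (syzOp x r j * syzOp x r l)) (c, p)
        = (0, c • (r i j l • x j) • Submodule.Quotient.mk (Pi.single l (1 : A))
            + (r i j l • (x j * x l)) • p) := by
      intro j l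
      simp only [LinearMap.smul_apply, Module.End.mul_apply, syzOp, LinearMap.coe_mk,
        AddHom.coe_mk, zero_smul, zero_add, Prod.smul_mk, smul_zero, smul_add, mul_smul]
      congr 1
      congr 1
      · rw [smul_comm (x j) c, smul_comm (r i j l) c, smul_assoc]
      · rw [smul_assoc, mul_smul]
    have e2 : (∑ j, ∑ l, r i j l • (syzOp x r j * syzOp x r l)) (c, p)
        = ∑ j, ∑ l, (r i j l • (syzOp x r j * syzOp x r l)) (c, p) := by
      simp only [LinearMap.sum_apply]
    rw [e2]
    simp only [e1]
    have e3 : ∀ (q : Fin n → Fin n → Syz x r), ∑ j, ∑ l, ((0 : k), q j l)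
        = (0, ∑ j, ∑ l, q j l) := by
      intro q
      ext
      · simp [Prod.fst_sum]
      · simp [Prod.snd_sum]
    rw [e3]
    simp only [Finset.sum_add_distrib]
    have e4 : ∑ j, ∑ l, (r i j l • (x j * x l)) • p = 0 := by
      simp only [← Finset.sum_smul]
      rw [h.rel i, zero_smul]
    have e5 : ∑ j, ∑ l, c • (r i j l • x j) • (Submodule.Quotient.mk (Pi.single l (1 : A)) :
        Syz x r) = c • Submodule.Quotient.mk (rowL x r i) := by
      rw [Finset.sum_comm]
      simp only [← Finset.smul_sum, ← Finset.sum_smul]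
      congr 1
      rw [← Submodule.mkQ_apply]
      simp only [← Submodule.mkQ_apply, ← map_smul, ← map_sum]
      congr 1
      ext l
      simp [rowL, Finset.sum_apply, Pi.single_apply]
    have e6 : (Submodule.Quotient.mk (rowL x r i) : Syz x r) = 0 := by
      rw [Submodule.Quotient.mk_eq_zero]
      exact Submodule.subset_span ⟨i, rfl⟩
    rw [e4, e5, e6, smul_zero, add_zero]
    rfl)
  have key : ∀ u : A, ∀ p : Syz x r, F u (0, p) = (0, u • p) := by
    intro u
    have hu : u ∈ Algebra.adjoin k (Set.range x) := by rw [h.gen]; trivial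
    induction hu using Algebra.adjoin_induction with
    | mem y hy =>
      obtain ⟨j, rfl⟩ := hy
      intro p
      rw [hF]
      simp [syzOp]
    | algebraMap c =>
      intro p
      rw [AlgHom.commutes, Module.algebraMap_end_apply]
      simp
    | add y z _ _ hy hz =>
      intro p
      rw [map_add, LinearMap.add_apply, hy, hz, add_smul]
      simp
    | mul y z _ _ hy hz =>
      intro p
      rw [map_mul, Module.End.mul_apply, hz, hy, mul_smul]
  have key2 : F (∑ j, f j * x j) (1, 0) = (0, Submodule.Quotient.mk f) := by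
    simp only [map_sum, map_mul, LinearMap.sum_apply, Module.End.mul_apply, hF]
    have e1 : ∀ j, (syzOp x r j) (1, 0) = (0, Submodule.Quotient.mk (Pi.single j (1 : A))) := by
      intro j; simp [syzOp]
    simp only [e1, key]
    have e3 : ∀ (q : Fin n → Syz x r), ∑ j, ((0 : k), q j) = (0, ∑ j, q j) := by
      intro q
      ext
      · simp [Prod.fst_sum]
      · simp [Prod.snd_sum]
    rw [e3]
    congr 1
    simp only [← Submodule.mkQ_apply, ← map_smul, ← map_sum]
    congr 1
    ext l
    simp [Finset.sum_apply, Pi.single_apply]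
  rw [hf, map_zero, LinearMap.zero_apply] at key2
  have h0 : (Submodule.Quotient.mk f : Syz x r) = 0 := by
    have := congrArg Prod.snd key2
    exact this.symm
  rw [Submodule.Quotient.mk_eq_zero, Submodule.mem_span_range_iff_exists_fun] at h0
  obtain ⟨g, hg⟩ := h0
  refine ⟨g, fun l => ?_⟩
  rw [← hg]
  simp [Finset.sum_apply]

end Pool.Agent.W506.PM
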