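import Pool.Agent.W506.PM.Stm

/-!
# Exactness at the end of the complex from a regular sequence
-/

universe u

namespace Pool.Agent.W506.PM

variable {k : Type u} [Field k] {B : Type u} [Ring B] [Algebra k B]

theorem ex34 (x : Fin 4 → B) (m' : Fin 6 → Fin 4 → B)
    (H1r : ∀ b : Fin 4 → B, ∑ j, x j * b j = 0 → ∃ c : Fin 6 → B, ∀ j, b j = ∑ i, m' i j * c i)
    (ε : Fin 4 → k) (hε : ∀ j, x j * (x 0 * x 0) = ε j • (x 0 * x 0 * x j))
    (hXZ : x 0 * x 0 * (x 2 * x 2) = x 2 * x 2 * (x 0 * x 0))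
    (R1 : ∀ h : B, h * (x 0 * x 0) = 0 → h = 0)
    (R2 : ∀ h h' : B, h * (x 2 * x 2) = h' * (x 0 * x 0) → ∃ h'', h = h'' * (x 0 * x 0)) :
    (∀ f : Fin 4 → B, (∀ i, ∑ j, f j * m' i j = 0) → ∃ h : B, ∀ j, f j = h * x j) ∧
    (∀ h : B, (∀ j, h * x j = 0) → h = 0) := by
  constructor
  · intro f hf
    have star : ∀ b : Fin 4 → B, ∑ j, x j * b j = 0 → ∑ j, f j * b j = 0 := by
      intro b hb
      obtain ⟨c, hc⟩ := H1r b hb
      have : ∑ j, f j * b j = ∑ i, (∑ j, f j * m' i j) * c i := by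
        simp only [hc, Finset.mul_sum, Finset.sum_mul]
        rw [Finset.sum_comm]
        simp only [mul_assoc]
      rw [this]
      simp [hf]
    have s1 : ∀ j, f j * (x 0 * x 0) = ε j • (f 0 * x 0 * x j) := by
      intro j
      have h := star (Pi.single j (x 0 * x 0) - Pi.single 0 (ε j • (x 0 * x j))) (by
        simp only [Pi.sub_apply, mul_sub, Finset.sum_sub_distrib]
        rw [Finset.sum_eq_single j, Finset.sum_eq_single 0]
        · rw [Pi.single_eq_same, Pi.single_eq_same, hε, mul_smul_comm, ← mul_assoc, sub_self]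
        · intro l _ hl; rw [Pi.single_eq_of_ne hl, mul_zero]
        · simp
        · intro l _ hl; rw [Pi.single_eq_of_ne hl, mul_zero]
        · simp)
      simp only [Pi.sub_apply, mul_sub, Finset.sum_sub_distrib] at h
      rw [Finset.sum_eq_single j, Finset.sum_eq_single 0] at h
      · rw [Pi.single_eq_same, Pi.single_eq_same, sub_eq_zero] at h
        rw [h, mul_smul_comm, ← mul_assoc]
      · intro l _ hl; rw [Pi.single_eq_of_ne hl, mul_zero]
      · simp
      · intro l _ hl; rw [Pi.single_eq_of_ne hl, mul_zero]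
      · simp
    have s2 : f 0 * x 0 * (x 2 * x 2) = f 2 * x 2 * (x 0 * x 0) := by
      have h := star (Pi.single 0 (x 0 * (x 2 * x 2)) - Pi.single 2 (x 2 * (x 0 * x 0))) (by
        simp only [Pi.sub_apply, mul_sub, Finset.sum_sub_distrib]
        rw [Finset.sum_eq_single 0, Finset.sum_eq_single 2]
        · rw [Pi.single_eq_same, Pi.single_eq_same, ← mul_assoc, ← mul_assoc (x 2), hXZ,
            sub_self]
        · intro l _ hl; rw [Pi.single_eq_of_ne hl, mul_zero]
        · simp
        · intro l _ hl; rw [Pi.single_eq_of_ne hl, mul_zero]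
        · simp)
      simp only [Pi.sub_apply, mul_sub, Finset.sum_sub_distrib] at h
      rw [Finset.sum_eq_single 0, Finset.sum_eq_single 2] at h
      · rw [Pi.single_eq_same, Pi.single_eq_same, sub_eq_zero] at h
        rw [mul_assoc, h, mul_assoc]
      · intro l _ hl; rw [Pi.single_eq_of_ne hl, mul_zero]
      · simp
      · intro l _ hl; rw [Pi.single_eq_of_ne hl, mul_zero]
      · simp
    obtain ⟨g, hg⟩ := R2 _ _ s2
    refine ⟨g, fun j => ?_⟩
    have h := s1 j
    rw [hg, mul_assoc g, ← mul_smul_comm, ← hε, ← mul_assoc g, ← sub_eq_zero, ← sub_mul] at h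
    exact sub_eq_zero.1 (R1 _ h)
  · intro h hh
    apply R1
    rw [← mul_assoc, hh 0, zero_mul]

end Pool.Agent.W506.PM
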