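import Pool.Agent.W506.PM.A1

/-!
# The composite of the two middle maps vanishes
-/

universe u

namespace Pool.Agent.W506.PM

variable {k : Type u} [Field k] {E : Type u} [Ring E] [Algebra k E]

/-- left factors -/
def mE (i0 r1 r2 : k) (a v b t : E) : Fin 6 → Fin 4 → E :=
  ![![v - a, a, -b, 0], ![-a, b, v - b, 0], ![-(r1 • a), v, -(r2 • b), 0],
    ![t, 0, 0, -(i0 • a)], ![0, 0, t, i0 • b], ![b, 0, -a, t]]

/-- right factors -/
def nE (i0 r1 r2 : k) (a v b t : E) : Fin 6 → Fin 4 → E :=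
  ![![v - a, a, -b, 0], ![-a, b, v - b, 0], ![-(r1 • a), v, -(r2 • b), 0],
    ![-(i0 • t), 0, 0, a], ![0, 0, i0 • t, b], ![-b, 0, a, t]]

/-- the scalar matrix `G` -/
def GG (i0 r1 r2 : k) : Fin 6 → Fin 6 → k :=
  ![![r2 ^ 3, 0, -r2 ^ 2, 0, 0, 0], ![0, r1 ^ 3, -r1 ^ 2, 0, 0, 0],
    ![-r2 ^ 2, -r1 ^ 2, 1 - r1 * r2, 0, 0, 0],
    ![0, 0, 0, 0, i0 * (r1 ^ 2 * r2 ^ 2), 0], ![0, 0, 0, i0 * (r1 ^ 2 * r2 ^ 2), 0, 0],
    ![0, 0, 0, 0, 0, r1 ^ 2 * r2 ^ 2]]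

/-- the multiple of the inverse of `G` -/
def HH (i0 r1 r2 : k) : Fin 6 → Fin 6 → k :=
  ![![-r1, -1, -r1, 0, 0, 0], ![-1, -r2, -r2, 0, 0, 0], ![-r1, -r2, -(r1 * r2), 0, 0, 0],
    ![0, 0, 0, 0, -i0, 0], ![0, 0, 0, -i0, 0, 0], ![0, 0, 0, 0, 0, 1]]

theorem HH_GG (i0 r1 r2 : k) (hi : i0 ^ 2 = -1) (hr : r1 + r2 = 1) (i j : Fin 6) :
    ∑ l, HH i0 r1 r2 i l * GG i0 r1 r2 l j = if i = j then r1 ^ 2 * r2 ^ 2 else 0 := by
  obtain rfl : r2 = 1 - r1 := by rw [← hr]; ring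
  fin_cases i <;> fin_cases j <;> simp [Fin.sum_univ_six, HH, GG] <;>
    first | ring1 | linear_combination (-(r1 ^ 2 * (1 - r1) ^ 2)) * hi

theorem comp_zero (i0 r1 r2 : k) (hi : i0 ^ 2 = -1) (hr : r1 + r2 = 1) {a v b t : E}
    (hva : v * a = a * a + b * b - a * v) (hvb : v * b = a * a + b * b - b * v)
    (hvv : v * v = r1 • (a * a) + r2 • (b * b)) (hta : t * a = i0 • (a * t))
    (htb : t * b = -(i0 • (b * t))) (htt : t * t = a * b - b * a) (j l : Fin 4) :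
    ∑ i, (∑ i', GG i0 r1 r2 i i' • nE i0 r1 r2 a v b t i' j) * mE i0 r1 r2 a v b t i l = 0 := by
  obtain rfl : r2 = 1 - r1 := by rw [← hr]; ring
  have hii : i0 * i0 = -1 := by rw [← sq]; exact hi
  fin_cases j <;> fin_cases l <;>
    simp [Fin.sum_univ_six, GG, nE, mE, mul_sub, sub_mul, mul_add, add_mul, hva, hvb, hvv, hta,
      htb, htt]
  all_goals (try (first | done | module))
  all_goals (try match_scalars)
  all_goals first
    | ring1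
    | linear_combination (r1 ^ 2 * (1 - r1) ^ 2) * hi
    | linear_combination (-(r1 ^ 2 * (1 - r1) ^ 2)) * hi
    | linear_combination (i0 * r1 ^ 2 * (1 - r1) ^ 2) * hi
    | linear_combination (-(i0 * r1 ^ 2 * (1 - r1) ^ 2)) * hi
    | linear_combination ((i0 ^ 2 - 1) * r1 ^ 2 * (1 - r1) ^ 2) * hi
    | linear_combination (-((i0 ^ 2 - 1) * r1 ^ 2 * (1 - r1) ^ 2)) * hi

end Pool.Agent.W506.PM
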