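import Pool.Agent.W506.PM.Stm

/-!
# The opposite graded algebra, and generation in degree one
-/

universe u

namespace Pool.Agent.W506.PM

variable {k : Type u} [Field k] {A : Type u} [Ring A] [Algebra k A] {𝒜 : ℕ → Submodule k A}

theorem mem_opGr {n : ℕ} {a : Aᵐᵒᵖ} : a ∈ opGr 𝒜 n ↔ a.unop ∈ 𝒜 n := by
  rw [opGr, Submodule.mem_map]
  constructor
  · rintro ⟨b, hb, rfl⟩; exact hb
  · intro h; exact ⟨a.unop, h, rfl⟩

theorem finrank_opGr (n : ℕ) : Module.finrank k (opGr 𝒜 n) = Module.finrank k (𝒜 n) :=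
  LinearEquiv.finrank_map_eq (MulOpposite.opLinearEquiv k) (𝒜 n)

theorem IsConnectedGraded.op (h : IsConnectedGraded 𝒜) : IsConnectedGraded (opGr 𝒜) where
  graded := by
    letI := h.graded
    exact
    { one_mem := by rw [mem_opGr]; exact SetLike.GradedOne.one_mem
      mul_mem := by
        intro i j a b ha hb
        rw [mem_opGr] at *
        rw [MulOpposite.unop_mul, add_comm]
        exact SetLike.GradedMul.mul_mem hb ha }
  internal := by
    have h1 := h.internal
    rw [DirectSum.isInternal_submodule_iff_iSupIndep_and_iSup_eq_top] at h1 ⊢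
    constructor
    · have := (iSupIndep_map_orderIso_iff
        (Submodule.orderIsoMapComap (MulOpposite.opLinearEquiv k : A ≃ₗ[k] Aᵐᵒᵖ)) (a := 𝒜)).2 h1.1
      exact this
    · have := congrArg (Submodule.map (MulOpposite.opLinearEquiv k : A ≃ₗ[k] Aᵐᵒᵖ).toLinearMap)
        h1.2
      rw [Submodule.map_iSup, Submodule.map_top, LinearEquiv.range] at this
      exact this
  connected := by rw [finrank_opGr, h.connected]
  finite n := by
    haveI := h.finite n
    exact Module.Finite.map (𝒜 n) _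

/-- Every element is a scalar plus a left combination of the generators. -/
theorem gen0 {n : ℕ} (x : Fin n → A) (hx : Algebra.adjoin k (Set.range x) = ⊤) (u : A) :
    ∃ (c : k) (f : Fin n → A), u = algebraMap k A c + ∑ j, f j * x j := by
  have hu : u ∈ Algebra.adjoin k (Set.range x) := by rw [hx]; trivial
  induction hu using Algebra.adjoin_induction with
  | mem y hy =>
    obtain ⟨j, rfl⟩ := hy
    refine ⟨0, Pi.single j 1, ?_⟩
    rw [Finset.sum_eq_single j]
    · simp
    · intro l _ hl; rw [Pi.single_eq_of_ne hl, zero_mul]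
    · simp
  | algebraMap c => exact ⟨c, 0, by simp⟩
  | add y z _ _ hy hz =>
    obtain ⟨c, f, e⟩ := hy
    obtain ⟨d, g, e'⟩ := hz
    refine ⟨c + d, f + g, ?_⟩
    rw [e, e', map_add]
    simp only [Pi.add_apply, add_mul, Finset.sum_add_distrib]
    abel
  | mul y z _ _ hy hz =>
    obtain ⟨c, f, e⟩ := hy
    obtain ⟨d, g, e'⟩ := hz
    refine ⟨c * d, fun j => y * g j + algebraMap k A d * f j, ?_⟩
    have e1 : y * z = y * algebraMap k A d + ∑ j, y * g j * x j := by
      rw [e', mul_add, Finset.mul_sum]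
      simp only [mul_assoc]
    have e2 : algebraMap k A d * y
        = algebraMap k A (c * d) + ∑ j, algebraMap k A d * f j * x j := by
      rw [e, mul_add, Finset.mul_sum, map_mul, Algebra.commutes c (algebraMap k A d)]
      simp only [mul_assoc]
    rw [e1, ← Algebra.commutes d y, e2]
    simp only [add_mul, Finset.sum_add_distrib]
    abel

theorem gen1 (h : IsConnectedGraded 𝒜) {n : ℕ} (x : Fin n → A)
    (hx : Algebra.adjoin k (Set.range x) = ⊤) (hx1 : ∀ j, x j ∈ 𝒜 1) (d : ℕ) (a : A)
    (ha : a ∈ 𝒜 (d + 1)) : ∃ f : Fin n → A, a = ∑ j, f j * x j := by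
  letI := h.graded
  letI : DirectSum.Decomposition 𝒜 := h.internal.chooseDecomposition
  letI : GradedRing 𝒜 := { }
  obtain ⟨c, f, e⟩ := gen0 x hx a
  have h0 : ((DirectSum.decompose 𝒜 a 0 : 𝒜 0) : A) = 0 :=
    DirectSum.decompose_of_mem_ne 𝒜 ha (by omega)
  rw [e, DirectSum.decompose_add, DirectSum.add_apply, Submodule.coe_add,
    DirectSum.decompose_of_mem_same 𝒜 (SetLike.algebraMap_mem_graded 𝒜 c),
    DirectSum.decompose_sum] at h0
  have h1 : ∀ j, ((DirectSum.decompose 𝒜 (f j * x j) 0 : 𝒜 0) : A) = 0 := fun j =>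
    DirectSum.coe_decompose_mul_of_right_mem_of_not_le 𝒜 (hx1 j) (by omega)
  have h2 : ((∑ j, DirectSum.decompose 𝒜 (f j * x j)) 0 : A) = 0 := by
    rw [DFinsupp.finset_sum_apply, Submodule.coe_sum]
    exact Finset.sum_eq_zero fun j _ => h1 j
  refine ⟨f, ?_⟩
  rw [h2, add_zero] at h0
  rw [h0, zero_add] at e
  exact e

end Pool.Agent.W506.PM
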