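import Pool.Agent.W506.PM.R
import Pool.Agent.W506.PM.H1
import Pool.Agent.W506.PM.K1
import Pool.Agent.W506.PM.K2
import Pool.Agent.W506.PM.OP
import Pool.Agent.W655.PM.Eul

/-!
# The Koszul complexes of the algebra are exact on both sides
-/

universe u

namespace Pool.Agent.W506.PM

variable {k : Type u} [Field k]

section

theorem rowL_mul {A : Type u} [Ring A] [Algebra k A] {n m : ℕ} {x : Fin n → A}
    {r : Fin m → Fin n → Fin n → k} (h : IsPres x r) (i : Fin m) :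
    ∑ l, rowL x r i l * x l = 0 := by
  have := h.rel i
  rw [Finset.sum_comm] at this
  rw [← this]
  apply Finset.sum_congr rfl
  intro l _
  rw [rowL, Finset.sum_mul]
  simp only [smul_mul_assoc]

variable (i0 κ : k) (h2 : (2 : k) ≠ 0) (hi : i0 ^ 2 = -1)

/-- the generators -/
noncomputable abbrev gg : Fin 4 → AA i0 κ := gx k (mu0 i0) (MM0 κ)

/-- the matrix `m` -/
noncomputable def mm (i : Fin 6) (l : Fin 4) : AA i0 κ :=
  mE i0 (1 / 2 - κ) (1 / 2 + κ) (ea i0 κ) (ev i0 κ) (eb i0 κ) (et i0 κ) i l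

/-- the matrix `n` -/
noncomputable def nn (i : Fin 6) (l : Fin 4) : AA i0 κ :=
  nE i0 (1 / 2 - κ) (1 / 2 + κ) (ea i0 κ) (ev i0 κ) (eb i0 κ) (et i0 κ) i l

/-- the matrix `m'` -/
noncomputable def mm' (i : Fin 6) (l : Fin 4) : AA i0 κ :=
  ∑ i', GG i0 (1 / 2 - κ) (1 / 2 + κ) i i' • nn i0 κ i' l

theorem rowL_eq (i : Fin 6) (l : Fin 4) : rowL (gg i0 κ) (rr i0 κ) i l = mm i0 κ i l := by
  fin_cases i <;> fin_cases l <;>
    simp [rowL, mm, mE, rr, Fin.sum_univ_four, sub_eq_add_neg, add_comm, add_smul]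

theorem rowR_eq (i : Fin 6) (l : Fin 4) :
    rowL (fun j => MulOpposite.op (gg i0 κ j)) (fun i j l => rr i0 κ i l j) i l
      = MulOpposite.op (nn i0 κ i l) := by
  fin_cases i <;> fin_cases l <;>
    simp [rowL, nn, nE, rr, Fin.sum_univ_four, sub_eq_add_neg, add_comm, add_smul]

include h2 in
theorem half_sum : (1 / 2 - κ) + (1 / 2 + κ) = 1 := by field_simp; ring

include h2 hi in
theorem mm_x (i : Fin 6) : ∑ j, mm i0 κ i j * gg i0 κ j = 0 := by
  have := rowL_mul (isPres_AA i0 κ h2 hi) i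
  simpa only [rowL_eq] using this

include h2 hi in
theorem x_nn (i : Fin 6) : ∑ j, gg i0 κ j * nn i0 κ i j = 0 := by
  have := rowL_mul (isPres_AA i0 κ h2 hi).op i
  simp only [rowR_eq, ← MulOpposite.op_mul, ← Finset.op_sum] at this
  exact MulOpposite.op_injective this

include h2 hi in
theorem x_mm' (i : Fin 6) : ∑ j, gg i0 κ j * mm' i0 κ i j = 0 := by
  simp only [mm', Finset.mul_sum, mul_smul_comm]
  rw [Finset.sum_comm]
  apply Finset.sum_eq_zero
  intro i' _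
  rw [← Finset.smul_sum, x_nn i0 κ h2 hi, smul_zero]

include h2 hi in
theorem mm'_mm (j l : Fin 4) : ∑ i, mm' i0 κ i j * mm i0 κ i l = 0 := by
  have h := rels_AA i0 κ h2
  exact comp_zero i0 (1 / 2 - κ) (1 / 2 + κ) hi (half_sum κ h2)
    (by rw [← h.va]; abel) (by rw [← h.vb]; abel) h.vv h.ta h.tb h.tt j l

include h2 hi in
theorem exL1 (f : Fin 4 → AA i0 κ) (hf : ∑ j, f j * gg i0 κ j = 0) :
    ∃ g : Fin 6 → AA i0 κ, ∀ j, f j = ∑ i, g i * mm i0 κ i j := by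
  obtain ⟨g, hg⟩ := ex1_of_pres (isPres_AA i0 κ h2 hi) f hf
  refine ⟨g, fun j => ?_⟩
  rw [hg j]
  simp only [rowL_eq]

include h2 hi in
theorem exR1 (hc : ((1 / 2 - κ) ^ 2 * (1 / 2 + κ) ^ 2 : k) ≠ 0)
    (b : Fin 4 → AA i0 κ) (hb : ∑ j, gg i0 κ j * b j = 0) :
    ∃ c : Fin 6 → AA i0 κ, ∀ j, b j = ∑ i, mm' i0 κ i j * c i := by
  obtain ⟨g, hg⟩ := ex1_of_pres (isPres_AA i0 κ h2 hi).op (fun j => MulOpposite.op (b j)) (by
    simp only [← MulOpposite.op_mul, ← Finset.op_sum]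
    rw [show (∑ i, gx k (mu0 i0) (MM0 κ) i * b i) = 0 from hb, MulOpposite.op_zero])
  have hn : ∀ j, b j = ∑ i, nn i0 κ i j * (g i).unop := by
    intro j
    have := congrArg MulOpposite.unop (hg j)
    simpa only [rowR_eq, MulOpposite.unop_op, Finset.unop_sum, MulOpposite.unop_mul] using this
  have hH : ∀ i j, nn i0 κ i j = ∑ l, (((1 / 2 - κ) ^ 2 * (1 / 2 + κ) ^ 2)⁻¹
      * HH i0 (1 / 2 - κ) (1 / 2 + κ) i l) • mm' i0 κ l j := by
    intro i j
    simp only [mm', Finset.smul_sum, smul_smul]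
    rw [Finset.sum_comm]
    simp only [← Finset.sum_smul, mul_assoc, ← Finset.mul_sum]
    simp only [HH_GG i0 (1 / 2 - κ) (1 / 2 + κ) hi (half_sum κ h2)]
    rw [Finset.sum_eq_single i]
    · rw [if_pos rfl, inv_mul_cancel₀ hc, one_smul]
    · intro l _ hl
      rw [if_neg (Ne.symm hl), mul_zero, zero_smul]
    · simp
  refine ⟨fun l => ∑ i, (((1 / 2 - κ) ^ 2 * (1 / 2 + κ) ^ 2)⁻¹
      * HH i0 (1 / 2 - κ) (1 / 2 + κ) i l) • (g i).unop, fun j => ?_⟩
  rw [hn j]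
  simp only [hH, Finset.sum_mul, Finset.mul_sum, smul_mul_assoc, mul_smul_comm]
  rw [Finset.sum_comm]

/-- the signs -/
def eps : Fin 4 → k := ![1, 1, 1, -1]

include h2 hi in
theorem x_X (j : Fin 4) : gg i0 κ j * (gg i0 κ 0 * gg i0 κ 0)
    = eps (k := k) j • (gg i0 κ 0 * gg i0 κ 0 * gg i0 κ j) := by
  have h := rels_AA i0 κ h2
  fin_cases j
  · show ea i0 κ * (ea i0 κ * ea i0 κ) = (1 : k) • (ea i0 κ * ea i0 κ * ea i0 κ)
    rw [one_smul, mul_assoc]
  · show ev i0 κ * (ea i0 κ * ea i0 κ) = (1 : k) • (ea i0 κ * ea i0 κ * ev i0 κ)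
    rw [one_smul, h.vX hi]
  · show eb i0 κ * (ea i0 κ * ea i0 κ) = (1 : k) • (ea i0 κ * ea i0 κ * eb i0 κ)
    rw [one_smul, h.baa hi]
  · show et i0 κ * (ea i0 κ * ea i0 κ) = (-1 : k) • (ea i0 κ * ea i0 κ * et i0 κ)
    rw [neg_smul, one_smul, h.tX hi]

include h2 hi in
theorem XZ_comm : gg i0 κ 0 * gg i0 κ 0 * (gg i0 κ 2 * gg i0 κ 2)
    = gg i0 κ 2 * gg i0 κ 2 * (gg i0 κ 0 * gg i0 κ 0) := by
  have h := rels_AA i0 κ h2
  show ea i0 κ * ea i0 κ * (eb i0 κ * eb i0 κ) = eb i0 κ * eb i0 κ * (ea i0 κ * ea i0 κ)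
  rw [mul_assoc, h.abb hi, ← mul_assoc, h.abb hi, mul_assoc, mul_assoc]

include h2 hi in
theorem exL34 (hc : ((1 / 2 - κ) ^ 2 * (1 / 2 + κ) ^ 2 : k) ≠ 0) :
    (∀ f : Fin 4 → AA i0 κ, (∀ i, ∑ j, f j * mm' i0 κ i j = 0) →
      ∃ h : AA i0 κ, ∀ j, f j = h * gg i0 κ j) ∧
    (∀ h : AA i0 κ, (∀ j, h * gg i0 κ j = 0) → h = 0) :=
  ex34 (gg i0 κ) (mm' i0 κ) (exR1 i0 κ h2 hi hc) eps (x_X i0 κ h2 hi) (XZ_comm i0 κ h2 hi)
    (reg_right i0 κ h2 hi).1 (reg_right i0 κ h2 hi).2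

include h2 hi in
theorem exR34 : (∀ f : Fin 4 → (AA i0 κ)ᵐᵒᵖ,
      (∀ i, ∑ j, f j * MulOpposite.op (mm i0 κ i j) = 0) →
      ∃ h : (AA i0 κ)ᵐᵒᵖ, ∀ j, f j = h * MulOpposite.op (gg i0 κ j)) ∧
    (∀ h : (AA i0 κ)ᵐᵒᵖ, (∀ j, h * MulOpposite.op (gg i0 κ j) = 0) → h = 0) := by
  refine ex34 (k := k) (fun j => MulOpposite.op (gg i0 κ j))
    (fun i j => MulOpposite.op (mm i0 κ i j)) ?_ eps ?_ ?_ ?_ ?_
  · intro b hb
    obtain ⟨g, hg⟩ := exL1 i0 κ h2 hi (fun j => (b j).unop) (by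
      have := congrArg MulOpposite.unop hb
      simpa only [Finset.unop_sum, MulOpposite.unop_mul, MulOpposite.unop_op,
        MulOpposite.unop_zero] using this)
    refine ⟨fun i => MulOpposite.op (g i), fun j => ?_⟩
    have := congrArg MulOpposite.op (hg j)
    simpa only [Finset.op_sum, MulOpposite.op_mul, MulOpposite.op_unop] using this
  · intro j
    have h1 := x_X i0 κ h2 hi j
    have h3 : gg i0 κ 0 * gg i0 κ 0 * gg i0 κ j
        = eps (k := k) j • (gg i0 κ j * (gg i0 κ 0 * gg i0 κ 0)) := by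
      rw [h1, smul_smul]
      have : eps (k := k) j * eps (k := k) j = 1 := by fin_cases j <;> simp [eps]
      rw [this, one_smul]
    have := congrArg MulOpposite.op h3
    simpa only [MulOpposite.op_mul, MulOpposite.op_smul, mul_assoc] using this
  · have := congrArg MulOpposite.op (XZ_comm i0 κ h2 hi).symm
    simpa only [MulOpposite.op_mul] using this
  · intro h hh
    have := congrArg MulOpposite.unop hh
    simp only [MulOpposite.unop_mul, MulOpposite.unop_op, MulOpposite.unop_zero] at this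
    exact MulOpposite.unop_injective ((reg_left i0 κ h2 hi).1 _ this)
  · intro h h' hh
    have := congrArg MulOpposite.unop hh
    simp only [MulOpposite.unop_mul, MulOpposite.unop_op] at this
    obtain ⟨z, hz⟩ := (reg_left i0 κ h2 hi).2 _ _ this
    refine ⟨MulOpposite.op z, ?_⟩
    apply MulOpposite.unop_injective
    simpa only [MulOpposite.unop_mul, MulOpposite.unop_op] using hz

theorem mm_mem (i : Fin 6) (l : Fin 4) : mm i0 κ i l ∈ gA i0 κ 1 := by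
  rw [← rowL_eq, rowL]
  exact Submodule.sum_mem _ fun j _ => Submodule.smul_mem _ _ (gx_mem _ _ j)

theorem nn_mem (i : Fin 6) (l : Fin 4) : nn i0 κ i l ∈ gA i0 κ 1 := by
  have h := rowR_eq i0 κ i l
  have h1 : nn i0 κ i l = ∑ j, rr i0 κ i l j • gg i0 κ j := by
    have := congrArg MulOpposite.unop h
    simpa only [rowL, Finset.unop_sum, MulOpposite.unop_smul, MulOpposite.unop_op] using this.symm
  rw [h1]
  exact Submodule.sum_mem _ fun j _ => Submodule.smul_mem _ _ (gx_mem _ _ j)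

theorem mm'_mem (i : Fin 6) (l : Fin 4) : mm' i0 κ i l ∈ gA i0 κ 1 :=
  Submodule.sum_mem _ fun j _ => Submodule.smul_mem _ _ (nn_mem i0 κ j l)

include h2 hi in
theorem leftKos (hc : ((1 / 2 - κ) ^ 2 * (1 / 2 + κ) ^ 2 : k) ≠ 0) :
    LeftKos (gg i0 κ) (mm i0 κ) (mm' i0 κ) :=
  Pool.Agent.W655.PM.eul k (AA i0 κ) (gA i0 κ) (gg i0 κ) (mm i0 κ) (mm' i0 κ)
    (conn_gA i0 κ h2 hi) (finrank_gA i0 κ h2 hi) (gx_mem _ _) (mm_mem i0 κ) (mm'_mem i0 κ)
    (fun n a ha => gen1 (conn_gA i0 κ h2 hi) _ (adjoin_AA i0 κ h2) (gx_mem _ _) n a ha)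
    (mm_x i0 κ h2 hi) (mm'_mm i0 κ h2 hi) (x_mm' i0 κ h2 hi) (exL1 i0 κ h2 hi)
    (exL34 i0 κ h2 hi hc).1 (exL34 i0 κ h2 hi hc).2

include h2 hi in
theorem rightKos (hc : ((1 / 2 - κ) ^ 2 * (1 / 2 + κ) ^ 2 : k) ≠ 0) :
    LeftKos (fun j => MulOpposite.op (gg i0 κ j)) (fun i j => MulOpposite.op (mm' i0 κ i j))
      (fun i j => MulOpposite.op (mm i0 κ i j)) := by
  apply Pool.Agent.W655.PM.eul k (AA i0 κ)ᵐᵒᵖ (opGr (gA i0 κ)) _ _ _
    (conn_gA i0 κ h2 hi).op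
  · intro n
    rw [finrank_opGr, finrank_gA i0 κ h2 hi]
  · intro j; rw [mem_opGr]; exact gx_mem _ _ j
  · intro i j; rw [mem_opGr]; exact mm'_mem i0 κ i j
  · intro i j; rw [mem_opGr]; exact mm_mem i0 κ i j
  · intro n a ha
    exact gen1 (conn_gA i0 κ h2 hi).op _ (isPres_AA i0 κ h2 hi).op.gen
      (fun j => by rw [mem_opGr]; exact gx_mem _ _ j) n a ha
  · intro i
    have := congrArg MulOpposite.op (x_mm' i0 κ h2 hi i)
    simpa only [Finset.op_sum, MulOpposite.op_mul, MulOpposite.op_zero] using this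
  · intro j l
    have := congrArg MulOpposite.op (mm'_mm i0 κ h2 hi l j)
    simpa only [Finset.op_sum, MulOpposite.op_mul, MulOpposite.op_zero] using this
  · intro i
    have := congrArg MulOpposite.op (mm_x i0 κ h2 hi i)
    simpa only [Finset.op_sum, MulOpposite.op_mul, MulOpposite.op_zero] using this
  · intro f hf
    obtain ⟨g, hg⟩ := exR1 i0 κ h2 hi hc (fun j => (f j).unop) (by
      have := congrArg MulOpposite.unop hf
      simpa only [Finset.unop_sum, MulOpposite.unop_mul, MulOpposite.unop_op,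
        MulOpposite.unop_zero] using this)
    refine ⟨fun i => MulOpposite.op (g i), fun j => ?_⟩
    have := congrArg MulOpposite.op (hg j)
    simpa only [Finset.op_sum, MulOpposite.op_mul, MulOpposite.op_unop] using this
  · exact (exR34 i0 κ h2 hi).1
  · exact (exR34 i0 κ h2 hi).2

end

end Pool.Agent.W506.PM
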