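import Pool.Agent.W506.PM.A2

/-!
# The model: operators on `S^4`
-/

universe u

namespace Pool.Agent.W506.PM

section Ops

variable {k : Type u} [Field k] {S : Type u} [CommRing S] [Algebra k S]

/-- The data on the commutative ring `S`. -/
structure SData (k : Type u) [Field k] (S : Type u) [CommRing S] [Algebra k S] where
  X : S
  Z : S
  W : S
  th : S →ₐ[k] S
  thX : th X = -X
  thZ : th Z = -Z
  thW : th W = W
  thth : ∀ s, th (th s) = s
  i0 : k
  r1 : k
  r2 : k
  hi : i0 ^ 2 = -1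

namespace SData

variable (D : SData k S)

/-- the element `i` of `S` -/
def I : S := algebraMap k S D.i0

theorem II : D.I * D.I = -1 := by
  rw [I, ← map_mul, ← sq, D.hi, map_neg, map_one]

theorem thI : D.th D.I = D.I := by rw [I, AlgHom.commutes]

/-- left multiplication by `a` -/
def La : Module.End k (Fin 4 → S) where
  toFun d := ![D.X * d 1, d 0, D.X * d 3, d 2]
  map_add' d e := by ext i; fin_cases i <;> simp [mul_add]
  map_smul' c d := by ext i; fin_cases i <;> simp [Algebra.smul_def] <;> ring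

/-- left multiplication by `b` -/
def Lb : Module.End k (Fin 4 → S) where
  toFun d := ![D.W * d 1 + D.Z * d 2, -(D.Z * d 3), d 0 + D.W * d 3, -(d 1)]
  map_add' d e := by ext i; fin_cases i <;> simp [mul_add] <;> ring
  map_smul' c d := by ext i; fin_cases i <;> simp [Algebra.smul_def] <;> ring

/-- the automorphism `a ↦ -a`, `b ↦ -b` -/
def sg (_D : SData k S) : Module.End k (Fin 4 → S) where
  toFun d := ![d 0, -(d 1), -(d 2), d 3]
  map_add' d e := by ext i; fin_cases i <;> simp <;> ring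
  map_smul' c d := by ext i; fin_cases i <;> simp [Algebra.smul_def] <;> ring

/-- the skew derivation with `a ↦ X + Z`, `b ↦ X + Z` -/
def dl : Module.End k (Fin 4 → S) where
  toFun d := ![(D.X + D.Z) * (d 1 + d 2), -((D.X + D.Z) * d 3), (D.X + D.Z) * d 3, 0]
  map_add' d e := by ext i; fin_cases i <;> simp <;> ring
  map_smul' c d := by ext i; fin_cases i <;> simp [Algebra.smul_def] <;> ring

/-- the automorphism `a ↦ i a`, `b ↦ -i b` -/
def ph : Module.End k (Fin 4 → S) where
  toFun d := ![D.th (d 0), D.I * D.th (d 1), -(D.I * D.th (d 2)), D.th (d 3)]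
  map_add' d e := by ext i; fin_cases i <;> simp <;> ring
  map_smul' c d := by ext i; fin_cases i <;> simp [Algebra.smul_def] <;> ring

/-- right multiplication by `c = ab - ba` -/
def Rc : Module.End k (Fin 4 → S) where
  toFun d := ![-(D.W * d 0) - 2 * (D.X * D.Z) * d 3, -(D.W * d 1) - 2 * D.Z * d 2,
    2 * D.X * d 1 + D.W * d 2, 2 * d 0 + D.W * d 3]
  map_add' d e := by ext i; fin_cases i <;> simp <;> ring
  map_smul' c d := by ext i; fin_cases i <;> simp [Algebra.smul_def] <;> ring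

section

theorem sg_sg (d : Fin 4 → S) : D.sg (D.sg d) = d := by
  ext i; fin_cases i <;> simp [sg]

theorem dl_dl (d : Fin 4 → S) : D.dl (D.dl d) = 0 := by
  ext i; fin_cases i <;> simp [dl] <;> ring

theorem dl_sg (d : Fin 4 → S) : D.dl (D.sg d) = -D.sg (D.dl d) := by
  ext i; fin_cases i <;> simp [dl, sg] <;> ring

theorem dl_La (d : Fin 4 → S) : D.dl (D.La d) = (D.X + D.Z) • d - D.La (D.dl d) := by
  ext i; fin_cases i <;> simp [dl, La] <;> ring

theorem dl_Lb (d : Fin 4 → S) : D.dl (D.Lb d) = (D.X + D.Z) • d - D.Lb (D.dl d) := by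
  ext i; fin_cases i <;> simp [dl, Lb] <;> ring

theorem sg_La (d : Fin 4 → S) : D.sg (D.La d) = -D.La (D.sg d) := by
  ext i; fin_cases i <;> simp [sg, La]

theorem sg_Lb (d : Fin 4 → S) : D.sg (D.Lb d) = -D.Lb (D.sg d) := by
  ext i; fin_cases i <;> simp [sg, Lb] <;> ring

theorem La_La (d : Fin 4 → S) : D.La (D.La d) = D.X • d := by
  ext i; fin_cases i <;> simp [La]

theorem Lb_Lb (d : Fin 4 → S) : D.Lb (D.Lb d) = D.Z • d := by
  ext i; fin_cases i <;> simp [Lb] <;> ring

theorem La_Lb (d : Fin 4 → S) : D.La (D.Lb d) = D.W • d - D.Lb (D.La d) := by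
  ext i; fin_cases i <;> simp [La, Lb] <;> ring

theorem ph_ph (d : Fin 4 → S) : D.ph (D.ph d) = D.sg d := by
  have h := D.II
  have h' := D.thI
  ext i; fin_cases i
  · simp [ph, sg, D.thth]
  · simp [ph, sg, D.thth, h']; linear_combination (d 1) * h
  · simp [ph, sg, D.thth, h']; linear_combination (d 2) * h
  · simp [ph, sg, D.thth]

theorem ph_La (d : Fin 4 → S) : D.ph (D.La d) = D.I • D.La (D.ph d) := by
  have h := D.II
  ext i; fin_cases i
  · simp [ph, La, D.thX]; linear_combination (-D.X * D.th (d 1)) * h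
  · simp [ph, La]
  · simp [ph, La, D.thX]
  · simp [ph, La]; linear_combination (D.th (d 2)) * h

theorem ph_Lb (d : Fin 4 → S) : D.ph (D.Lb d) = -(D.I • D.Lb (D.ph d)) := by
  have h := D.II
  ext i; fin_cases i
  · simp [ph, Lb, D.thZ, D.thW]
    linear_combination (D.W * D.th (d 1) - D.Z * D.th (d 2)) * h
  · simp [ph, Lb, D.thZ]
  · simp [ph, Lb, D.thW]
  · simp [ph, Lb]; linear_combination (-D.th (d 1)) * h

theorem Rc_La (d : Fin 4 → S) : D.Rc (D.La d) = D.La (D.Rc d) := by
  ext i; fin_cases i <;> simp [Rc, La] <;> ring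

theorem Rc_Lb (d : Fin 4 → S) : D.Rc (D.Lb d) = D.Lb (D.Rc d) := by
  ext i; fin_cases i <;> simp [Rc, Lb] <;> ring

theorem Rc_sg (d : Fin 4 → S) : D.Rc (D.sg d) = D.La (D.Lb d) - D.Lb (D.La d) := by
  ext i; fin_cases i <;> simp [Rc, La, Lb, sg] <;> ring

theorem ph_Rc_ph (d : Fin 4 → S) : D.ph (D.Rc (D.ph d)) = D.Rc (D.sg d) := by
  have h := D.II
  have h' := D.thI
  have h3 : D.th 2 = 2 := map_ofNat D.th 2
  ext i; fin_cases i
  · simp [ph, sg, Rc, D.thth, D.thX, D.thZ, D.thW, h3]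
  · simp [ph, sg, Rc, D.thth, D.thX, D.thZ, D.thW, h', h3]
    linear_combination (-(D.W * d 1) - 2 * D.Z * d 2) * h
  · simp [ph, sg, Rc, D.thth, D.thX, D.thZ, D.thW, h', h3]
    linear_combination (2 * D.X * d 1 + D.W * d 2) * h
  · simp [ph, sg, Rc, D.thth, D.thX, D.thZ, D.thW, h3]

end

end SData

end Ops

end Pool.Agent.W506.PM
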