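import Pool.Agent.W506.PM.M1

/-!
# The model module `ℤ → S^4`
-/

universe u

namespace Pool.Agent.W506.PM

variable {k : Type u} [Field k] {S : Type u} [CommRing S] [Algebra k S]

namespace SData

variable (D : SData k S)

theorem La_smul (s : S) (d : Fin 4 → S) : D.La (s • d) = s • D.La d := by
  ext i; fin_cases i <;> simp [La] <;> ring

theorem Lb_smul (s : S) (d : Fin 4 → S) : D.Lb (s • d) = s • D.Lb d := by
  ext i; fin_cases i <;> simp [Lb] <;> ring

theorem sg_smul (s : S) (d : Fin 4 → S) : D.sg (s • d) = s • D.sg d := by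
  ext i; fin_cases i <;> simp [sg]

theorem dl_smul (s : S) (d : Fin 4 → S) : D.dl (s • d) = s • D.dl d := by
  ext i; fin_cases i <;> simp [dl] <;> ring

theorem Rc_smul (s : S) (d : Fin 4 → S) : D.Rc (s • d) = s • D.Rc d := by
  ext i; fin_cases i <;> simp [Rc] <;> ring

theorem i0_smul (d : Fin 4 → S) : D.i0 • d = D.I • d := by
  rw [I, algebraMap_smul]

/-- the element `rho` -/
def rho : S := D.r1 • D.X + D.r2 • D.Z

end SData

/-- partner under `v` -/
def pv (n : ℤ) : ℤ := if n % 2 = 0 then n + 1 else n - 1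
/-- partner under `t` -/
def pt (n : ℤ) : ℤ := if n % 2 = 0 then n - 1 else n + 1

theorem pv_pv (n : ℤ) : pv (pv n) = n := by unfold pv; split_ifs <;> omega
theorem pt_pt (n : ℤ) : pt (pt n) = n := by unfold pt; split_ifs <;> omega

namespace SData

variable (D : SData k S)

/-- factor picked up when `v` arrives at position `n` -/
def fv (n : ℤ) : S := if (n % 2 = 0 ∧ 0 ≤ n) ∨ (n % 2 ≠ 0 ∧ n < 0) then D.rho else 1

theorem fv_fv (n : ℤ) : D.fv n * D.fv (pv n) = D.rho := by
  unfold fv pv
  split_ifs <;> first | (simp; done) | (exfalso; omega)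

/-- condition for the factor `c` when `t` arrives at position `n` -/
def ct (n : ℤ) : Prop := (n % 2 = 0 ∧ n ≤ 0) ∨ (n % 2 ≠ 0 ∧ 0 < n)

instance (n : ℤ) : Decidable (ct n) := by unfold ct; infer_instance

theorem ct_pt (n : ℤ) : ct (pt n) ↔ ¬ ct n := by
  unfold ct pt
  split_ifs <;> omega

/-- the operator `a` -/
def MA : Module.End k (ℤ → Fin 4 → S) where
  toFun m n := D.La (m n)
  map_add' _ _ := by funext n; simp
  map_smul' _ _ := by funext n; simp

/-- the operator `b` -/
def MB : Module.End k (ℤ → Fin 4 → S) where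
  toFun m n := D.Lb (m n)
  map_add' _ _ := by funext n; simp
  map_smul' _ _ := by funext n; simp

/-- the operator `v` -/
def MV : Module.End k (ℤ → Fin 4 → S) where
  toFun m n := D.dl (m n) + D.fv n • D.sg (m (pv n))
  map_add' _ _ := by funext n; simp only [Pi.add_apply, map_add, smul_add]; abel
  map_smul' c m := by
    funext n
    simp only [Pi.smul_apply, map_smul, RingHom.id_apply, smul_add]
    rw [smul_comm c (D.fv n)]

/-- the operator `t` -/
def MT : Module.End k (ℤ → Fin 4 → S) where
  toFun m n := if ct n then D.Rc (D.ph (m (pt n))) else D.ph (m (pt n))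
  map_add' _ _ := by
    funext n; simp only [Pi.add_apply, map_add]
    split_ifs <;> rfl
  map_smul' c m := by
    funext n
    simp only [Pi.smul_apply, map_smul, RingHom.id_apply]
    split_ifs <;> rfl

@[simp] theorem MA_apply (m : ℤ → Fin 4 → S) (n : ℤ) : D.MA m n = D.La (m n) := rfl
@[simp] theorem MB_apply (m : ℤ → Fin 4 → S) (n : ℤ) : D.MB m n = D.Lb (m n) := rfl
theorem MV_apply (m : ℤ → Fin 4 → S) (n : ℤ) :
    D.MV m n = D.dl (m n) + D.fv n • D.sg (m (pv n)) := rfl
theorem MT_apply (m : ℤ → Fin 4 → S) (n : ℤ) :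
    D.MT m n = if ct n then D.Rc (D.ph (m (pt n))) else D.ph (m (pt n)) := rfl

theorem rels_M (κ : k) (h1 : D.r1 = 1 / 2 - κ) (h2 : D.r2 = 1 / 2 + κ) :
    Rels D.i0 κ D.MA D.MV D.MB D.MT where
  va := by
    apply LinearMap.ext; intro m; funext n
    simp only [LinearMap.add_apply, Module.End.mul_apply, Pi.add_apply, MA_apply, MB_apply,
      MV_apply, map_add, La_smul, dl_La, sg_La, La_La, Lb_Lb, smul_neg, add_smul]
    abel
  vb := by
    apply LinearMap.ext; intro m; funext n
    simp only [LinearMap.add_apply, Module.End.mul_apply, Pi.add_apply, MA_apply, MB_apply,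
      MV_apply, map_add, Lb_smul, dl_Lb, sg_Lb, La_La, Lb_Lb, smul_neg, add_smul]
    abel
  vv := by
    apply LinearMap.ext; intro m; funext n
    simp only [LinearMap.add_apply, LinearMap.smul_apply, Module.End.mul_apply, Pi.add_apply,
      Pi.smul_apply, MA_apply, MB_apply, MV_apply, map_add, dl_smul, sg_smul, dl_dl, dl_sg,
      La_La, Lb_Lb, smul_neg, pv_pv, sg_sg, smul_add, ← h1, ← h2]
    rw [smul_smul (D.fv n), fv_fv, rho, add_smul, smul_assoc, smul_assoc]
    abel
  ta := by
    apply LinearMap.ext; intro m; funext n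
    simp only [LinearMap.smul_apply, Module.End.mul_apply,
      Pi.smul_apply, MA_apply, MT_apply, ph_La, i0_smul, Rc_smul, Rc_La]
    split_ifs <;> rfl
  tb := by
    apply LinearMap.ext; intro m; funext n
    simp only [LinearMap.neg_apply, LinearMap.smul_apply, Module.End.mul_apply, Pi.neg_apply,
      Pi.smul_apply, MB_apply, MT_apply, ph_Lb, i0_smul, Rc_smul, Rc_Lb, map_neg]
    split_ifs <;> rfl
  tt := by
    apply LinearMap.ext; intro m; funext n
    simp only [LinearMap.sub_apply, Module.End.mul_apply, Pi.sub_apply,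
      MA_apply, MB_apply, MT_apply, pt_pt, ct_pt]
    by_cases h : ct n
    · simp only [h, not_true_eq_false, if_true, if_false, ph_ph, Rc_sg]
    · simp only [h, not_false_eq_true, if_true, if_false, ph_Rc_ph, Rc_sg]

end SData

end Pool.Agent.W506.PM
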