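import Pool.Agent.W506.PM.M2

/-!
# The standard monomials act independently
-/

universe u

namespace Pool.Agent.W506.PM

variable {k : Type u} [Field k]

open MvPolynomial

/-- the polynomial ring `k[X, Z, W]` -/
abbrev SS (k : Type u) [Field k] := MvPolynomial (Fin 3) k

/-- the data -/
noncomputable def DD (i0 κ : k) (hi : i0 ^ 2 = -1) : SData k (SS k) where
  X := X 0
  Z := X 1
  W := X 2
  th := aeval ![-X 0, -X 1, X 2]
  thX := by simp
  thZ := by simp
  thW := by simp
  thth s := by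
    have : (aeval ![-X 0, -X 1, X 2] : SS k →ₐ[k] SS k).comp (aeval ![-X 0, -X 1, X 2])
        = AlgHom.id k (SS k) := by
      apply MvPolynomial.algHom_ext
      intro i
      fin_cases i <;> simp
    exact DFunLike.congr_fun this s
  i0 := i0
  r1 := 1 / 2 - κ
  r2 := 1 / 2 + κ
  hi := hi

section W

variable (i0 κ : k)

/-- words in `v, t` ending in `v` -/
noncomputable def wp : ℕ → AA i0 κ
  | 0 => 1
  | n + 1 => (if n % 2 = 0 then ev i0 κ else et i0 κ) * wp n

/-- words in `v, t` ending in `t` -/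
noncomputable def wn : ℕ → AA i0 κ
  | 0 => 1
  | n + 1 => (if n % 2 = 0 then et i0 κ else ev i0 κ) * wn n

/-- the alternating words -/
noncomputable def ww : ℤ → AA i0 κ
  | Int.ofNat n => wp i0 κ n
  | Int.negSucc n => wn i0 κ (n + 1)

/-- `ab + ba` -/
noncomputable def om : AA i0 κ := ea i0 κ * eb i0 κ + eb i0 κ * ea i0 κ

/-- the standard monomials -/
noncomputable def BB (i : Fin 4 → ℕ) : AA i0 κ :=
  ea i0 κ ^ i 0 * eb i0 κ ^ i 1 * om i0 κ ^ min (i 2) (i 3) * ww i0 κ ((i 2 : ℤ) - i 3)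

end W

section Act

variable (i0 κ : k) (h2 : (2 : k) ≠ 0) (hi : i0 ^ 2 = -1)

/-- the unit vector -/
noncomputable def uu : Fin 4 → SS k := ![1, 0, 0, 0]

include h2 in
theorem exists_act : ∃ F : AA i0 κ →ₐ[k] Module.End k (ℤ → Fin 4 → SS k),
    F (ea i0 κ) = (DD i0 κ hi).MA ∧ F (ev i0 κ) = (DD i0 κ hi).MV ∧
    F (eb i0 κ) = (DD i0 κ hi).MB ∧ F (et i0 κ) = (DD i0 κ hi).MT :=
  up_AA i0 κ h2 hi _ _ _ _ _ ((DD i0 κ hi).rels_M κ rfl rfl)

/-- the action -/
noncomputable def FF : AA i0 κ →ₐ[k] Module.End k (ℤ → Fin 4 → SS k) :=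
  (exists_act i0 κ h2 hi).choose

theorem FF_a : FF i0 κ h2 hi (ea i0 κ) = (DD i0 κ hi).MA := (exists_act i0 κ h2 hi).choose_spec.1
theorem FF_v : FF i0 κ h2 hi (ev i0 κ) = (DD i0 κ hi).MV :=
  (exists_act i0 κ h2 hi).choose_spec.2.1
theorem FF_b : FF i0 κ h2 hi (eb i0 κ) = (DD i0 κ hi).MB :=
  (exists_act i0 κ h2 hi).choose_spec.2.2.1
theorem FF_t : FF i0 κ h2 hi (et i0 κ) = (DD i0 κ hi).MT :=
  (exists_act i0 κ h2 hi).choose_spec.2.2.2

end Act

namespace SData

variable {S : Type u} [CommRing S] [Algebra k S] (D : SData k S)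

theorem MA_single (n : ℤ) (d : Fin 4 → S) : D.MA (Pi.single n d) = Pi.single n (D.La d) := by
  funext m
  rw [MA_apply]
  rcases eq_or_ne m n with rfl | h
  · simp
  · simp [h]

theorem MB_single (n : ℤ) (d : Fin 4 → S) : D.MB (Pi.single n d) = Pi.single n (D.Lb d) := by
  funext m
  rw [MB_apply]
  rcases eq_or_ne m n with rfl | h
  · simp
  · simp [h]

theorem MV_single (n : ℤ) (d : Fin 4 → S) (hd : D.dl d = 0) (hd' : D.sg d = d)
    (hn : D.fv (pv n) = 1) : D.MV (Pi.single n d) = Pi.single (pv n) d := by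
  funext m
  rw [MV_apply]
  have hpn : pv n ≠ n := by unfold pv; split_ifs <;> omega
  rcases eq_or_ne m (pv n) with rfl | h
  · rw [pv_pv, Pi.single_eq_same, Pi.single_eq_same, Pi.single_eq_of_ne hpn, map_zero, zero_add,
      hn, one_smul, hd']
  · rw [Pi.single_eq_of_ne h, Pi.single_eq_of_ne (i := n) (i' := pv m), map_zero, smul_zero,
      add_zero]
    · rcases eq_or_ne m n with rfl | h'
      · rw [Pi.single_eq_same, hd]
      · rw [Pi.single_eq_of_ne h', map_zero]
    · intro h'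
      apply h
      rw [← h', pv_pv]

theorem MT_single (n : ℤ) (d : Fin 4 → S) (hd : D.ph d = d) (hn : ¬ ct (pt n)) :
    D.MT (Pi.single n d) = Pi.single (pt n) d := by
  funext m
  rw [MT_apply]
  rcases eq_or_ne m (pt n) with rfl | h
  · rw [if_neg hn, pt_pt, Pi.single_eq_same, Pi.single_eq_same, hd]
  · rw [Pi.single_eq_of_ne h, Pi.single_eq_of_ne (i := n) (i' := pt m), map_zero, map_zero,
      ite_self]
    intro h'
    apply h
    rw [← h', pt_pt]

end SData

section Act2

variable (i0 κ : k) (h2 : (2 : k) ≠ 0) (hi : i0 ^ 2 = -1)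

theorem dl_uu : (DD i0 κ hi).dl uu = 0 := by
  ext i; fin_cases i <;> simp [SData.dl, uu]
theorem sg_uu : (DD i0 κ hi).sg uu = uu := by
  ext i; fin_cases i <;> simp [SData.sg, uu]
theorem ph_uu : (DD i0 κ hi).ph uu = uu := by
  ext i; fin_cases i <;> simp [SData.ph, uu]

theorem act_wp (n : ℕ) : FF i0 κ h2 hi (wp i0 κ n) (Pi.single 0 uu) = Pi.single (n : ℤ) uu := by
  induction n with
  | zero => simp [wp]
  | succ n ih =>
    rw [wp, map_mul, Module.End.mul_apply, ih]
    rcases Nat.even_or_odd n with hn | hn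
    · have h0 : n % 2 = 0 := Nat.even_iff.1 hn
      rw [if_pos h0, FF_v]
      have hp : pv (n : ℤ) = ((n + 1 : ℕ) : ℤ) := by unfold pv; split_ifs <;> push_cast <;> omega
      rw [SData.MV_single _ _ _ (dl_uu i0 κ hi) (sg_uu i0 κ hi), hp]
      rw [hp]; unfold SData.fv; rw [if_neg]; push_cast; omega
    · have h0 : ¬ n % 2 = 0 := by have := Nat.odd_iff.1 hn; omega
      rw [if_neg h0, FF_t]
      have hp : pt (n : ℤ) = ((n + 1 : ℕ) : ℤ) := by unfold pt; split_ifs <;> push_cast <;> omega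
      rw [SData.MT_single _ _ _ (ph_uu i0 κ hi), hp]
      rw [hp]; unfold SData.ct; push_cast; omega

theorem act_wn (n : ℕ) : FF i0 κ h2 hi (wn i0 κ n) (Pi.single 0 uu) = Pi.single (-n : ℤ) uu := by
  induction n with
  | zero => simp [wn]
  | succ n ih =>
    rw [wn, map_mul, Module.End.mul_apply, ih]
    rcases Nat.even_or_odd n with hn | hn
    · have h0 : n % 2 = 0 := Nat.even_iff.1 hn
      rw [if_pos h0, FF_t]
      have hp : pt (-n : ℤ) = -((n + 1 : ℕ) : ℤ) := by
        unfold pt; split_ifs <;> push_cast <;> omega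
      rw [SData.MT_single _ _ _ (ph_uu i0 κ hi), hp]
      rw [hp]; unfold SData.ct; push_cast; omega
    · have h0 : ¬ n % 2 = 0 := by have := Nat.odd_iff.1 hn; omega
      rw [if_neg h0, FF_v]
      have hp : pv (-n : ℤ) = -((n + 1 : ℕ) : ℤ) := by
        unfold pv; split_ifs <;> push_cast <;> omega
      rw [SData.MV_single _ _ _ (dl_uu i0 κ hi) (sg_uu i0 κ hi), hp]
      rw [hp]; unfold SData.fv; rw [if_neg]; push_cast; omega

theorem act_ww (n : ℤ) : FF i0 κ h2 hi (ww i0 κ n) (Pi.single 0 uu) = Pi.single n uu := by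
  rcases n with n | n
  · exact act_wp i0 κ h2 hi n
  · exact (act_wn i0 κ h2 hi (n + 1)).trans (by rw [Int.negSucc_eq]; push_cast; rfl)

theorem act_om (j : ℕ) (n : ℤ) (d : Fin 4 → SS k) :
    FF i0 κ h2 hi (om i0 κ ^ j) (Pi.single n d) = Pi.single n ((X 2 : SS k) ^ j • d) := by
  induction j generalizing d with
  | zero => simp
  | succ j ih =>
    rw [pow_succ, map_mul, Module.End.mul_apply, om, map_add, map_mul, map_mul, FF_a, FF_b,
      LinearMap.add_apply, Module.End.mul_apply, Module.End.mul_apply, SData.MB_single,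
      SData.MA_single, SData.MA_single, SData.MB_single, SData.La_Lb, ← Pi.single_add,
      sub_add_cancel, ← om, ih, smul_smul, pow_succ]
    rfl

/-- the position of `a^α b^β` among `1, a, b, ab` -/
def idx (α β : ℕ) : Fin 4 :=
  if α % 2 = 0 then (if β % 2 = 0 then 0 else 2) else (if β % 2 = 0 then 1 else 3)

theorem act_b (j : ℕ) (n : ℤ) (s : SS k) :
    FF i0 κ h2 hi (eb i0 κ ^ j) (Pi.single n (Pi.single 0 s))
      = Pi.single n (Pi.single (idx 0 j) ((X 1 : SS k) ^ (j / 2) * s)) := by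
  induction j with
  | zero => simp [idx]
  | succ j ih =>
    rw [pow_succ', map_mul, Module.End.mul_apply, ih, FF_b, SData.MB_single]
    congr 1
    rcases Nat.even_or_odd' j with ⟨c, rfl | rfl⟩
    · have e1 : 2 * c % 2 = 0 := by omega
      have e2 : (2 * c + 1) % 2 = 1 := by omega
      have e3 : 2 * c / 2 = c := by omega
      have e4 : (2 * c + 1) / 2 = c := by omega
      ext i; fin_cases i <;> simp [idx, e1, e2, e3, e4, SData.Lb, Pi.single_apply]
    · have e1 : (2 * c + 1) % 2 = 1 := by omega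
      have e2 : (2 * c + 1 + 1) % 2 = 0 := by omega
      have e3 : (2 * c + 1) / 2 = c := by omega
      have e4 : (2 * c + 1 + 1) / 2 = c + 1 := by omega
      ext i; fin_cases i <;>
        simp [idx, e1, e2, e3, e4, SData.Lb, Pi.single_apply, DD, pow_succ', mul_assoc]

theorem act_a (l j : ℕ) (n : ℤ) (s : SS k) :
    FF i0 κ h2 hi (ea i0 κ ^ l) (Pi.single n (Pi.single (idx 0 j) s))
      = Pi.single n (Pi.single (idx l j) ((X 0 : SS k) ^ (l / 2) * s)) := by
  induction l with
  | zero => simp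
  | succ l ih =>
    rw [pow_succ', map_mul, Module.End.mul_apply, ih, FF_a, SData.MA_single]
    congr 1
    have hj : j % 2 = 0 ∨ j % 2 = 1 := by omega
    rcases Nat.even_or_odd' l with ⟨c, rfl | rfl⟩
    · have e1 : 2 * c % 2 = 0 := by omega
      have e2 : (2 * c + 1) % 2 = 1 := by omega
      have e3 : 2 * c / 2 = c := by omega
      have e4 : (2 * c + 1) / 2 = c := by omega
      rcases hj with hj | hj <;>
      · ext i; fin_cases i <;> simp [idx, hj, e1, e2, e3, e4, SData.La, Pi.single_apply]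
    · have e1 : (2 * c + 1) % 2 = 1 := by omega
      have e2 : (2 * c + 1 + 1) % 2 = 0 := by omega
      have e3 : (2 * c + 1) / 2 = c := by omega
      have e4 : (2 * c + 1 + 1) / 2 = c + 1 := by omega
      rcases hj with hj | hj <;>
      · ext i; fin_cases i <;>
          simp [idx, hj, e1, e2, e3, e4, SData.La, Pi.single_apply, DD, pow_succ', mul_assoc]

/-- the exponent vector -/
noncomputable def expo (i : Fin 4 → ℕ) : Fin 3 →₀ ℕ :=
  Finsupp.single 0 (i 0 / 2) + Finsupp.single 1 (i 1 / 2) + Finsupp.single 2 (min (i 2) (i 3))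

theorem act_BB (i : Fin 4 → ℕ) :
    FF i0 κ h2 hi (BB i0 κ i) (Pi.single 0 uu)
      = Pi.single ((i 2 : ℤ) - i 3) (Pi.single (idx (i 0) (i 1)) (monomial (expo i) 1)) := by
  rw [BB, map_mul, map_mul, map_mul, Module.End.mul_apply, Module.End.mul_apply,
    Module.End.mul_apply, act_ww, act_om]
  have e1 : ((X 2 : SS k) ^ min (i 2) (i 3) • uu : Fin 4 → SS k)
      = Pi.single 0 ((X 2 : SS k) ^ min (i 2) (i 3)) := by
    ext l; fin_cases l <;> simp [uu]
  rw [e1, act_b, act_a]
  congr 2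
  rw [expo, ← mul_one (1 : k), ← monomial_mul, ← mul_one (1 : k), ← monomial_mul]
  simp only [mul_one, X_pow_eq_monomial]
  ring

theorem key_inj (i j : Fin 4 → ℕ) (h1 : (i 2 : ℤ) - i 3 = (j 2 : ℤ) - j 3)
    (h2 : idx (i 0) (i 1) = idx (j 0) (j 1)) (h3 : expo i = expo j) : i = j := by
  have a0 : i 0 / 2 = j 0 / 2 := by simpa [expo] using DFunLike.congr_fun h3 0
  have a1 : i 1 / 2 = j 1 / 2 := by simpa [expo] using DFunLike.congr_fun h3 1
  have a2 : min (i 2) (i 3) = min (j 2) (j 3) := by simpa [expo] using DFunLike.congr_fun h3 2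
  have b : i 0 % 2 = j 0 % 2 ∧ i 1 % 2 = j 1 % 2 := by
    unfold idx at h2
    split_ifs at h2 <;> first | omega | (exfalso; revert h2; decide)
  funext l
  fin_cases l
  · show i 0 = j 0; omega
  · show i 1 = j 1; omega
  · show i 2 = j 2; omega
  · show i 3 = j 3; omega

/-- the coordinate functionals -/
noncomputable def lam (i : Fin 4 → ℕ) : AA i0 κ →ₗ[k] k where
  toFun u := coeff (expo i)
    (FF i0 κ h2 hi u (Pi.single 0 uu) ((i 2 : ℤ) - i 3) (idx (i 0) (i 1)))
  map_add' u v := by simp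
  map_smul' c u := by simp

theorem lam_BB (i j : Fin 4 → ℕ) : lam i0 κ h2 hi i (BB i0 κ j) = if i = j then 1 else 0 := by
  show coeff (expo i) (FF i0 κ h2 hi (BB i0 κ j) (Pi.single 0 uu) ((i 2 : ℤ) - i 3)
    (idx (i 0) (i 1))) = _
  rw [act_BB]
  by_cases h : i = j
  · subst h
    simp
  · rw [if_neg h]
    by_cases h1 : (i 2 : ℤ) - i 3 = (j 2 : ℤ) - j 3
    · rw [h1, Pi.single_eq_same]
      by_cases h3 : idx (i 0) (i 1) = idx (j 0) (j 1)
      · rw [h3, Pi.single_eq_same, coeff_monomial, if_neg]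
        intro h4
        exact h (key_inj i j h1 h3 h4.symm)
      · rw [Pi.single_eq_of_ne h3, coeff_zero]
    · rw [Pi.single_eq_of_ne h1]
      simp

include h2 hi in
theorem linearIndependent_BB : LinearIndependent k (BB i0 κ) := by
  rw [linearIndependent_iff']
  intro s g hg i hi'
  have := congrArg (lam i0 κ h2 hi i) hg
  simpa [lam_BB, hi'] using this

end Act2

end Pool.Agent.W506.PM
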