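import Pool.Agent.W506.PM.M3

/-!
# The standard monomials span
-/

universe u

namespace Pool.Agent.W506.PM

variable {k : Type u} [Field k]

section RelsLemmas

variable {i0 κ : k} {E : Type u} [Ring E] [Algebra k E] {a v b t : E}
  (h : Rels i0 κ a v b t) (hi : i0 ^ 2 = -1)

include h hi

theorem Rels.tta : t * t * a = -(a * (t * t)) := by
  have hii : i0 * i0 = -1 := by rw [← sq]; exact hi
  rw [mul_assoc, h.ta, mul_smul_comm, ← mul_assoc t a t, h.ta, smul_mul_assoc, smul_smul, hii,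
    neg_smul, one_smul, mul_assoc]

theorem Rels.ttb : t * t * b = -(b * (t * t)) := by
  have hii : i0 * i0 = -1 := by rw [← sq]; exact hi
  rw [mul_assoc, h.tb, mul_neg, mul_smul_comm, ← mul_assoc t b t, h.tb, neg_mul, smul_mul_assoc,
    smul_neg, neg_neg, smul_smul, hii, neg_smul, one_smul, mul_assoc]

theorem Rels.baa : b * (a * a) = a * a * b := by
  have h1 := h.tta hi
  rw [h.tt, sub_mul, mul_sub] at h1
  have h2 : b * (a * a) - a * a * b
      = -(a * b * a - b * a * a - -(a * (a * b) - a * (b * a))) := by noncomm_ring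
  rw [← sub_eq_zero, h2, h1, sub_self, neg_zero]

theorem Rels.abb : a * (b * b) = b * b * a := by
  have h1 := h.ttb hi
  rw [h.tt, sub_mul, mul_sub] at h1
  have h2 : a * (b * b) - b * b * a
      = (a * b * b - b * a * b - -(b * (a * b) - b * (b * a))) := by noncomm_ring
  rw [← sub_eq_zero, h2, h1, sub_self]

theorem Rels.tW : t * (a * b + b * a) = (a * b + b * a) * t := by
  have hii : i0 * i0 = -1 := by rw [← sq]; exact hi
  have e1 : t * (a * b) = a * b * t := by
    rw [← mul_assoc, h.ta, smul_mul_assoc, mul_assoc a t b, h.tb, mul_neg, mul_smul_comm,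
      smul_neg, smul_smul, hii, neg_smul, one_smul, neg_neg, mul_assoc]
  have e2 : t * (b * a) = b * a * t := by
    rw [← mul_assoc, h.tb, neg_mul, smul_mul_assoc, mul_assoc b t a, h.ta, mul_smul_comm,
      smul_smul, hii, neg_smul, one_smul, neg_neg, mul_assoc]
  rw [mul_add, e1, e2, add_mul]

theorem Rels.aW : a * (a * b + b * a) = (a * b + b * a) * a := by
  have := h.baa hi
  have e : a * (a * b + b * a) - (a * b + b * a) * a = -(b * (a * a) - a * a * b) := by
    noncomm_ring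
  rw [← sub_eq_zero, e, this, sub_self, neg_zero]

theorem Rels.bW : b * (a * b + b * a) = (a * b + b * a) * b := by
  have := h.abb hi
  have e : b * (a * b + b * a) - (a * b + b * a) * b = -(a * (b * b) - b * b * a) := by
    noncomm_ring
  rw [← sub_eq_zero, e, this, sub_self, neg_zero]

end RelsLemmas

section Span

variable (i0 κ : k) (h2 : (2 : k) ≠ 0) (hi : i0 ^ 2 = -1)

/-- the span of the standard monomials -/
noncomputable def SP : Submodule k (AA i0 κ) := Submodule.span k (Set.range (BB i0 κ))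

/-- the subalgebra generated by `a` and `b` -/
noncomputable def DS : Subalgebra k (AA i0 κ) := Algebra.adjoin k {ea i0 κ, eb i0 κ}

theorem ea_mem : ea i0 κ ∈ DS i0 κ := Algebra.subset_adjoin (by simp)
theorem eb_mem : eb i0 κ ∈ DS i0 κ := Algebra.subset_adjoin (by simp)
theorem om_mem : om i0 κ ∈ DS i0 κ :=
  Subalgebra.add_mem _ (Subalgebra.mul_mem _ (ea_mem i0 κ) (eb_mem i0 κ))
    (Subalgebra.mul_mem _ (eb_mem i0 κ) (ea_mem i0 κ))

/-- standard monomial with explicit exponents -/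
theorem BB_eq (α β p q : ℕ) : BB i0 κ ![α, β, p, q]
    = ea i0 κ ^ α * eb i0 κ ^ β * om i0 κ ^ min p q * ww i0 κ ((p : ℤ) - q) := rfl

theorem BB_mem (α β p q : ℕ) : ea i0 κ ^ α * eb i0 κ ^ β * om i0 κ ^ min p q
    * ww i0 κ ((p : ℤ) - q) ∈ SP i0 κ := Submodule.subset_span ⟨![α, β, p, q], rfl⟩

theorem ea_mul_mem (z : AA i0 κ) (hz : z ∈ SP i0 κ) : ea i0 κ * z ∈ SP i0 κ := by
  induction hz using Submodule.span_induction with
  | mem z hz =>
    obtain ⟨i, rfl⟩ := hz
    rw [BB, ← mul_assoc, ← mul_assoc, ← mul_assoc, ← pow_succ']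
    exact BB_mem i0 κ (i 0 + 1) (i 1) (i 2) (i 3)
  | zero => rw [mul_zero]; exact Submodule.zero_mem _
  | add y z _ _ hy hz => rw [mul_add]; exact Submodule.add_mem _ hy hz
  | smul c y _ hy => rw [mul_smul_comm]; exact Submodule.smul_mem _ _ hy

include h2 hi in
theorem om_comm_a : Commute (om i0 κ) (ea i0 κ) := ((rels_AA i0 κ h2).aW hi).symm
include h2 hi in
theorem om_comm_b : Commute (om i0 κ) (eb i0 κ) := ((rels_AA i0 κ h2).bW hi).symm
include h2 hi in
theorem om_comm_t : Commute (om i0 κ) (et i0 κ) := ((rels_AA i0 κ h2).tW hi).symm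
include h2 hi in
theorem aa_comm_b : Commute (ea i0 κ * ea i0 κ) (eb i0 κ) := ((rels_AA i0 κ h2).baa hi).symm
include h2 hi in
theorem bb_comm_a : Commute (eb i0 κ * eb i0 κ) (ea i0 κ) := ((rels_AA i0 κ h2).abb hi).symm

include h2 hi in
theorem eb_mul_mem (z : AA i0 κ) (hz : z ∈ SP i0 κ) : eb i0 κ * z ∈ SP i0 κ := by
  induction hz using Submodule.span_induction with
  | mem z hz =>
    obtain ⟨i, rfl⟩ := hz
    rw [BB]
    rcases Nat.even_or_odd' (i 0) with ⟨c, hc | hc⟩
    · have e : eb i0 κ * (ea i0 κ ^ i 0 * eb i0 κ ^ i 1 * om i0 κ ^ min (i 2) (i 3)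
          * ww i0 κ ((i 2 : ℤ) - i 3)) = ea i0 κ ^ i 0 * eb i0 κ ^ (i 1 + 1)
          * om i0 κ ^ min (i 2) (i 3) * ww i0 κ ((i 2 : ℤ) - i 3) := by
        have h1 : eb i0 κ * ea i0 κ ^ i 0 = ea i0 κ ^ i 0 * eb i0 κ := by
          rw [hc, pow_mul, sq]
          exact ((aa_comm_b i0 κ h2 hi).pow_left c).symm.eq
        simp only [← mul_assoc]
        rw [h1, mul_assoc (ea i0 κ ^ i 0) (eb i0 κ), ← pow_succ']
      rw [e]
      exact BB_mem i0 κ _ _ _ _
    · have e : eb i0 κ * (ea i0 κ ^ i 0 * eb i0 κ ^ i 1 * om i0 κ ^ min (i 2) (i 3)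
          * ww i0 κ ((i 2 : ℤ) - i 3)) = ea i0 κ ^ (2 * c) * eb i0 κ ^ (i 1)
          * om i0 κ ^ min (i 2 + 1) (i 3 + 1) * ww i0 κ (((i 2 + 1 : ℕ) : ℤ) - (i 3 + 1 : ℕ))
          - ea i0 κ ^ (i 0) * eb i0 κ ^ (i 1 + 1)
          * om i0 κ ^ min (i 2) (i 3) * ww i0 κ ((i 2 : ℤ) - i 3) := by
        have h1 : eb i0 κ * ea i0 κ ^ (2 * c) = ea i0 κ ^ (2 * c) * eb i0 κ := by
          rw [pow_mul, sq]
          exact ((aa_comm_b i0 κ h2 hi).pow_left c).symm.eq
        have h3 : eb i0 κ * ea i0 κ ^ i 0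
            = ea i0 κ ^ (2 * c) * om i0 κ - ea i0 κ ^ i 0 * eb i0 κ := by
          rw [hc, pow_succ, ← mul_assoc, h1, om, mul_add]
          simp only [mul_assoc]
          abel
        have h4 : (((i 2 + 1 : ℕ) : ℤ) - (i 3 + 1 : ℕ)) = (i 2 : ℤ) - i 3 := by push_cast; ring
        have h5 : min (i 2 + 1) (i 3 + 1) = min (i 2) (i 3) + 1 := by omega
        have h6 : om i0 κ * eb i0 κ ^ i 1 = eb i0 κ ^ i 1 * om i0 κ :=
          ((om_comm_b i0 κ h2 hi).pow_right _).eq
        rw [h4, h5]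
        simp only [← mul_assoc]
        rw [h3]
        simp only [sub_mul]
        rw [mul_assoc (ea i0 κ ^ (2 * c)) (om i0 κ), h6, mul_assoc (ea i0 κ ^ i 0) (eb i0 κ),
          ← pow_succ', ← mul_assoc, mul_assoc (ea i0 κ ^ (2 * c) * eb i0 κ ^ i 1) (om i0 κ),
          ← pow_succ']
      rw [e]
      exact Submodule.sub_mem _ (BB_mem i0 κ _ _ _ _) (BB_mem i0 κ _ _ _ _)
  | zero => rw [mul_zero]; exact Submodule.zero_mem _
  | add y z _ _ hy hz => rw [mul_add]; exact Submodule.add_mem _ hy hz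
  | smul c y _ hy => rw [mul_smul_comm]; exact Submodule.smul_mem _ _ hy

include h2 hi in
theorem DS_mul_mem (d : AA i0 κ) (hd : d ∈ DS i0 κ) :
    ∀ z ∈ SP i0 κ, d * z ∈ SP i0 κ := by
  induction hd using Algebra.adjoin_induction with
  | mem y hy =>
    rcases hy with rfl | rfl
    · exact ea_mul_mem i0 κ
    · exact eb_mul_mem i0 κ h2 hi
  | algebraMap c =>
    intro z hz
    rw [← Algebra.smul_def]; exact Submodule.smul_mem _ _ hz
  | add y z _ _ hy hz =>
    intro w hw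
    rw [add_mul]; exact Submodule.add_mem _ (hy w hw) (hz w hw)
  | mul y z _ _ hy hz =>
    intro w hw
    rw [mul_assoc]; exact hy _ (hz w hw)

theorem ww_mem (n : ℤ) : ww i0 κ n ∈ SP i0 κ := by
  have h := BB_mem i0 κ 0 0 (n.toNat) ((-n).toNat)
  have e1 : min n.toNat (-n).toNat = 0 := by omega
  have e2 : ((n.toNat : ℤ) - ((-n).toNat : ℕ)) = n := by omega
  rw [e1, e2] at h
  simpa using h

include h2 hi in
theorem DS_ww_mem (d : AA i0 κ) (hd : d ∈ DS i0 κ) (n : ℤ) : d * ww i0 κ n ∈ SP i0 κ :=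
  DS_mul_mem i0 κ h2 hi d hd _ (ww_mem i0 κ n)

end Span

end Pool.Agent.W506.PM
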