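import Pool.Agent.W506.PM.M4

/-!
# The standard monomials form a basis
-/

universe u

namespace Pool.Agent.W506.PM

variable {k : Type u} [Field k]

section Span

variable (i0 κ : k) (h2 : (2 : k) ≠ 0) (hi : i0 ^ 2 = -1)

include h2 in
theorem ev_mul_DS (d : AA i0 κ) (hd : d ∈ DS i0 κ) :
    ∃ d' ∈ DS i0 κ, ∃ d'' ∈ DS i0 κ, ev i0 κ * d = d' * ev i0 κ + d'' := by
  have hW : ea i0 κ * ea i0 κ + eb i0 κ * eb i0 κ ∈ DS i0 κ :=
    Subalgebra.add_mem _ (Subalgebra.mul_mem _ (ea_mem i0 κ) (ea_mem i0 κ))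
      (Subalgebra.mul_mem _ (eb_mem i0 κ) (eb_mem i0 κ))
  induction hd using Algebra.adjoin_induction with
  | mem y hy =>
    rcases hy with rfl | rfl
    · refine ⟨-ea i0 κ, Subalgebra.neg_mem _ (ea_mem i0 κ), _, hW, ?_⟩
      rw [← (rels_AA i0 κ h2).va]; noncomm_ring
    · refine ⟨-eb i0 κ, Subalgebra.neg_mem _ (eb_mem i0 κ), _, hW, ?_⟩
      rw [← (rels_AA i0 κ h2).vb]; noncomm_ring
  | algebraMap c =>
    refine ⟨algebraMap k _ c, Subalgebra.algebraMap_mem _ c, 0, Subalgebra.zero_mem _, ?_⟩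
    rw [add_zero, Algebra.commutes]
  | add y z _ _ hy hz =>
    obtain ⟨a1, ha1, b1, hb1, e1⟩ := hy
    obtain ⟨a2, ha2, b2, hb2, e2⟩ := hz
    refine ⟨a1 + a2, Subalgebra.add_mem _ ha1 ha2, b1 + b2, Subalgebra.add_mem _ hb1 hb2, ?_⟩
    rw [mul_add, e1, e2]; noncomm_ring
  | mul y z _ hz' hy hz =>
    obtain ⟨a1, ha1, b1, hb1, e1⟩ := hy
    obtain ⟨a2, ha2, b2, hb2, e2⟩ := hz
    refine ⟨a1 * a2, Subalgebra.mul_mem _ ha1 ha2, a1 * b2 + b1 * z,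
      Subalgebra.add_mem _ (Subalgebra.mul_mem _ ha1 hb2) (Subalgebra.mul_mem _ hb1 hz'), ?_⟩
    rw [← mul_assoc, e1, add_mul, mul_assoc a1, e2]; noncomm_ring

include h2 in
theorem et_mul_DS (d : AA i0 κ) (hd : d ∈ DS i0 κ) :
    ∃ d' ∈ DS i0 κ, et i0 κ * d = d' * et i0 κ := by
  induction hd using Algebra.adjoin_induction with
  | mem y hy =>
    rcases hy with rfl | rfl
    · refine ⟨i0 • ea i0 κ, Subalgebra.smul_mem _ (ea_mem i0 κ) _, ?_⟩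
      rw [(rels_AA i0 κ h2).ta, smul_mul_assoc]
    · refine ⟨-(i0 • eb i0 κ), Subalgebra.neg_mem _ (Subalgebra.smul_mem _ (eb_mem i0 κ) _), ?_⟩
      rw [(rels_AA i0 κ h2).tb, neg_mul, smul_mul_assoc]
  | algebraMap c =>
    refine ⟨algebraMap k _ c, Subalgebra.algebraMap_mem _ c, ?_⟩
    rw [Algebra.commutes]
  | add y z _ _ hy hz =>
    obtain ⟨a1, ha1, e1⟩ := hy
    obtain ⟨a2, ha2, e2⟩ := hz
    refine ⟨a1 + a2, Subalgebra.add_mem _ ha1 ha2, ?_⟩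
    rw [mul_add, e1, e2, add_mul]
  | mul y z _ _ hy hz =>
    obtain ⟨a1, ha1, e1⟩ := hy
    obtain ⟨a2, ha2, e2⟩ := hz
    refine ⟨a1 * a2, Subalgebra.mul_mem _ ha1 ha2, ?_⟩
    rw [← mul_assoc, e1, mul_assoc a1, e2, mul_assoc]

theorem wp_succ (n : ℕ) : wp i0 κ (n + 1)
    = (if n % 2 = 0 then ev i0 κ else et i0 κ) * wp i0 κ n := rfl
theorem wn_succ (n : ℕ) : wn i0 κ (n + 1)
    = (if n % 2 = 0 then et i0 κ else ev i0 κ) * wn i0 κ n := rfl

theorem ww_natCast (n : ℕ) : ww i0 κ (n : ℤ) = wp i0 κ n := rfl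

theorem ww_neg_natCast (n : ℕ) : ww i0 κ (-(n : ℤ)) = wn i0 κ n := by
  rcases n with _ | n
  · simp [ww, wn, wp]
  · rfl

include h2 in
theorem ev_mul_ww (n : ℤ) :
    ∃ d ∈ DS i0 κ, ∃ m : ℤ, ev i0 κ * ww i0 κ n = d * ww i0 κ m := by
  have h1 : (1 : AA i0 κ) ∈ DS i0 κ := Subalgebra.one_mem _
  have hr : ev i0 κ * ev i0 κ ∈ DS i0 κ := by
    rw [(rels_AA i0 κ h2).vv]
    exact Subalgebra.add_mem _
      (Subalgebra.smul_mem _ (Subalgebra.mul_mem _ (ea_mem i0 κ) (ea_mem i0 κ)) _)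
      (Subalgebra.smul_mem _ (Subalgebra.mul_mem _ (eb_mem i0 κ) (eb_mem i0 κ)) _)
  obtain ⟨m, rfl | rfl⟩ := Int.eq_nat_or_neg n
  · rcases Nat.even_or_odd m with hm | hm
    · refine ⟨1, h1, ((m + 1 : ℕ) : ℤ), ?_⟩
      rw [ww_natCast, ww_natCast, wp.eq_2 i0 κ m, if_pos (Nat.even_iff.1 hm), one_mul]
    · obtain ⟨l, rfl⟩ := hm
      refine ⟨_, hr, ((2 * l : ℕ) : ℤ), ?_⟩
      rw [ww_natCast, ww_natCast, wp_succ i0 κ (2 * l), if_pos (by omega), mul_assoc]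
  · rcases Nat.even_or_odd' m with ⟨l, rfl | rfl⟩
    · rcases l with _ | l
      · refine ⟨1, h1, ((1 : ℕ) : ℤ), ?_⟩
        have e0 : ww i0 κ (-((2 * 0 : ℕ) : ℤ)) = 1 := by
          rw [ww_neg_natCast]; rfl
        have e1 : ww i0 κ ((1 : ℕ) : ℤ) = ev i0 κ * 1 := by
          rw [ww_natCast]; rfl
        rw [e0, e1, one_mul]
      · refine ⟨_, hr, -((2 * l + 1 : ℕ) : ℤ), ?_⟩
        rw [ww_neg_natCast, ww_neg_natCast, show 2 * (l + 1) = 2 * l + 1 + 1 by ring, wn,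
          if_neg (by omega), mul_assoc]
    · refine ⟨1, h1, -((2 * l + 1 + 1 : ℕ) : ℤ), ?_⟩
      rw [ww_neg_natCast, ww_neg_natCast, wn.eq_2 i0 κ (2 * l + 1), if_neg (by omega), one_mul]

include h2 in
theorem et_mul_ww (n : ℤ) :
    ∃ d ∈ DS i0 κ, ∃ m : ℤ, et i0 κ * ww i0 κ n = d * ww i0 κ m := by
  have h1 : (1 : AA i0 κ) ∈ DS i0 κ := Subalgebra.one_mem _
  have hr : et i0 κ * et i0 κ ∈ DS i0 κ := by
    rw [(rels_AA i0 κ h2).tt]
    exact Subalgebra.sub_mem _ (Subalgebra.mul_mem _ (ea_mem i0 κ) (eb_mem i0 κ))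
      (Subalgebra.mul_mem _ (eb_mem i0 κ) (ea_mem i0 κ))
  obtain ⟨m, rfl | rfl⟩ := Int.eq_nat_or_neg n
  · rcases Nat.even_or_odd' m with ⟨l, rfl | rfl⟩
    · rcases l with _ | l
      · refine ⟨1, h1, -((1 : ℕ) : ℤ), ?_⟩
        have e0 : ww i0 κ ((2 * 0 : ℕ) : ℤ) = 1 := by
          rw [ww_natCast]; rfl
        have e1 : ww i0 κ (-((1 : ℕ) : ℤ)) = et i0 κ * 1 := by
          rw [ww_neg_natCast]; rfl
        rw [e0, e1, one_mul]
      · refine ⟨_, hr, ((2 * l + 1 : ℕ) : ℤ), ?_⟩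
        rw [ww_natCast, ww_natCast, show 2 * (l + 1) = 2 * l + 1 + 1 by ring, wp,
          if_neg (by omega), mul_assoc]
    · refine ⟨1, h1, ((2 * l + 1 + 1 : ℕ) : ℤ), ?_⟩
      rw [ww_natCast, ww_natCast, wp.eq_2 i0 κ (2 * l + 1), if_neg (by omega), one_mul]
  · rcases Nat.even_or_odd m with hm | hm
    · refine ⟨1, h1, -((m + 1 : ℕ) : ℤ), ?_⟩
      rw [ww_neg_natCast, ww_neg_natCast, wn.eq_2 i0 κ m, if_pos (Nat.even_iff.1 hm), one_mul]
    · obtain ⟨l, rfl⟩ := hm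
      refine ⟨_, hr, -((2 * l : ℕ) : ℤ), ?_⟩
      rw [ww_neg_natCast, ww_neg_natCast, wn_succ i0 κ (2 * l), if_pos (by omega), mul_assoc]

/-- the part in `DS` of a standard monomial -/
theorem BB_fac (i : Fin 4 → ℕ) : ∃ d ∈ DS i0 κ, BB i0 κ i = d * ww i0 κ ((i 2 : ℤ) - i 3) :=
  ⟨_, Subalgebra.mul_mem _ (Subalgebra.mul_mem _ (Subalgebra.pow_mem _ (ea_mem i0 κ) _)
    (Subalgebra.pow_mem _ (eb_mem i0 κ) _)) (Subalgebra.pow_mem _ (om_mem i0 κ) _), rfl⟩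

include h2 hi in
theorem ev_mul_mem (z : AA i0 κ) (hz : z ∈ SP i0 κ) : ev i0 κ * z ∈ SP i0 κ := by
  induction hz using Submodule.span_induction with
  | mem z hz =>
    obtain ⟨i, rfl⟩ := hz
    obtain ⟨d, hd, e⟩ := BB_fac i0 κ i
    obtain ⟨d', hd', d'', hd'', e'⟩ := ev_mul_DS i0 κ h2 d hd
    obtain ⟨f, hf, m, e''⟩ := ev_mul_ww i0 κ h2 ((i 2 : ℤ) - i 3)
    rw [e, ← mul_assoc, e', add_mul, mul_assoc d', e'', ← mul_assoc]
    exact Submodule.add_mem _ (DS_ww_mem i0 κ h2 hi _ (Subalgebra.mul_mem _ hd' hf) _)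
      (DS_ww_mem i0 κ h2 hi _ hd'' _)
  | zero => rw [mul_zero]; exact Submodule.zero_mem _
  | add y z _ _ hy hz => rw [mul_add]; exact Submodule.add_mem _ hy hz
  | smul c y _ hy => rw [mul_smul_comm]; exact Submodule.smul_mem _ _ hy

include h2 hi in
theorem et_mul_mem (z : AA i0 κ) (hz : z ∈ SP i0 κ) : et i0 κ * z ∈ SP i0 κ := by
  induction hz using Submodule.span_induction with
  | mem z hz =>
    obtain ⟨i, rfl⟩ := hz
    obtain ⟨d, hd, e⟩ := BB_fac i0 κ i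
    obtain ⟨d', hd', e'⟩ := et_mul_DS i0 κ h2 d hd
    obtain ⟨f, hf, m, e''⟩ := et_mul_ww i0 κ h2 ((i 2 : ℤ) - i 3)
    rw [e, ← mul_assoc, e', mul_assoc d', e'', ← mul_assoc]
    exact DS_ww_mem i0 κ h2 hi _ (Subalgebra.mul_mem _ hd' hf) _
  | zero => rw [mul_zero]; exact Submodule.zero_mem _
  | add y z _ _ hy hz => rw [mul_add]; exact Submodule.add_mem _ hy hz
  | smul c y _ hy => rw [mul_smul_comm]; exact Submodule.smul_mem _ _ hy

include h2 hi in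
theorem SP_top : SP i0 κ = ⊤ := by
  rw [eq_top_iff]
  intro u _
  have hu : u ∈ Algebra.adjoin k (Set.range (gx k (mu0 i0) (MM0 κ))) := by
    rw [adjoin_AA i0 κ h2]; trivial
  have key : ∀ z ∈ SP i0 κ, u * z ∈ SP i0 κ := by
    induction hu using Algebra.adjoin_induction with
    | mem y hy =>
      obtain ⟨j, rfl⟩ := hy
      fin_cases j
      · exact ea_mul_mem i0 κ
      · exact ev_mul_mem i0 κ h2 hi
      · exact eb_mul_mem i0 κ h2 hi
      · exact et_mul_mem i0 κ h2 hi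
    | algebraMap c =>
      intro z hz
      rw [← Algebra.smul_def]; exact Submodule.smul_mem _ _ hz
    | add y z _ _ hy hz =>
      intro w hw
      rw [add_mul]; exact Submodule.add_mem _ (hy trivial w hw) (hz trivial w hw)
    | mul y z _ _ hy hz =>
      intro w hw
      rw [mul_assoc]; exact hy trivial _ (hz trivial w hw)
  have h1 : (1 : AA i0 κ) ∈ SP i0 κ := by
    have := ww_mem i0 κ 0
    simpa [ww, wp] using this
  have := key 1 h1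
  rwa [mul_one] at this

/-- the basis of standard monomials -/
noncomputable def bas : Module.Basis (Fin 4 → ℕ) k (AA i0 κ) :=
  Module.Basis.mk (linearIndependent_BB i0 κ h2 hi) (SP_top i0 κ h2 hi).ge

theorem bas_apply (i : Fin 4 → ℕ) : bas i0 κ h2 hi i = BB i0 κ i := by
  exact Module.Basis.mk_apply (linearIndependent_BB i0 κ h2 hi) (SP_top i0 κ h2 hi).ge i

end Span

end Pool.Agent.W506.PM
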