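import Pool.Agent.W506.PM.Defs

/-!
# Statements of the parts (propositions only, nothing is proved here)
-/

open CategoryTheory Abelian
open scoped LinearAlgebra.Projectivization

universe u

namespace Pool.Agent.W506.PM

/-- `p ⊗ q` is killed by the quadratic relations with coefficient tensor `r`. -/
def Zero {k : Type u} [Field k] {n m : ℕ} (r : Fin m → Fin n → Fin n → k) (p q : Fin n → k) :
    Prop := ∀ i, ∑ j, ∑ l, r i j l * (p j * q l) = 0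

/-- `A` is presented by the generators `x` and the quadratic relations
`sum_jl r_ijl x_j x_l = 0`. -/
structure IsPres {k : Type u} [Field k] {A : Type u} [Ring A] [Algebra k A] {n m : ℕ}
    (x : Fin n → A) (r : Fin m → Fin n → Fin n → k) : Prop where
  rel : ∀ i, ∑ j, ∑ l, r i j l • (x j * x l) = 0
  gen : Algebra.adjoin k (Set.range x) = ⊤
  up : ∀ (E : Type u) [Ring E] [Algebra k E] (y : Fin n → E),
    (∀ i, ∑ j, ∑ l, r i j l • (y j * y l) = 0) → ∃ f : A →ₐ[k] E, ∀ j, f (x j) = y j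

/-- The six equations defining the point scheme of our algebra
(coordinates `0 = a`, `1 = v`, `2 = b`, `3 = t`). -/
def Eqs {k : Type u} [Field k] (i0 κ : k) (p q : Fin 4 → k) : Prop :=
  p 1 * q 0 + p 0 * q 1 = p 0 * q 0 + p 2 * q 2 ∧
  p 1 * q 2 + p 2 * q 1 = p 0 * q 0 + p 2 * q 2 ∧
  p 1 * q 1 = (1 / 2 - κ) * (p 0 * q 0) + (1 / 2 + κ) * (p 2 * q 2) ∧
  p 3 * q 0 = i0 * (p 0 * q 3) ∧
  p 3 * q 2 = - i0 * (p 2 * q 3) ∧
  p 3 * q 3 = p 0 * q 2 - p 2 * q 0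

/-- Part PTS: the equations have exactly 19 solutions `p` up to scaling, and they define the
graph of a bijection. -/
def TaskPTS : Prop :=
  ∀ (k : Type u) [Field k] [IsAlgClosed k], (2 : k) ≠ 0 → ∀ i0 κ : k, i0 ^ 2 = -1 → κ ≠ 0 →
    16 * κ ^ 4 - 44 * κ ^ 2 - 1 ≠ 0 →
    Nat.card {P : ℙ k (Fin 4 → k) // ∃ q : Fin 4 → k, q ≠ 0 ∧ Eqs i0 κ P.rep q} = 19 ∧
    (∀ p q q' : Fin 4 → k, p ≠ 0 → q ≠ 0 → q' ≠ 0 → Eqs i0 κ p q → Eqs i0 κ p q' →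
      ∃ c : k, q' = c • q) ∧
    (∀ p q : Fin 4 → k, p ≠ 0 → q ≠ 0 → Eqs i0 κ p q → ∃ s : Fin 4 → k, s ≠ 0 ∧ Eqs i0 κ q s)

/-- Part PMOD: point modules of a quadratic algebra correspond to the points. -/
def TaskPMOD : Prop :=
  ∀ (k : Type u) [Field k] (A : Type u) [Ring A] [Algebra k A] (𝒜 : ℕ → Submodule k A)
    (n m : ℕ) (x : Fin n → A) (r : Fin m → Fin n → Fin n → k),
    IsConnectedGraded 𝒜 → IsPres x r → (∀ j, x j ∈ 𝒜 1) →
    (∀ p q q' : Fin n → k, p ≠ 0 → q ≠ 0 → q' ≠ 0 → Zero r p q → Zero r p q' →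
      ∃ c : k, q' = c • q) →
    (∀ p q : Fin n → k, p ≠ 0 → q ≠ 0 → Zero r p q → ∃ s : Fin n → k, s ≠ 0 ∧ Zero r q s) →
    Nat.card (PointClasses 𝒜) =
      Nat.card {P : ℙ k (Fin n → k) // ∃ q : Fin n → k, q ≠ 0 ∧ Zero r P.rep q}

/-- The complex `0 → A → A^4 → A^6 → A^4 → A` of left modules given by right multiplication
with the matrices `x`, `m'`, `m`, `x` is exact (except at the last place). -/
structure LeftKos {A : Type u} [Ring A] (x : Fin 4 → A) (m m' : Fin 6 → Fin 4 → A) : Prop where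
  c1 : ∀ i, ∑ j, m i j * x j = 0
  c2 : ∀ j l, ∑ i, m' i j * m i l = 0
  c3 : ∀ i, ∑ j, x j * m' i j = 0
  ex1 : ∀ f : Fin 4 → A, ∑ j, f j * x j = 0 → ∃ g : Fin 6 → A, ∀ j, f j = ∑ i, g i * m i j
  ex2 : ∀ g : Fin 6 → A, (∀ j, ∑ i, g i * m i j = 0) →
    ∃ f : Fin 4 → A, ∀ i, g i = ∑ j, f j * m' i j
  ex3 : ∀ f : Fin 4 → A, (∀ i, ∑ j, f j * m' i j = 0) → ∃ h : A, ∀ j, f j = h * x j
  ex4 : ∀ h : A, (∀ j, h * x j = 0) → h = 0

/-- Part EUL: exactness in the middle by counting dimensions. -/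
def TaskEUL : Prop :=
  ∀ (k : Type u) [Field k] (A : Type u) [Ring A] [Algebra k A] (𝒜 : ℕ → Submodule k A)
    (x : Fin 4 → A) (m m' : Fin 6 → Fin 4 → A),
    IsConnectedGraded 𝒜 → (∀ n, Module.finrank k (𝒜 n) = (n + 3).choose 3) →
    (∀ j, x j ∈ 𝒜 1) → (∀ i j, m i j ∈ 𝒜 1) → (∀ i j, m' i j ∈ 𝒜 1) →
    (∀ n, ∀ a ∈ 𝒜 (n + 1), ∃ f : Fin 4 → A, a = ∑ j, f j * x j) →
    (∀ i, ∑ j, m i j * x j = 0) →
    (∀ j l, ∑ i, m' i j * m i l = 0) →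
    (∀ i, ∑ j, x j * m' i j = 0) →
    (∀ f : Fin 4 → A, ∑ j, f j * x j = 0 → ∃ g : Fin 6 → A, ∀ j, f j = ∑ i, g i * m i j) →
    (∀ f : Fin 4 → A, (∀ i, ∑ j, f j * m' i j = 0) → ∃ h : A, ∀ j, f j = h * x j) →
    (∀ h : A, (∀ j, h * x j = 0) → h = 0) →
    LeftKos x m m'

/-- Part GLD: a connected graded algebra whose trivial module has a linear free resolution of
length four has (ungraded) left global dimension at most four. -/
def TaskGLD : Prop :=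
  ∀ (k : Type u) [Field k] (A : Type u) [Ring A] [Algebra k A] (𝒜 : ℕ → Submodule k A)
    (x : Fin 4 → A) (m m' : Fin 6 → Fin 4 → A),
    IsConnectedGraded 𝒜 →
    (∀ j, x j ∈ 𝒜 1) → (∀ i j, m i j ∈ 𝒜 1) → (∀ i j, m' i j ∈ 𝒜 1) →
    (∀ n, ∀ a ∈ 𝒜 (n + 1), ∃ f : Fin 4 → A, a = ∑ j, f j * x j) →
    LeftKos x m m' →
    ∀ N : ModuleCat.{u} A, HasProjectiveDimensionLE N 4

/-- Part EXT: the groups `Ext^i(k, A)`. -/
def TaskEXT : Prop :=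
  ∀ (k : Type u) [Field k] (A : Type u) [Ring A] [Algebra k A] (𝒜 : ℕ → Submodule k A)
    (x : Fin 4 → A) (m m' : Fin 6 → Fin 4 → A),
    IsConnectedGraded 𝒜 → (∀ j, x j ∈ 𝒜 1) →
    (∀ n, ∀ a ∈ 𝒜 (n + 1), ∃ f : Fin 4 → A, a = ∑ j, f j * x j) →
    (∀ n, ∀ a ∈ 𝒜 (n + 1), ∃ f : Fin 4 → A, a = ∑ j, x j * f j) →
    LeftKos x m m' →
    LeftKos (fun j => MulOpposite.op (x j)) (fun i j => MulOpposite.op (m' i j))
      (fun i j => MulOpposite.op (m i j)) →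
    ¬ HasProjectiveDimensionLT (trivMod 𝒜) 4 ∧
    (∀ i, i ≠ 4 → Subsingleton (Ext (trivMod 𝒜) (ModuleCat.of A A) i)) ∧
    Module.finrank k (Ext (trivMod 𝒜) (ModuleCat.of A A) 4) = 1

end Pool.Agent.W506.PM
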