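import Pool.Agent.W506.PM.N1
import Pool.Agent.W45.PM.EXT
import Pool.Agent.W428.PM.PMOD
import Pool.Agent.W655.PM.Pts
import Pool.Agent.W991.PM.GLD

/-!
# Assembly
-/

universe u

namespace Pool.Agent.W506.PM

open CategoryTheory Abelian
open scoped LinearAlgebra.Projectivization

variable {k : Type u} [Field k]

theorem zero_iff (i0 κ : k) (p q : Fin 4 → k) : Zero (rr i0 κ) p q ↔ Eqs i0 κ p q := by
  constructor
  · intro h
    have h0 := h 0
    have h1 := h 1
    have h2 := h 2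
    have h3 := h 3
    have h4 := h 4
    have h5 := h 5
    simp [Fin.sum_univ_four, rr] at h0 h1 h2 h3 h4 h5
    refine ⟨?_, ?_, ?_, ?_, ?_, ?_⟩
    · linear_combination h0
    · linear_combination h1
    · linear_combination h2
    · linear_combination h3
    · linear_combination h4
    · linear_combination h5
  · rintro ⟨h0, h1, h2, h3, h4, h5⟩ i
    fin_cases i
    · simp [Fin.sum_univ_four, rr]; linear_combination h0
    · simp [Fin.sum_univ_four, rr]; linear_combination h1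
    · simp [Fin.sum_univ_four, rr]; linear_combination h2
    · simp [Fin.sum_univ_four, rr]; linear_combination h3
    · simp [Fin.sum_univ_four, rr]; linear_combination h4
    · simp [Fin.sum_univ_four, rr]; linear_combination h5

theorem exists_kappa [IsAlgClosed k] (h2 : (2 : k) ≠ 0) : ∃ κ : k, κ ≠ 0 ∧
    16 * κ ^ 4 - 44 * κ ^ 2 - 1 ≠ 0 ∧ (1 / 2 - κ) ^ 2 * (1 / 2 + κ) ^ 2 ≠ 0 := by
  haveI : Infinite k := IsAlgClosed.instInfinite
  open Polynomial in
  let P1 : k[X] := C 16 * X ^ 4 - C 44 * X ^ 2 - 1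
  open Polynomial in
  let P2 : k[X] := C (1 / 2) - X
  open Polynomial in
  let P3 : k[X] := C (1 / 2) + X
  have hP1 : P1 ≠ 0 := by
    intro h
    have := congrArg (Polynomial.eval 0) h
    simp [P1] at this
  have hP2 : P2 ≠ 0 := by
    intro h
    have := congrArg (fun p => Polynomial.coeff p 1) h
    simp [P2, Polynomial.coeff_C] at this
  have hP3 : P3 ≠ 0 := by
    intro h
    have := congrArg (fun p => Polynomial.coeff p 1) h
    simp [P3, Polynomial.coeff_C] at this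
  have hP : Polynomial.X * P1 * P2 * P3 ≠ 0 :=
    mul_ne_zero (mul_ne_zero (mul_ne_zero Polynomial.X_ne_zero hP1) hP2) hP3
  classical
  obtain ⟨κ, hκ⟩ := Infinite.exists_notMem_finset (Polynomial.X * P1 * P2 * P3).roots.toFinset
  rw [Multiset.mem_toFinset, Polynomial.mem_roots hP, Polynomial.IsRoot.def] at hκ
  simp only [Polynomial.eval_mul, Polynomial.eval_X, P1, P2, P3, Polynomial.eval_sub,
    Polynomial.eval_add, Polynomial.eval_C, Polynomial.eval_pow, Polynomial.eval_one,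
    mul_eq_zero, not_or] at hκ
  obtain ⟨⟨⟨h1, h3⟩, h4⟩, h5⟩ := hκ
  exact ⟨κ, h1, h3, mul_ne_zero (pow_ne_zero _ h4) (pow_ne_zero _ h5)⟩

theorem growth_aux (n : ℕ) : (n + 3).choose 3 ≤ 27 * (n + 1) ^ 27 := by
  have h1 : (n + 3).choose 3 ≤ (n + 3) ^ 3 := Nat.choose_le_pow _ _
  have h2 : (n + 3) ^ 3 ≤ (3 * (n + 1)) ^ 3 := Nat.pow_le_pow_left (by omega) 3
  have h3 : (3 * (n + 1)) ^ 3 = 27 * (n + 1) ^ 3 := by ring
  have h4 : (n + 1) ^ 3 ≤ (n + 1) ^ 27 := Nat.pow_le_pow_right (by omega) (by omega)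
  calc (n + 3).choose 3 ≤ 27 * (n + 1) ^ 3 := by rw [← h3]; exact h1.trans h2
    _ ≤ 27 * (n + 1) ^ 27 := Nat.mul_le_mul_left _ h4

theorem LeftKos.map {A B : Type u} [Ring A] [Ring B] (e : A ≃+* B) {x : Fin 4 → A}
    {m m' : Fin 6 → Fin 4 → A} (h : LeftKos x m m') :
    LeftKos (fun j => e (x j)) (fun i j => e (m i j)) (fun i j => e (m' i j)) where
  c1 i := by
    have := congrArg e (h.c1 i)
    simpa only [map_sum, map_mul, map_zero] using this
  c2 j l := by
    have := congrArg e (h.c2 j l)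
    simpa only [map_sum, map_mul, map_zero] using this
  c3 i := by
    have := congrArg e (h.c3 i)
    simpa only [map_sum, map_mul, map_zero] using this
  ex1 f hf := by
    obtain ⟨g, hg⟩ := h.ex1 (fun j => e.symm (f j)) (by
      apply e.injective
      simpa only [map_sum, map_mul, map_zero, e.apply_symm_apply] using hf)
    refine ⟨fun i => e (g i), fun j => ?_⟩
    have := congrArg e (hg j)
    simpa only [map_sum, map_mul, e.apply_symm_apply] using this
  ex2 f hf := by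
    obtain ⟨g, hg⟩ := h.ex2 (fun j => e.symm (f j)) (fun j => by
      apply e.injective
      simpa only [map_sum, map_mul, map_zero, e.apply_symm_apply] using hf j)
    refine ⟨fun i => e (g i), fun j => ?_⟩
    have := congrArg e (hg j)
    simpa only [map_sum, map_mul, e.apply_symm_apply] using this
  ex3 f hf := by
    obtain ⟨g, hg⟩ := h.ex3 (fun j => e.symm (f j)) (fun j => by
      apply e.injective
      simpa only [map_sum, map_mul, map_zero, e.apply_symm_apply] using hf j)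
    refine ⟨e g, fun j => ?_⟩
    have := congrArg e (hg j)
    simpa only [map_mul, e.apply_symm_apply] using this
  ex4 f hf := by
    have := h.ex4 (e.symm f) (fun j => by
      apply e.injective
      simpa only [map_mul, map_zero, e.apply_symm_apply] using hf j)
    rwa [map_eq_zero_iff _ e.symm.injective] at this

theorem main (k : Type u) [Field k] [IsAlgClosed k] (h2 : (2 : k) ≠ 0) :
    ∃ (μ : Fin 4 → Fin 4 → k) (M : Fin 4 → Matrix (Fin 4) (Fin 4) k),
      IsGSCA k μ M ∧ IsQuadratic (ggr k μ M) ∧ IsASRegular (ggr k μ M) 4 ∧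
      Nat.card (PointClasses (ggr k μ M)) = 19 := by
  obtain ⟨i0, hi⟩ := IsAlgClosed.exists_pow_nat_eq (-1 : k) (n := 2) (by norm_num)
  obtain ⟨κ, hκ0, hκ1, hκ2⟩ := exists_kappa h2
  have hP := isPres_AA i0 κ h2 hi
  have hL := leftKos i0 κ h2 hi hκ2
  have hR := rightKos i0 κ h2 hi hκ2
  have hconn := conn_gA i0 κ h2 hi
  have hgenL : ∀ n, ∀ a ∈ gA i0 κ (n + 1), ∃ f : Fin 4 → AA i0 κ, a = ∑ j, f j * gg i0 κ j :=
    fun n a ha => gen1 hconn _ (adjoin_AA i0 κ h2) (gx_mem _ _) n a ha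
  have hgenR : ∀ n, ∀ a ∈ opGr (gA i0 κ) (n + 1), ∃ f : Fin 4 → (AA i0 κ)ᵐᵒᵖ,
      a = ∑ j, f j * MulOpposite.op (gg i0 κ j) :=
    fun n a ha => gen1 hconn.op _ hP.op.gen
      (fun j => by rw [mem_opGr]; exact gx_mem _ _ j) n a ha
  have hgenL' : ∀ n, ∀ a ∈ gA i0 κ (n + 1), ∃ f : Fin 4 → AA i0 κ, a = ∑ j, gg i0 κ j * f j := by
    intro n a ha
    obtain ⟨f, hf⟩ := hgenR n (MulOpposite.op a) (by rw [mem_opGr]; exact ha)
    refine ⟨fun j => (f j).unop, ?_⟩
    have := congrArg MulOpposite.unop hf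
    simpa only [Finset.unop_sum, MulOpposite.unop_mul, MulOpposite.unop_op] using this
  have hgenR' : ∀ n, ∀ a ∈ opGr (gA i0 κ) (n + 1), ∃ f : Fin 4 → (AA i0 κ)ᵐᵒᵖ,
      a = ∑ j, MulOpposite.op (gg i0 κ j) * f j := by
    intro n a ha
    obtain ⟨f, hf⟩ := hgenL n a.unop (mem_opGr.1 ha)
    refine ⟨fun j => MulOpposite.op (f j), ?_⟩
    have := congrArg MulOpposite.op hf
    simpa only [Finset.op_sum, MulOpposite.op_mul, MulOpposite.op_unop] using this
  refine ⟨mu0 i0, MM0 κ, isGSCA_AA i0 κ h2 hi, isQuadratic_of_pres _ hP (gx_mem _ _),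
    ⟨hconn, ⟨27, fun n => ?_⟩, ?_, ?_⟩, ?_⟩
  · rw [show Module.finrank k (ggr k (mu0 i0) (MM0 κ) n) = (n + 3).choose 3 from
      finrank_gA i0 κ h2 hi n]
    exact growth_aux n
  · obtain ⟨e1, e2, e3⟩ := Pool.Agent.W45.PM.ext k (AA i0 κ) (gA i0 κ) (gg i0 κ) (mm i0 κ)
      (mm' i0 κ) hconn (gx_mem _ _) hgenL hgenL' hL hR
    exact ⟨Pool.Agent.W991.PMGLD.mainGLD k (AA i0 κ) (gA i0 κ) (gg i0 κ) (mm i0 κ) (mm' i0 κ)
      hconn (gx_mem _ _) (mm_mem i0 κ) (mm'_mem i0 κ) hgenL hL, e1, e2, e3⟩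
  · have hx : ∀ j, MulOpposite.op (gg i0 κ j) ∈ opGr (gA i0 κ) 1 := fun j => by
      rw [mem_opGr]; exact gx_mem _ _ j
    obtain ⟨e1, e2, e3⟩ := Pool.Agent.W45.PM.ext k (AA i0 κ)ᵐᵒᵖ (opGr (gA i0 κ))
      (fun j => MulOpposite.op (gg i0 κ j)) (fun i j => MulOpposite.op (mm' i0 κ i j))
      (fun i j => MulOpposite.op (mm i0 κ i j)) hconn.op hx hgenR hgenR' hR
      (hL.map (RingEquiv.opOp (AA i0 κ)))
    exact ⟨Pool.Agent.W991.PMGLD.mainGLD k (AA i0 κ)ᵐᵒᵖ (opGr (gA i0 κ)) _ _ _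
      hconn.op hx (fun i j => by rw [mem_opGr]; exact mm'_mem i0 κ i j)
      (fun i j => by rw [mem_opGr]; exact mm_mem i0 κ i j) hgenR hR, e1, e2, e3⟩
  · obtain ⟨c1, c2, c3⟩ := Pool.Agent.W655.PM.pts k h2 i0 κ hi hκ0 hκ1
    have := Pool.Agent.W428.PMOD.taskPMOD k (AA i0 κ) (gA i0 κ) 4 6 (gg i0 κ) (rr i0 κ) hconn hP
      (gx_mem _ _) (by simpa only [zero_iff] using c2) (by simpa only [zero_iff] using c3)
    simp only [zero_iff] at this
    exact this.trans c1

end Pool.Agent.W506.PM
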