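import Pool.Agent.W506.PM.K3

/-!
# Normalizing sequence and quadraticity
-/

universe u

namespace Pool.Agent.W506.PM

variable {k : Type u} [Field k]

theorem normal_of_gens {A : Type u} [Ring A] [Algebra k A] {n : ℕ} (x : Fin n → A)
    (hx : Algebra.adjoin k (Set.range x) = ⊤) (I : TwoSidedIdeal A) (z : A) (c c' : Fin n → k)
    (h1 : ∀ j, x j * z - z * (c j • x j) ∈ I) (h2 : ∀ j, z * x j - (c' j • x j) * z ∈ I) :
    (∀ a, ∃ b, a * z - z * b ∈ I) ∧ (∀ a, ∃ b, z * a - b * z ∈ I) := by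
  constructor
  · intro a
    have ha : a ∈ Algebra.adjoin k (Set.range x) := by rw [hx]; trivial
    induction ha using Algebra.adjoin_induction with
    | mem y hy => obtain ⟨j, rfl⟩ := hy; exact ⟨_, h1 j⟩
    | algebraMap s =>
      refine ⟨algebraMap k A s, ?_⟩
      rw [Algebra.commutes, sub_self]; exact I.zero_mem
    | add y w _ _ hy hw =>
      obtain ⟨b, hb⟩ := hy
      obtain ⟨d, hd⟩ := hw
      refine ⟨b + d, ?_⟩
      have : (y + w) * z - z * (b + d) = (y * z - z * b) + (w * z - z * d) := by noncomm_ring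
      rw [this]; exact I.add_mem hb hd
    | mul y w _ _ hy hw =>
      obtain ⟨b, hb⟩ := hy
      obtain ⟨d, hd⟩ := hw
      refine ⟨b * d, ?_⟩
      have : y * w * z - z * (b * d) = y * (w * z - z * d) + (y * z - z * b) * d := by
        noncomm_ring
      rw [this]; exact I.add_mem (I.mul_mem_left _ _ hd) (I.mul_mem_right _ _ hb)
  · intro a
    have ha : a ∈ Algebra.adjoin k (Set.range x) := by rw [hx]; trivial
    induction ha using Algebra.adjoin_induction with
    | mem y hy => obtain ⟨j, rfl⟩ := hy; exact ⟨_, h2 j⟩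
    | algebraMap s =>
      refine ⟨algebraMap k A s, ?_⟩
      rw [Algebra.commutes, sub_self]; exact I.zero_mem
    | add y w _ _ hy hw =>
      obtain ⟨b, hb⟩ := hy
      obtain ⟨d, hd⟩ := hw
      refine ⟨b + d, ?_⟩
      have : z * (y + w) - (b + d) * z = (z * y - b * z) + (z * w - d * z) := by noncomm_ring
      rw [this]; exact I.add_mem hb hd
    | mul y w _ _ hy hw =>
      obtain ⟨b, hb⟩ := hy
      obtain ⟨d, hd⟩ := hw
      refine ⟨b * d, ?_⟩
      have : z * (y * w) - b * d * z = (z * y - b * z) * w + b * (z * w - d * z) := by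
        noncomm_ring
      rw [this]; exact I.add_mem (I.mul_mem_right _ _ hb) (I.mul_mem_left _ _ hd)

/-- A quadratic presentation gives `IsQuadratic`. -/
theorem isQuadratic_of_pres {A : Type u} [Ring A] [Algebra k A] (𝒜 : ℕ → Submodule k A)
    {n m : ℕ} {x : Fin n → A} {r : Fin m → Fin n → Fin n → k} (h : IsPres x r)
    (hx : ∀ j, x j ∈ 𝒜 1) : IsQuadratic 𝒜 := by
  refine ⟨n, x, hx, ?_, ?_⟩
  · rw [← AlgHom.range_eq_top, ← Algebra.adjoin_range_eq_range_freeAlgebra_lift]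
    exact h.gen
  · intro f
    set J := TwoSidedIdeal.span {r : FreeAlgebra k (Fin n) |
        (∃ c : Fin n → Fin n → k,
          r = ∑ i, ∑ j, c i j • (FreeAlgebra.ι k i * FreeAlgebra.ι k j)) ∧
        FreeAlgebra.lift k x r = 0} with hJ
    constructor
    · intro hf
      let q : FreeAlgebra k (Fin n) →ₐ[k] J.ringCon.Quotient :=
        { J.ringCon.mk' with commutes' := fun _ => rfl }
      have hq : ∀ p, q p = 0 ↔ p ∈ J := by
        intro p
        rw [TwoSidedIdeal.mem_iff]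
        exact (RingCon.eq J.ringCon)
      obtain ⟨g, hg⟩ := h.up J.ringCon.Quotient (fun j => q (FreeAlgebra.ι k j)) (by
        intro i
        have e : ∑ j, ∑ l, r i j l • (q (FreeAlgebra.ι k j) * q (FreeAlgebra.ι k l))
            = q (∑ j, ∑ l, r i j l • (FreeAlgebra.ι k j * FreeAlgebra.ι k l)) := by
          simp only [map_sum, map_smul, map_mul]
        rw [e, hq]
        apply TwoSidedIdeal.subset_span
        refine ⟨⟨r i, rfl⟩, ?_⟩
        simp only [map_sum, map_smul, map_mul, FreeAlgebra.lift_ι_apply]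
        exact h.rel i)
      have hc : g.comp (FreeAlgebra.lift k x) = q := by
        apply FreeAlgebra.hom_ext
        funext j
        simp [hg]
      rw [← hq, ← hc, AlgHom.comp_apply, hf, map_zero]
    · intro hf
      have hle : J ≤ TwoSidedIdeal.ker (FreeAlgebra.lift k x) := by
        rw [hJ, TwoSidedIdeal.span_le]
        rintro p ⟨_, hp⟩
        exact (TwoSidedIdeal.mem_ker _).2 hp
      exact (TwoSidedIdeal.mem_ker _).1 (hle hf)

section Rel2

variable {i0 κ : k} {E : Type u} [Ring E] [Algebra k E] {a v b t : E}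
  (h : Rels i0 κ a v b t) (hi : i0 ^ 2 = -1)

include h in
theorem Rels.va' : v * a = a * a + b * b - a * v := by rw [← h.va]; abel
include h in
theorem Rels.vb' : v * b = a * a + b * b - b * v := by rw [← h.vb]; abel

include h in
theorem Rels.v_tt : v * (t * t) - t * t * v = (a * a + b * b) * b - a * (a * a + b * b)
    - ((a * a + b * b) * a - b * (a * a + b * b)) := by
  have e1 : v * (a * b) = (a * a + b * b) * b - a * (a * a + b * b) + a * b * v := by
    rw [← mul_assoc, h.va', sub_mul, mul_assoc a v b, h.vb', mul_sub, mul_assoc a b v]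
    abel
  have e2 : v * (b * a) = (a * a + b * b) * a - b * (a * a + b * b) + b * a * v := by
    rw [← mul_assoc, h.vb', sub_mul, mul_assoc b v a, h.va', mul_sub, mul_assoc b a v]
    abel
  rw [h.tt, mul_sub, e1, e2, sub_mul]
  abel

include h in
theorem Rels.za : (v * t + t * v) * a + i0 • (a * (v * t + t * v))
    = i0 • ((a * a + b * b) * t) + t * (a * a + b * b) := by
  have e1 : (v * t + t * v) * a = v * (t * a) + t * (v * a) := by noncomm_ring
  rw [e1, h.ta, h.va', mul_smul_comm, ← mul_assoc v a t, h.va', mul_sub, ← mul_assoc t a v, h.ta]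
  simp only [sub_mul, mul_add, add_mul, smul_add, smul_sub, mul_assoc, smul_mul_assoc]
  abel

include h in
theorem Rels.zb : (v * t + t * v) * b - i0 • (b * (v * t + t * v))
    = -(i0 • ((a * a + b * b) * t)) + t * (a * a + b * b) := by
  have e1 : (v * t + t * v) * b = v * (t * b) + t * (v * b) := by noncomm_ring
  rw [e1, h.tb, h.vb', mul_neg, mul_smul_comm, ← mul_assoc v b t, h.vb', mul_sub,
    ← mul_assoc t b v, h.tb]
  simp only [sub_mul, mul_add, add_mul, smul_add, smul_sub, mul_assoc, smul_mul_assoc, neg_mul]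
  abel

end Rel2

section

variable (i0 κ : k) (h2 : (2 : k) ≠ 0) (hi : i0 ^ 2 = -1)

/-- the normalizing sequence `a^2, b^2, t^2, vt + tv` -/
noncomputable def rs : Fin 4 → AA i0 κ :=
  ![gy k (mu0 i0) (MM0 κ) 1, gy k (mu0 i0) (MM0 κ) 3, gy k (mu0 i0) (MM0 κ) 2,
    gy k (mu0 i0) (MM0 κ) 0]

theorem range_rs : Set.range (rs i0 κ) = Set.range (gy k (mu0 i0) (MM0 κ)) := by
  ext z
  constructor
  · rintro ⟨j, rfl⟩
    fin_cases j
    exacts [⟨1, rfl⟩, ⟨3, rfl⟩, ⟨2, rfl⟩, ⟨0, rfl⟩]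
  · rintro ⟨j, rfl⟩
    fin_cases j
    exacts [⟨3, rfl⟩, ⟨0, rfl⟩, ⟨2, rfl⟩, ⟨1, rfl⟩]

include h2 hi in
theorem norm_rs : IsNormalizingSeq (rs i0 κ) := by
  have h := rels_AA i0 κ h2
  have hii : i0 * i0 = -1 := by rw [← sq]; exact hi
  have e0 : rs i0 κ 0 = ea i0 κ * ea i0 κ := gy1_eq i0 κ h2
  have e1 : rs i0 κ 1 = eb i0 κ * eb i0 κ := gy3_eq i0 κ h2
  have e2 : rs i0 κ 2 = et i0 κ * et i0 κ := gy2_eq i0 κ h2
  have e3 : rs i0 κ 3 = ev i0 κ * et i0 κ + et i0 κ * ev i0 κ := gy0_eq i0 κ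
  intro i
  set I := TwoSidedIdeal.span (rs i0 κ '' {j | j < i}) with hI
  have hmem : ∀ j, j < i → rs i0 κ j ∈ I := fun j hj =>
    TwoSidedIdeal.subset_span ⟨j, hj, rfl⟩
  have hz : ∀ {u : AA i0 κ}, u = 0 → u ∈ I := fun hu => hu ▸ I.zero_mem
  fin_cases i
  · show (∀ a, ∃ b, a * rs i0 κ 0 - rs i0 κ 0 * b ∈ I) ∧
      (∀ a, ∃ b, rs i0 κ 0 * a - b * rs i0 κ 0 ∈ I)
    rw [e0]
    refine normal_of_gens (k := k) (gg i0 κ) (adjoin_AA i0 κ h2) I _ ![1, 1, 1, -1]
      ![1, 1, 1, -1] ?_ ?_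
    · intro j
      apply hz
      fin_cases j
      · show ea i0 κ * (ea i0 κ * ea i0 κ) - ea i0 κ * ea i0 κ * ((1 : k) • ea i0 κ) = 0
        rw [one_smul]; noncomm_ring
      · show ev i0 κ * (ea i0 κ * ea i0 κ) - ea i0 κ * ea i0 κ * ((1 : k) • ev i0 κ) = 0
        rw [one_smul, h.vX hi, sub_self]
      · show eb i0 κ * (ea i0 κ * ea i0 κ) - ea i0 κ * ea i0 κ * ((1 : k) • eb i0 κ) = 0
        rw [one_smul, h.baa hi, sub_self]
      · show et i0 κ * (ea i0 κ * ea i0 κ) - ea i0 κ * ea i0 κ * ((-1 : k) • et i0 κ) = 0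
        rw [neg_smul, one_smul, h.tX hi]; noncomm_ring
    · intro j
      apply hz
      fin_cases j
      · show ea i0 κ * ea i0 κ * ea i0 κ - ((1 : k) • ea i0 κ) * (ea i0 κ * ea i0 κ) = 0
        rw [one_smul]; noncomm_ring
      · show ea i0 κ * ea i0 κ * ev i0 κ - ((1 : k) • ev i0 κ) * (ea i0 κ * ea i0 κ) = 0
        rw [one_smul, h.vX hi, sub_self]
      · show ea i0 κ * ea i0 κ * eb i0 κ - ((1 : k) • eb i0 κ) * (ea i0 κ * ea i0 κ) = 0
        rw [one_smul, h.baa hi, sub_self]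
      · show ea i0 κ * ea i0 κ * et i0 κ - ((-1 : k) • et i0 κ) * (ea i0 κ * ea i0 κ) = 0
        rw [neg_smul, one_smul, neg_mul, h.tX hi]; noncomm_ring
  · show (∀ a, ∃ b, a * rs i0 κ 1 - rs i0 κ 1 * b ∈ I) ∧
      (∀ a, ∃ b, rs i0 κ 1 * a - b * rs i0 κ 1 ∈ I)
    rw [e1]
    refine normal_of_gens (k := k) (gg i0 κ) (adjoin_AA i0 κ h2) I _ ![1, 1, 1, -1]
      ![1, 1, 1, -1] ?_ ?_
    · intro j
      apply hz
      fin_cases j
      · show ea i0 κ * (eb i0 κ * eb i0 κ) - eb i0 κ * eb i0 κ * ((1 : k) • ea i0 κ) = 0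
        rw [one_smul, h.abb hi, sub_self]
      · show ev i0 κ * (eb i0 κ * eb i0 κ) - eb i0 κ * eb i0 κ * ((1 : k) • ev i0 κ) = 0
        rw [one_smul, h.vZ hi, sub_self]
      · show eb i0 κ * (eb i0 κ * eb i0 κ) - eb i0 κ * eb i0 κ * ((1 : k) • eb i0 κ) = 0
        rw [one_smul]; noncomm_ring
      · show et i0 κ * (eb i0 κ * eb i0 κ) - eb i0 κ * eb i0 κ * ((-1 : k) • et i0 κ) = 0
        rw [neg_smul, one_smul, h.tZ hi]; noncomm_ring
    · intro j
      apply hz
      fin_cases j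
      · show eb i0 κ * eb i0 κ * ea i0 κ - ((1 : k) • ea i0 κ) * (eb i0 κ * eb i0 κ) = 0
        rw [one_smul, h.abb hi, sub_self]
      · show eb i0 κ * eb i0 κ * ev i0 κ - ((1 : k) • ev i0 κ) * (eb i0 κ * eb i0 κ) = 0
        rw [one_smul, h.vZ hi, sub_self]
      · show eb i0 κ * eb i0 κ * eb i0 κ - ((1 : k) • eb i0 κ) * (eb i0 κ * eb i0 κ) = 0
        rw [one_smul]; noncomm_ring
      · show eb i0 κ * eb i0 κ * et i0 κ - ((-1 : k) • et i0 κ) * (eb i0 κ * eb i0 κ) = 0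
        rw [neg_smul, one_smul, neg_mul, h.tZ hi]; noncomm_ring
  · show (∀ a, ∃ b, a * rs i0 κ 2 - rs i0 κ 2 * b ∈ I) ∧
      (∀ a, ∃ b, rs i0 κ 2 * a - b * rs i0 κ 2 ∈ I)
    have hX : ea i0 κ * ea i0 κ ∈ I := e0 ▸ hmem 0 (by decide)
    have hZ : eb i0 κ * eb i0 κ ∈ I := e1 ▸ hmem 1 (by decide)
    have hW : ea i0 κ * ea i0 κ + eb i0 κ * eb i0 κ ∈ I := I.add_mem hX hZ
    have hv : ev i0 κ * (et i0 κ * et i0 κ) - et i0 κ * et i0 κ * ev i0 κ ∈ I := by
      rw [h.v_tt]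
      exact I.sub_mem (I.sub_mem (I.mul_mem_right _ _ hW) (I.mul_mem_left _ _ hW))
        (I.sub_mem (I.mul_mem_right _ _ hW) (I.mul_mem_left _ _ hW))
    rw [e2]
    refine normal_of_gens (k := k) (gg i0 κ) (adjoin_AA i0 κ h2) I _ ![-1, 1, -1, 1]
      ![-1, 1, -1, 1] ?_ ?_
    · intro j
      fin_cases j
      · apply hz
        show ea i0 κ * (et i0 κ * et i0 κ) - et i0 κ * et i0 κ * ((-1 : k) • ea i0 κ) = 0
        rw [neg_smul, one_smul, mul_neg, h.tta hi]; noncomm_ring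
      · show ev i0 κ * (et i0 κ * et i0 κ) - et i0 κ * et i0 κ * ((1 : k) • ev i0 κ) ∈ I
        rw [one_smul]; exact hv
      · apply hz
        show eb i0 κ * (et i0 κ * et i0 κ) - et i0 κ * et i0 κ * ((-1 : k) • eb i0 κ) = 0
        rw [neg_smul, one_smul, mul_neg, h.ttb hi]; noncomm_ring
      · apply hz
        show et i0 κ * (et i0 κ * et i0 κ) - et i0 κ * et i0 κ * ((1 : k) • et i0 κ) = 0
        rw [one_smul]; noncomm_ring
    · intro j
      fin_cases j
      · apply hz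
        show et i0 κ * et i0 κ * ea i0 κ - ((-1 : k) • ea i0 κ) * (et i0 κ * et i0 κ) = 0
        rw [neg_smul, one_smul, h.tta hi]; noncomm_ring
      · show et i0 κ * et i0 κ * ev i0 κ - ((1 : k) • ev i0 κ) * (et i0 κ * et i0 κ) ∈ I
        rw [one_smul, ← neg_sub]; exact I.neg_mem hv
      · apply hz
        show et i0 κ * et i0 κ * eb i0 κ - ((-1 : k) • eb i0 κ) * (et i0 κ * et i0 κ) = 0
        rw [neg_smul, one_smul, h.ttb hi]; noncomm_ring
      · apply hz
        show et i0 κ * et i0 κ * et i0 κ - ((1 : k) • et i0 κ) * (et i0 κ * et i0 κ) = 0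
        rw [one_smul]; noncomm_ring
  · show (∀ a, ∃ b, a * rs i0 κ 3 - rs i0 κ 3 * b ∈ I) ∧
      (∀ a, ∃ b, rs i0 κ 3 * a - b * rs i0 κ 3 ∈ I)
    have hX : ea i0 κ * ea i0 κ ∈ I := e0 ▸ hmem 0 (by decide)
    have hZ : eb i0 κ * eb i0 κ ∈ I := e1 ▸ hmem 1 (by decide)
    have hT : et i0 κ * et i0 κ ∈ I := e2 ▸ hmem 2 (by decide)
    have hW : ea i0 κ * ea i0 κ + eb i0 κ * eb i0 κ ∈ I := I.add_mem hX hZ
    have hsm : ∀ (s : k) {u : AA i0 κ}, u ∈ I → s • u ∈ I := fun s u hu => by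
      rw [Algebra.smul_def]; exact I.mul_mem_left _ _ hu
    have hV : ev i0 κ * ev i0 κ ∈ I := by
      rw [h.vv]; exact I.add_mem (hsm _ hX) (hsm _ hZ)
    have hWt : (ea i0 κ * ea i0 κ + eb i0 κ * eb i0 κ) * et i0 κ ∈ I := I.mul_mem_right _ _ hW
    have htW : et i0 κ * (ea i0 κ * ea i0 κ + eb i0 κ * eb i0 κ) ∈ I := I.mul_mem_left _ _ hW
    have za := h.za
    have zb := h.zb
    rw [e3]
    set z := ev i0 κ * et i0 κ + et i0 κ * ev i0 κ with hzdef
    have hv : ev i0 κ * z - z * ev i0 κ ∈ I := by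
      have : ev i0 κ * z - z * ev i0 κ
          = ev i0 κ * ev i0 κ * et i0 κ - et i0 κ * (ev i0 κ * ev i0 κ) := by
        rw [hzdef]; noncomm_ring
      rw [this]; exact I.sub_mem (I.mul_mem_right _ _ hV) (I.mul_mem_left _ _ hV)
    have ht : et i0 κ * z - z * et i0 κ ∈ I := by
      have : et i0 κ * z - z * et i0 κ
          = et i0 κ * et i0 κ * ev i0 κ - ev i0 κ * (et i0 κ * et i0 κ) := by
        rw [hzdef]; noncomm_ring
      rw [this]; exact I.sub_mem (I.mul_mem_right _ _ hT) (I.mul_mem_left _ _ hT)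
    refine normal_of_gens (k := k) (gg i0 κ) (adjoin_AA i0 κ h2) I _ ![i0, 1, -i0, 1]
      ![-i0, 1, i0, 1] ?_ ?_
    · intro j
      fin_cases j
      · show ea i0 κ * z - z * (i0 • ea i0 κ) ∈ I
        have : ea i0 κ * z - z * (i0 • ea i0 κ) = -(i0 • (z * ea i0 κ + i0 • (ea i0 κ * z))) := by
          rw [smul_add, smul_smul, hii, mul_smul_comm, neg_smul, one_smul]; abel
        rw [this, za]
        exact I.neg_mem (hsm _ (I.add_mem (hsm _ hWt) htW))
      · show ev i0 κ * z - z * ((1 : k) • ev i0 κ) ∈ I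
        rw [one_smul]; exact hv
      · show eb i0 κ * z - z * ((-i0) • eb i0 κ) ∈ I
        have : eb i0 κ * z - z * ((-i0) • eb i0 κ) = i0 • (z * eb i0 κ - i0 • (eb i0 κ * z)) := by
          rw [smul_sub, smul_smul, hii, mul_smul_comm, neg_smul, neg_smul, one_smul]; abel
        rw [this, zb]
        exact hsm _ (I.add_mem (I.neg_mem (hsm _ hWt)) htW)
      · show et i0 κ * z - z * ((1 : k) • et i0 κ) ∈ I
        rw [one_smul]; exact ht
    · intro j
      fin_cases j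
      · show z * ea i0 κ - ((-i0) • ea i0 κ) * z ∈ I
        have : z * ea i0 κ - ((-i0) • ea i0 κ) * z = z * ea i0 κ + i0 • (ea i0 κ * z) := by
          rw [smul_mul_assoc, neg_smul, sub_neg_eq_add]
        rw [this, za]
        exact I.add_mem (hsm _ hWt) htW
      · show z * ev i0 κ - ((1 : k) • ev i0 κ) * z ∈ I
        rw [one_smul, ← neg_sub]; exact I.neg_mem hv
      · show z * eb i0 κ - (i0 • eb i0 κ) * z ∈ I
        rw [smul_mul_assoc, zb]
        exact I.add_mem (I.neg_mem (hsm _ hWt)) htW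
      · show z * et i0 κ - ((1 : k) • et i0 κ) * z ∈ I
        rw [one_smul, ← neg_sub]; exact I.neg_mem ht

include h2 hi in
theorem isGSCA_AA : IsGSCA k (mu0 i0) (MM0 κ) where
  mu_ne_zero i j := by
    have hi0 : i0 ≠ 0 := by
      rintro rfl
      norm_num at hi
    fin_cases i <;> fin_cases j <;> simp [mu0, hi0]
  mu_mul i j := by
    have hii : i0 * i0 = -1 := by rw [← sq]; exact hi
    fin_cases i <;> fin_cases j <;> simp [mu0, hii]
  mu_diag i := by fin_cases i <;> simp [mu0]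
  symm l i j := by
    fin_cases l <;> fin_cases i <;> fin_cases j <;> simp [mu0, MM0]
  normalizing := ⟨rs i0 κ, by rw [range_rs], norm_rs i0 κ h2 hi⟩

end

end Pool.Agent.W506.PM
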