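import Pool.Agent.W506.PM.CG

/-!
# `a^2, b^2` is a regular sequence
-/

universe u

namespace Pool.Agent.W506.PM

variable {k : Type u} [Field k]

section Abstract

variable {A : Type u} [AddCommGroup A] [Module k A] {ι : Type} (B : Module.Basis ι k A)

theorem shift_repr (T : A →ₗ[k] A) (s : ι → ι) (hs : Function.Injective s) (c : ι → k)
    (hT : ∀ i, T (B i) = c i • B (s i)) (h : A) (i : ι) :
    B.repr (T h) (s i) = c i * B.repr h i := by
  have key : (B.coord (s i)).comp T = c i • B.coord i := by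
    apply B.ext
    intro j
    rw [LinearMap.comp_apply, hT, map_smul, LinearMap.smul_apply, Module.Basis.coord_apply,
      Module.Basis.coord_apply, Module.Basis.repr_self, Module.Basis.repr_self]
    rcases eq_or_ne j i with rfl | hji
    · simp
    · rw [Finsupp.single_eq_of_ne (by intro h; exact hji (hs h).symm),
        Finsupp.single_eq_of_ne hji.symm]
      simp
  exact LinearMap.congr_fun key h

theorem shift_repr' (T : A →ₗ[k] A) (s : ι → ι) (c : ι → k)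
    (hT : ∀ i, T (B i) = c i • B (s i)) (h : A) (j : ι) (hj : ∀ i, s i ≠ j) :
    B.repr (T h) j = 0 := by
  have key : (B.coord j).comp T = 0 := by
    apply B.ext
    intro i
    rw [LinearMap.comp_apply, hT, map_smul, Module.Basis.coord_apply, Module.Basis.repr_self,
      Finsupp.single_eq_of_ne (fun h => hj i h.symm)]
    simp
  exact LinearMap.congr_fun key h

theorem shift_inj (T : A →ₗ[k] A) (s : ι → ι) (hs : Function.Injective s) (c : ι → k)
    (hc : ∀ i, c i ≠ 0) (hT : ∀ i, T (B i) = c i • B (s i)) (h : A) (h0 : T h = 0) : h = 0 := by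
  apply B.ext_elem
  intro i
  have := shift_repr B T s hs c hT h i
  rw [h0, map_zero, Finsupp.zero_apply] at this
  rw [map_zero, Finsupp.zero_apply]
  rcases mul_eq_zero.1 this.symm with h1 | h1
  · exact absurd h1 (hc i)
  · exact h1

theorem shift_reg (T1 T2 : A →ₗ[k] A) (s1 s2 : ι → ι)
    (hs2 : Function.Injective s2) (c1 c2 : ι → k) (hc1 : ∀ i, c1 i ≠ 0) (hc2 : ∀ i, c2 i ≠ 0)
    (hT1 : ∀ i, T1 (B i) = c1 i • B (s1 i)) (hT2 : ∀ i, T2 (B i) = c2 i • B (s2 i))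
    (hss : ∀ i j, s1 j = s2 i → ∃ i', i = s1 i')
    (h h' : A) (h0 : T2 h = T1 h') : ∃ h'', h = T1 h'' := by
  have key : ∀ i, (∀ j, s1 j ≠ i) → B.repr h i = 0 := by
    intro i hi
    have e1 := shift_repr B T2 s2 hs2 c2 hT2 h i
    rw [h0, shift_repr' B T1 s1 c1 hT1 h' (s2 i)] at e1
    · rcases mul_eq_zero.1 e1.symm with h1 | h1
      · exact absurd h1 (hc2 i)
      · exact h1
    · intro j hj
      obtain ⟨i', hi'⟩ := hss i j hj
      exact hi i' hi'.symm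
  have : h ∈ LinearMap.range T1 := by
    rw [← B.linearCombination_repr h, Finsupp.linearCombination_apply, Finsupp.sum]
    apply Submodule.sum_mem
    intro i hi
    apply Submodule.smul_mem
    by_cases hh : ∃ j, s1 j = i
    · obtain ⟨j, rfl⟩ := hh
      refine ⟨(c1 j)⁻¹ • B j, ?_⟩
      rw [map_smul, hT1, smul_smul, inv_mul_cancel₀ (hc1 j), one_smul]
    · push_neg at hh
      exact absurd (key i hh) (Finsupp.mem_support_iff.1 hi)
  obtain ⟨x, hx⟩ := this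
  exact ⟨x, hx.symm⟩

end Abstract

section

variable (i0 κ : k) (h2 : (2 : k) ≠ 0) (hi : i0 ^ 2 = -1)

/-- `a^2` -/
noncomputable abbrev XX : AA i0 κ := ea i0 κ * ea i0 κ
/-- `b^2` -/
noncomputable abbrev ZZ : AA i0 κ := eb i0 κ * eb i0 κ

section

variable {i0 κ}
variable {E : Type u} [Ring E] [Algebra k E] {a v b t : E} (h : Rels i0 κ a v b t)
  (hi : i0 ^ 2 = -1)
include h hi

theorem Rels.vX : v * (a * a) = a * a * v := by
  have h1 := h.va
  have h3 := h.abb hi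
  have e : v * (a * a) - a * a * v
      = (v * a + a * v) * a - a * (v * a + a * v) := by noncomm_ring
  rw [← sub_eq_zero, e, h1, add_mul, mul_add, h3, mul_assoc a a a]
  noncomm_ring

theorem Rels.vZ : v * (b * b) = b * b * v := by
  have h1 := h.vb
  have h3 := h.baa hi
  have e : v * (b * b) - b * b * v
      = (v * b + b * v) * b - b * (v * b + b * v) := by noncomm_ring
  rw [← sub_eq_zero, e, h1, add_mul, mul_add, h3, mul_assoc b b b]
  noncomm_ring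

theorem Rels.tX : t * (a * a) = -(a * a * t) := by
  have hii : i0 * i0 = -1 := by rw [← sq]; exact hi
  rw [← mul_assoc, h.ta, smul_mul_assoc, mul_assoc, h.ta, mul_smul_comm, smul_smul, hii,
    neg_smul, one_smul, mul_assoc]

theorem Rels.tZ : t * (b * b) = -(b * b * t) := by
  have hii : i0 * i0 = -1 := by rw [← sq]; exact hi
  rw [← mul_assoc, h.tb, neg_mul, smul_mul_assoc, mul_assoc, h.tb, mul_neg, mul_smul_comm,
    smul_neg, neg_neg, smul_smul, hii, neg_smul, one_smul, mul_assoc]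

end

include h2 hi in
/-- common statement for the alternating words -/
theorem ww_XZ (n : ℤ) : ∃ c : k, c ≠ 0 ∧ ww i0 κ n * XX i0 κ = c • (XX i0 κ * ww i0 κ n) ∧
    ww i0 κ n * ZZ i0 κ = c • (ZZ i0 κ * ww i0 κ n) := by
  have hr := rels_AA i0 κ h2
  have step : ∀ (y w : AA i0 κ) (e : k), e ≠ 0 → y * XX i0 κ = e • (XX i0 κ * y) →
      y * ZZ i0 κ = e • (ZZ i0 κ * y) →
      (∃ c : k, c ≠ 0 ∧ w * XX i0 κ = c • (XX i0 κ * w) ∧ w * ZZ i0 κ = c • (ZZ i0 κ * w)) →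
      (∃ c : k, c ≠ 0 ∧ (y * w) * XX i0 κ = c • (XX i0 κ * (y * w)) ∧
        (y * w) * ZZ i0 κ = c • (ZZ i0 κ * (y * w))) := by
    rintro y w e he h1 h3 ⟨c, hc, h4, h5⟩
    refine ⟨c * e, mul_ne_zero hc he, ?_, ?_⟩
    · rw [mul_assoc, h4, mul_smul_comm, ← mul_assoc, h1, smul_mul_assoc, smul_smul, mul_assoc]
    · rw [mul_assoc, h5, mul_smul_comm, ← mul_assoc, h3, smul_mul_assoc, smul_smul, mul_assoc]
  have hv1 : ev i0 κ * XX i0 κ = (1 : k) • (XX i0 κ * ev i0 κ) := by rw [one_smul, hr.vX hi]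
  have hv2 : ev i0 κ * ZZ i0 κ = (1 : k) • (ZZ i0 κ * ev i0 κ) := by rw [one_smul, hr.vZ hi]
  have ht1 : et i0 κ * XX i0 κ = (-1 : k) • (XX i0 κ * et i0 κ) := by
    rw [neg_smul, one_smul, hr.tX hi]
  have ht2 : et i0 κ * ZZ i0 κ = (-1 : k) • (ZZ i0 κ * et i0 κ) := by
    rw [neg_smul, one_smul, hr.tZ hi]
  have h1 : (1 : k) ≠ 0 := one_ne_zero
  have h1' : (-1 : k) ≠ 0 := neg_ne_zero.2 one_ne_zero
  obtain ⟨m, rfl | rfl⟩ := Int.eq_nat_or_neg n
  · rw [ww_natCast]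
    induction m with
    | zero => exact ⟨1, h1, by simp [wp], by simp [wp]⟩
    | succ m ih =>
      rw [wp_succ]
      split_ifs
      · exact step _ _ _ h1 hv1 hv2 ih
      · exact step _ _ _ h1' ht1 ht2 ih
  · rw [ww_neg_natCast]
    induction m with
    | zero => exact ⟨1, h1, by simp [wn], by simp [wn]⟩
    | succ m ih =>
      rw [wn_succ]
      split_ifs
      · exact step _ _ _ h1' ht1 ht2 ih
      · exact step _ _ _ h1 hv1 hv2 ih

/-- shift in the first exponent -/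
def sh0 (i : Fin 4 → ℕ) : Fin 4 → ℕ := ![i 0 + 2, i 1, i 2, i 3]
/-- shift in the second exponent -/
def sh1 (i : Fin 4 → ℕ) : Fin 4 → ℕ := ![i 0, i 1 + 2, i 2, i 3]

theorem sh0_inj : Function.Injective sh0 := by
  intro i j h
  have h0 : i 0 + 2 = j 0 + 2 := congrFun h 0
  have h1 : i 1 = j 1 := congrFun h 1
  have h2 : i 2 = j 2 := congrFun h 2
  have h3 : i 3 = j 3 := congrFun h 3
  funext l; fin_cases l
  · show i 0 = j 0; omega
  · exact h1
  · exact h2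
  · exact h3

theorem sh1_inj : Function.Injective sh1 := by
  intro i j h
  have h0 : i 0 = j 0 := congrFun h 0
  have h1 : i 1 + 2 = j 1 + 2 := congrFun h 1
  have h2 : i 2 = j 2 := congrFun h 2
  have h3 : i 3 = j 3 := congrFun h 3
  funext l; fin_cases l
  · exact h0
  · show i 1 = j 1; omega
  · exact h2
  · exact h3

theorem sh_sh (i j : Fin 4 → ℕ) (h : sh0 j = sh1 i) : ∃ i', i = sh0 i' := by
  have h0 : j 0 + 2 = i 0 := congrFun h 0
  refine ⟨![j 0, i 1, i 2, i 3], ?_⟩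
  funext l; fin_cases l
  · exact h0.symm
  · rfl
  · rfl
  · rfl

include h2 hi in
theorem X_mul_BB (i : Fin 4 → ℕ) : XX i0 κ * BB i0 κ i = BB i0 κ (sh0 i) := by
  show XX i0 κ * (ea i0 κ ^ i 0 * eb i0 κ ^ i 1 * om i0 κ ^ min (i 2) (i 3)
    * ww i0 κ ((i 2 : ℤ) - i 3)) = ea i0 κ ^ (i 0 + 2) * eb i0 κ ^ i 1
    * om i0 κ ^ min (i 2) (i 3) * ww i0 κ ((i 2 : ℤ) - i 3)
  rw [add_comm (i 0) 2, pow_add, sq]
  simp only [mul_assoc]

include h2 hi in
theorem Z_mul_BB (i : Fin 4 → ℕ) : ZZ i0 κ * BB i0 κ i = BB i0 κ (sh1 i) := by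
  show ZZ i0 κ * (ea i0 κ ^ i 0 * eb i0 κ ^ i 1 * om i0 κ ^ min (i 2) (i 3)
    * ww i0 κ ((i 2 : ℤ) - i 3)) = ea i0 κ ^ (i 0) * eb i0 κ ^ (i 1 + 2)
    * om i0 κ ^ min (i 2) (i 3) * ww i0 κ ((i 2 : ℤ) - i 3)
  have h1 : ZZ i0 κ * ea i0 κ ^ i 0 = ea i0 κ ^ i 0 * ZZ i0 κ :=
    ((bb_comm_a i0 κ h2 hi).pow_right _).eq
  rw [add_comm (i 1) 2, pow_add, sq]
  simp only [← mul_assoc]
  rw [mul_assoc (eb i0 κ), ← mul_assoc (eb i0 κ), h1]
  simp only [mul_assoc]

include h2 hi in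
theorem BB_mul_X (i : Fin 4 → ℕ) : ∃ c : k, c ≠ 0 ∧ BB i0 κ i * XX i0 κ = c • BB i0 κ (sh0 i) ∧
    BB i0 κ i * ZZ i0 κ = c • BB i0 κ (sh1 i) := by
  obtain ⟨c, hc, e1, e2⟩ := ww_XZ i0 κ h2 hi ((i 2 : ℤ) - i 3)
  have hX : Commute (XX i0 κ) (om i0 κ) := by
    have h1 : Commute (om i0 κ) (ea i0 κ) := om_comm_a i0 κ h2 hi
    exact (h1.mul_right h1).symm
  have hZ : Commute (ZZ i0 κ) (om i0 κ) := by
    have h1 : Commute (om i0 κ) (eb i0 κ) := om_comm_b i0 κ h2 hi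
    exact (h1.mul_right h1).symm
  have hXa : Commute (XX i0 κ) (ea i0 κ) := (Commute.refl _).mul_left (Commute.refl _)
  have hZb : Commute (ZZ i0 κ) (eb i0 κ) := (Commute.refl _).mul_left (Commute.refl _)
  have hXb : Commute (XX i0 κ) (eb i0 κ) := aa_comm_b i0 κ h2 hi
  have hZa : Commute (ZZ i0 κ) (ea i0 κ) := bb_comm_a i0 κ h2 hi
  have c1 : ea i0 κ ^ i 0 * eb i0 κ ^ i 1 * om i0 κ ^ min (i 2) (i 3) * XX i0 κ
      = XX i0 κ * (ea i0 κ ^ i 0 * eb i0 κ ^ i 1 * om i0 κ ^ min (i 2) (i 3)) :=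
    ((((hXa.pow_right _).mul_right (hXb.pow_right _)).mul_right (hX.pow_right _))).symm.eq
  have c2 : ea i0 κ ^ i 0 * eb i0 κ ^ i 1 * om i0 κ ^ min (i 2) (i 3) * ZZ i0 κ
      = ZZ i0 κ * (ea i0 κ ^ i 0 * eb i0 κ ^ i 1 * om i0 κ ^ min (i 2) (i 3)) :=
    ((((hZa.pow_right _).mul_right (hZb.pow_right _)).mul_right (hZ.pow_right _))).symm.eq
  have gen : ∀ P w Y : AA i0 κ, w * Y = c • (Y * w) → P * Y = Y * P →
      P * w * Y = c • (Y * (P * w)) := by
    intro P w Y h1 h3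
    rw [mul_assoc, h1, mul_smul_comm, ← mul_assoc, h3, mul_assoc]
  refine ⟨c, hc, ?_, ?_⟩
  · rw [← X_mul_BB i0 κ h2 hi]
    exact gen _ _ _ e1 c1
  · rw [← Z_mul_BB i0 κ h2 hi]
    exact gen _ _ _ e2 c2

include h2 hi in
theorem reg_right : (∀ h : AA i0 κ, h * XX i0 κ = 0 → h = 0) ∧
    (∀ h h' : AA i0 κ, h * ZZ i0 κ = h' * XX i0 κ → ∃ h'', h = h'' * XX i0 κ) := by
  choose c hc hX hZ using BB_mul_X i0 κ h2 hi
  have hT1 : ∀ i, (LinearMap.mulRight k (XX i0 κ)) (bas i0 κ h2 hi i)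
      = c i • bas i0 κ h2 hi (sh0 i) := by
    intro i; rw [bas_apply, bas_apply]; exact hX i
  have hT2 : ∀ i, (LinearMap.mulRight k (ZZ i0 κ)) (bas i0 κ h2 hi i)
      = c i • bas i0 κ h2 hi (sh1 i) := by
    intro i; rw [bas_apply, bas_apply]; exact hZ i
  constructor
  · intro h h0
    exact shift_inj (bas i0 κ h2 hi) _ sh0 sh0_inj c hc hT1 h h0
  · intro h h' h0
    exact shift_reg (bas i0 κ h2 hi) _ _ sh0 sh1 sh1_inj c c hc hc hT1 hT2 sh_sh h h' h0

include h2 hi in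
theorem reg_left : (∀ h : AA i0 κ, XX i0 κ * h = 0 → h = 0) ∧
    (∀ h h' : AA i0 κ, ZZ i0 κ * h = XX i0 κ * h' → ∃ h'', h = XX i0 κ * h'') := by
  have hT1 : ∀ i, (LinearMap.mulLeft k (XX i0 κ)) (bas i0 κ h2 hi i)
      = (1 : k) • bas i0 κ h2 hi (sh0 i) := by
    intro i; rw [bas_apply, bas_apply, one_smul]; exact X_mul_BB i0 κ h2 hi i
  have hT2 : ∀ i, (LinearMap.mulLeft k (ZZ i0 κ)) (bas i0 κ h2 hi i)
      = (1 : k) • bas i0 κ h2 hi (sh1 i) := by
    intro i; rw [bas_apply, bas_apply, one_smul]; exact Z_mul_BB i0 κ h2 hi i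
  constructor
  · intro h h0
    exact shift_inj (bas i0 κ h2 hi) _ sh0 sh0_inj (fun _ => 1) (fun _ => one_ne_zero) hT1 h h0
  · intro h h' h0
    exact shift_reg (bas i0 κ h2 hi) _ _ sh0 sh1 sh1_inj (fun _ => 1) (fun _ => 1)
      (fun _ => one_ne_zero) (fun _ => one_ne_zero) hT1 hT2 sh_sh h h' h0

end

end Pool.Agent.W506.PM
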